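import Mathlib

/-!
# Category quantifiers preserve measurability
-/

set_option autoImplicit false

open Set Filter Topology

namespace Pool.Agent.H59.TV

variable {G : Type*} [TopologicalSpace G]

lemma baire_inter_open {s U : Set G} (hs : BaireMeasurableSet s) (hU : IsOpen U)
    (hnm : ¬ IsMeagre (s ∩ U)) : ∃ V, IsOpen V ∧ V.Nonempty ∧ V ⊆ U ∧ IsMeagre (V \ s) := by
  obtain ⟨W, hW, hsW⟩ := hs.residualEq_isOpen
  refine ⟨W ∩ U, hW.inter hU, ?_, inter_subset_right, ?_⟩
  · by_contra hne
    rw [not_nonempty_iff_eq_empty] at hne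
    apply hnm
    change _ ∈ residual G
    filter_upwards [hsW] with g hg h
    have h1 : g ∈ W := (iff_of_eq hg).1 h.1
    have h2 : g ∈ W ∩ U := ⟨h1, h.2⟩
    rw [hne] at h2
    exact h2
  · change _ ∈ residual G
    filter_upwards [hsW] with g hg h
    exact h.2 ((iff_of_eq hg).2 h.1.1)

/-- category quantifier: the section at `x` is not meagre in `U` -/
def NM {X : Type*} (B : Set (X × G)) (U : Set G) (x : X) : Prop :=
  ¬ IsMeagre ({g | (x, g) ∈ B} ∩ U)

variable [BaireSpace G] [SecondCountableTopology G] [MeasurableSpace G] [BorelSpace G]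
variable {X : Type*} [MeasurableSpace X]

omit [BaireSpace G] [SecondCountableTopology G] in
lemma section_baire {B : Set (X × G)} (hB : MeasurableSet B) (x : X) :
    BaireMeasurableSet {g | (x, g) ∈ B} := by
  have : MeasurableSet {g | (x, g) ∈ B} := measurable_prodMk_left hB
  exact this.baireMeasurableSet

lemma NM_compl {B : Set (X × G)} (hB : MeasurableSet B) {U : Set G} (hU : IsOpen U) (x : X) :
    NM Bᶜ U x ↔ ∃ V ∈ TopologicalSpace.countableBasis G, V ⊆ U ∧ ¬ NM B V x := by
  have hbasis := TopologicalSpace.isBasis_countableBasis G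
  constructor
  · intro h
    obtain ⟨V, hVo, ⟨v, hv⟩, hVU, hm⟩ := baire_inter_open (section_baire hB.compl x) hU h
    obtain ⟨W, hW, hvW, hWV⟩ := hbasis.exists_subset_of_mem_open hv hVo
    refine ⟨W, hW, hWV.trans hVU, ?_⟩
    unfold NM
    rw [not_not]
    refine hm.mono ?_
    rintro g ⟨hg, hgW⟩
    exact ⟨hWV hgW, fun h' => h' hg⟩
  · rintro ⟨V, hV, hVU, hm⟩ h
    unfold NM at hm
    rw [not_not] at hm
    have hVne : V.Nonempty := TopologicalSpace.nonempty_of_mem_countableBasis hV
    apply not_isMeagre_of_isOpen (hbasis.isOpen hV) hVne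
    refine (hm.union h).mono ?_
    intro g hg
    by_cases hB' : (x, g) ∈ B
    · exact Or.inl ⟨hB', hg⟩
    · exact Or.inr ⟨hB', hVU hg⟩

/-- the category quantifier of a measurable set is measurable -/
theorem measurable_NM {B : Set (X × G)} (hB : MeasurableSet B) :
    ∀ U : Set G, IsOpen U → MeasurableSet {x | NM B U x} := by
  have hgen : (Prod.instMeasurableSpace : MeasurableSpace (X × G)) =
      MeasurableSpace.generateFrom (image2 (· ×ˢ ·) {s : Set X | MeasurableSet s}
        {t : Set G | MeasurableSet t}) := generateFrom_prod.symm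
  refine MeasurableSpace.induction_on_inter (C := fun B _ => ∀ U : Set G, IsOpen U →
    MeasurableSet {x | NM B U x}) hgen isPiSystem_prod ?_ ?_ ?_ ?_ B hB
  · intro U _
    have : {x : X | NM (∅ : Set (X × G)) U x} = ∅ := by
      ext x
      simp [NM, IsMeagre.empty]
    rw [this]
    exact MeasurableSet.empty
  · rintro _ ⟨s, hs, t, ht, rfl⟩ U hU
    by_cases hm : IsMeagre (t ∩ U)
    · have : {x : X | NM (s ×ˢ t) U x} = ∅ := by
        ext x
        simp only [mem_ofPred_eq, mem_empty_iff_false, iff_false, NM, not_not]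
        refine hm.mono ?_
        rintro g ⟨hg, hgU⟩
        exact ⟨hg.2, hgU⟩
      rw [this]
      exact MeasurableSet.empty
    · have : {x : X | NM (s ×ˢ t) U x} = s := by
        ext x
        simp only [mem_ofPred_eq, NM]
        constructor
        · intro h
          by_contra hx
          apply h
          refine (IsMeagre.empty (X := G)).mono ?_
          rintro g ⟨hg, -⟩
          exact hx hg.1
        · intro hx h
          apply hm
          refine h.mono ?_
          rintro g ⟨hg, hgU⟩
          exact ⟨⟨hx, hg⟩, hgU⟩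
      rw [this]
      exact hs
  · intro B hB ih U hU
    have : {x : X | NM Bᶜ U x} =
        ⋃ V ∈ TopologicalSpace.countableBasis G, {x | V ⊆ U ∧ ¬ NM B V x} := by
      ext x
      rw [mem_ofPred_eq, NM_compl hB hU x]
      simp only [mem_iUnion, mem_ofPred_eq, exists_prop]
    rw [this]
    refine MeasurableSet.biUnion (TopologicalSpace.countable_countableBasis G) fun V hV => ?_
    by_cases hVU : V ⊆ U
    · have h2 : {x : X | V ⊆ U ∧ ¬ NM B V x} = {x | NM B V x}ᶜ := by
        ext x; simp [hVU]
      rw [h2]
      exact (ih V ((TopologicalSpace.isBasis_countableBasis G).isOpen hV)).compl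
    · have h2 : {x : X | V ⊆ U ∧ ¬ NM B V x} = ∅ := by
        ext x; simp [hVU]
      rw [h2]
      exact MeasurableSet.empty
  · intro f _ hf ih U hU
    have : {x : X | NM (⋃ i, f i) U x} = ⋃ i, {x | NM (f i) U x} := by
      ext x
      simp only [mem_ofPred_eq, mem_iUnion, NM]
      constructor
      · intro h
        by_contra hcon
        push Not at hcon
        apply h
        refine (isMeagre_iUnion (f := fun i => {g | (x, g) ∈ f i} ∩ U) fun i => hcon i).mono ?_
        rintro g ⟨hg, hgU⟩
        obtain ⟨i, hi⟩ := hg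
        exact mem_iUnion.2 ⟨i, hi, hgU⟩
      · rintro ⟨i, hi⟩ h
        apply hi
        refine h.mono ?_
        rintro g ⟨hg, hgU⟩
        exact ⟨⟨i, hg⟩, hgU⟩
    rw [this]
    exact MeasurableSet.iUnion fun i => ih i U hU

end Pool.Agent.H59.TV
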