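import Pool.Agent.H71.DST1

/-!
# Perfectly many values
-/

set_option autoImplicit false

open Set Filter Topology

namespace Pool.Agent.H59.TV

lemma perfect_of_continuous {X Z : Type*} [TopologicalSpace X] [PolishSpace X]
    [TopologicalSpace Z] [T2Space Z] (Θ : X → Z) (hΘ : Continuous Θ)
    (hunc : ¬ (range Θ).Countable) :
    ∃ f : (ℕ → Bool) → X, Continuous f ∧ ∀ u v, u ≠ v → Θ (f u) ≠ Θ (f v) := by
  set 𝒰 : Set (Set X) := {U | U ∈ TopologicalSpace.countableBasis X ∧ (Θ '' U).Countable} with h𝒰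
  have hbasis := TopologicalSpace.isBasis_countableBasis X
  set O : Set X := ⋃₀ 𝒰 with hO
  have hOo : IsOpen O := isOpen_sUnion fun U hU => hbasis.isOpen hU.1
  have hOc : (Θ '' O).Countable := by
    rw [hO, sUnion_eq_biUnion, image_iUnion₂]
    exact ((TopologicalSpace.countable_countableBasis X).mono fun U hU => hU.1).biUnion
      fun U hU => hU.2
  have hkey : ∀ V : Set X, IsOpen V → (V ∩ Oᶜ).Nonempty → ¬ (Θ '' (V ∩ Oᶜ)).Countable := by
    rintro V hV ⟨x, hxV, hxO⟩ hc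
    obtain ⟨W, hW, hxW, hWV⟩ := hbasis.exists_subset_of_mem_open hxV hV
    apply hxO
    refine ⟨W, ⟨hW, (hc.union hOc).mono ?_⟩, hxW⟩
    rintro _ ⟨y, hy, rfl⟩
    by_cases hyO : y ∈ O
    · exact Or.inr ⟨y, hyO, rfl⟩
    · exact Or.inl ⟨y, ⟨hWV hy, hyO⟩, rfl⟩
  have hCcl : IsClosed Oᶜ := hOo.isClosed_compl
  have hne : (Oᶜ : Set X).Nonempty := by
    rw [nonempty_compl]
    intro hO1
    apply hunc
    rw [← image_univ, ← hO1]
    exact hOc
  have : PolishSpace (Oᶜ : Set X) := hCcl.polishSpace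
  have : Nonempty (Oᶜ : Set X) := hne.to_subtype
  -- relatively open sets have uncountable image
  have hkey' : ∀ V : Set (Oᶜ : Set X), IsOpen V → V.Nonempty →
      ¬ ((fun p : (Oᶜ : Set X) => Θ p) '' V).Countable := by
    rintro V hV ⟨x, hx⟩ hc
    obtain ⟨V', hV', rfl⟩ := isOpen_induced_iff.1 hV
    refine hkey V' hV' ⟨x, hx, x.2⟩ (hc.mono ?_)
    rintro _ ⟨y, ⟨hy, hyO⟩, rfl⟩
    exact ⟨⟨y, hyO⟩, hy, rfl⟩
  have hperf : PerfectSpace (Oᶜ : Set X) := by
    rw [perfectSpace_iff_forall_not_isolated]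
    intro x
    rw [neBot_iff, Ne, ← isOpen_singleton_iff_punctured_nhds]
    intro hx
    refine hkey' {x} hx ⟨x, rfl⟩ ?_
    rw [image_singleton]
    exact countable_singleton _
  set R : Set ((Oᶜ : Set X) × (Oᶜ : Set X)) := {p | Θ p.1 = Θ p.2} with hR
  have hRcl : IsClosed R := isClosed_eq (hΘ.comp (continuous_subtype_val.comp continuous_fst))
    (hΘ.comp (continuous_subtype_val.comp continuous_snd))
  have hRm : IsMeagre R := by
    refine IsNowhereDense.isMeagre ?_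
    rw [hRcl.isNowhereDense_iff]
    by_contra hne'
    obtain ⟨⟨p, q⟩, hpq⟩ := nonempty_iff_ne_empty.2 hne'
    obtain ⟨V, W, hV, hW, hpV, hqW, hVW⟩ := isOpen_prod_iff.1 isOpen_interior p q hpq
    refine hkey' V hV ⟨p, hpV⟩ ((countable_singleton (Θ q)).mono ?_)
    rintro _ ⟨v, hv, rfl⟩
    have h1 : (v, q) ∈ R := interior_subset (hVW ⟨hv, hqW⟩)
    exact h1
  obtain ⟨f, hf, -, hfR⟩ := Pool.Agent.H71.DST.mycielski R hRm
  exact ⟨fun u => (f u : X), continuous_subtype_val.comp hf, fun u v huv h => hfR u v huv h⟩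

/-- A measurable map with uncountable range takes perfectly many values. -/
theorem exists_perfect_of_smooth {X : Type*} [MeasurableSpace X] [StandardBorelSpace X]
    (Θ : X → ℕ → Bool) (hΘ : Measurable Θ) (hunc : ¬ (range Θ).Countable) :
    ∃ f : (ℕ → Bool) → X, Measurable f ∧ ∀ u v, u ≠ v → Θ (f u) ≠ Θ (f v) := by
  let _ := upgradeStandardBorel X
  have h : ∃ f : (ℕ → Bool) → X, Continuous f ∧ ∀ u v, u ≠ v → Θ (f u) ≠ Θ (f v) := by
    obtain ⟨t', ht', hcont, hpol⟩ := hΘ.exists_continuous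
    obtain ⟨f, hf, hfΘ⟩ := @perfect_of_continuous X (ℕ → Bool) t' hpol _ _ Θ hcont hunc
    exact ⟨f, continuous_le_rng ht' hf, hfΘ⟩
  obtain ⟨f, hf, hfΘ⟩ := h
  exact ⟨f, hf.measurable, hfΘ⟩

end Pool.Agent.H59.TV
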