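import Pool.Agent.H59.TV.Cell

/-!
Back and forth for cellular groups; countably many orbits on colourings.
-/

set_option autoImplicit false

open Set

namespace Pool.Agent.H59.TV

open Pool.Agent.H71

section
variable {G : Subgroup (Equiv.Perm ℕ)} (hG : Cel G) {C : Type}
include hG

/-- Building an element of a closed group class by class. -/
lemma Cel.build (hcl : Clsd G) {F : Finset ℕ} (hF : acl G F ⊆ F)
    (hbase : ∀ F' : Finset ℕ, F ⊆ F' → acl G F' ⊆ F' → ∀ (a : ℕ) (c : ℕ → C) (a' : ℕ)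
      (c' : ℕ → C), a ∉ F' → a' ∉ F' → PE G F a c a' c' → PE G F' a c a' c')
    {c c' : ℕ → C} (hcF : ∀ x ∈ F, c' x = c x) (b : ℕ → ℕ) (hb : ∀ n, n ∉ F → b n ∉ F)
    (hb1 : ∀ n m, n ∉ F → m ∉ F → (cls G n = cls G m ↔ cls G (b n) = cls G (b m)))
    (hb2 : ∀ y, y ∉ F → ∃ n, n ∉ F ∧ cls G (b n) = cls G y)
    (hbc : ∀ n, n ∉ F → PE G F n c (b n) c') :
    ∃ g ∈ G, ∀ x, c' (g x) = c x := by
  classical
  have h0 : ∀ {x : ℕ}, x ∉ F → x ∉ acl G ∅ :=
    fun hx h => hx (hF (acl_mono (Finset.empty_subset F) h))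
  -- invariants
  let Inv : ℕ → Equiv.Perm ℕ → Prop := fun n g => g ∈ Fx G F ∧
    ∀ k < n, k ∉ F → g '' cls G k = cls G (b k) ∧ ∀ x ∈ cls G k, c' (g x) = c x
  let Agr : ℕ → Equiv.Perm ℕ → Equiv.Perm ℕ → Prop := fun n g g' =>
    ∀ x, (x ∈ F ∨ ∃ k < n, k ∉ F ∧ x ∈ cls G k) → g' x = g x
  -- closed sets
  have hclo : ∀ n : ℕ, ∃ F' : Finset ℕ, F ⊆ F' ∧ acl G F' ⊆ F' ∧
      ∀ x, x ∈ F' ↔ x ∈ F ∨ ∃ k < n, k ∉ F ∧ x ∈ cls G (b k) := by
    intro n
    induction n with
    | zero => exact ⟨F, subset_rfl, hF, fun x => by simp⟩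
    | succ n ih =>
      obtain ⟨F', h1, h2, h3⟩ := ih
      by_cases hn : n ∈ F
      · refine ⟨F', h1, h2, fun x => ?_⟩
        rw [h3]
        constructor
        · rintro (h | ⟨k, hk, hkF, hx⟩)
          · exact Or.inl h
          · exact Or.inr ⟨k, by omega, hkF, hx⟩
        · rintro (h | ⟨k, hk, hkF, hx⟩)
          · exact Or.inl h
          · rcases Nat.lt_succ_iff_lt_or_eq.1 hk with hk | hk
            · exact Or.inr ⟨k, hk, hkF, hx⟩
            · subst hk; exact absurd hn hkF
      · by_cases hbn : b n ∈ F'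
        · refine ⟨F', h1, h2, fun x => ?_⟩
          rw [h3]
          constructor
          · rintro (h | ⟨k, hk, hkF, hx⟩)
            · exact Or.inl h
            · exact Or.inr ⟨k, by omega, hkF, hx⟩
          · rintro (h | ⟨k, hk, hkF, hx⟩)
            · exact Or.inl h
            · rcases Nat.lt_succ_iff_lt_or_eq.1 hk with hk | hk
              · exact Or.inr ⟨k, hk, hkF, hx⟩
              · subst hk
                rcases (h3 _).1 hbn with h | ⟨j, hj, hjF, hx'⟩
                · exact absurd h (hb k hn)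
                · refine Or.inr ⟨j, hj, hjF, ?_⟩
                  rw [← hG.cls_eq (h0 (hb j hjF)) hx']
                  exact hx
        · refine ⟨F' ∪ (hG.cls_finite (b n)).toFinset, h1.trans Finset.subset_union_left,
            hG.closed_union h2 hbn, fun x => ?_⟩
          rw [Finset.mem_union, h3, Set.Finite.mem_toFinset]
          constructor
          · rintro ((h | ⟨k, hk, hkF, hx⟩) | hx)
            · exact Or.inl h
            · exact Or.inr ⟨k, by omega, hkF, hx⟩
            · exact Or.inr ⟨n, by omega, hn, hx⟩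
          · rintro (h | ⟨k, hk, hkF, hx⟩)
            · exact Or.inl (Or.inl h)
            · rcases Nat.lt_succ_iff_lt_or_eq.1 hk with hk | hk
              · exact Or.inl (Or.inr ⟨k, hk, hkF, hx⟩)
              · subst hk; exact Or.inr hx
  have step : ∀ n g, Inv n g → ∃ g', Inv (n + 1) g' ∧ Agr n g g' := by
    rintro n g ⟨hg, hInv⟩
    by_cases hn : n ∈ F
    · refine ⟨g, ⟨hg, fun k hk hkF => ?_⟩, fun x _ => rfl⟩
      rcases Nat.lt_succ_iff_lt_or_eq.1 hk with hk | hk
      · exact hInv k hk hkF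
      · subst hk; exact absurd hn hkF
    by_cases hold : ∃ k < n, k ∉ F ∧ cls G k = cls G n
    · obtain ⟨k, hk, hkF, hkn⟩ := hold
      refine ⟨g, ⟨hg, fun j hj hjF => ?_⟩, fun x _ => rfl⟩
      rcases Nat.lt_succ_iff_lt_or_eq.1 hj with hj | hj
      · exact hInv j hj hjF
      · subst hj
        obtain ⟨e1, e2⟩ := hInv k hk hkF
        rw [← hkn, ← (hb1 k j hkF hjF).1 hkn]
        exact ⟨e1, e2⟩
    · push Not at hold
      obtain ⟨F', h1, h2, h3⟩ := hclo n
      have hbn : b n ∉ F' := by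
        intro h
        rcases (h3 _).1 h with h | ⟨k, hk, hkF, hx⟩
        · exact hb n hn h
        · apply hold k hk hkF
          rw [hb1 k n hkF hn]
          exact (hG.cls_eq (h0 (hb k hkF)) hx).symm
      have hgn : g n ∉ F' := by
        intro h
        rcases (h3 _).1 h with h | ⟨k, hk, hkF, hx⟩
        · have h4 := hg.2 _ h
          have h5 := g.injective h4
          rw [h5] at h
          exact hn h
        · rw [← (hInv k hk hkF).1] at hx
          obtain ⟨y, hy, hyn⟩ := hx
          have := g.injective hyn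
          subst this
          exact hold k hk hkF (hG.cls_eq (h0 hkF) hy).symm
      have hPE : PE G F (g n) (c ∘ g.symm) (b n) c' := (PE.move hg n c).symm.trans (hbc n hn)
      obtain ⟨h, hh, e1, e2⟩ := hbase F' h1 h2 _ _ _ _ hgn hbn hPE
      refine ⟨h * g, ⟨(Fx G F).mul_mem (Fx_anti h1 hh) hg, fun k hk hkF => ?_⟩, fun x hx => ?_⟩
      · rcases Nat.lt_succ_iff_lt_or_eq.1 hk with hk | hk
        · obtain ⟨f1, f2⟩ := hInv k hk hkF
          have f3 : ∀ x ∈ cls G k, h (g x) = g x := by
            intro x hx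
            apply hh.2
            rw [h3]
            exact Or.inr ⟨k, hk, hkF, by rw [← f1]; exact Set.mem_image_of_mem _ hx⟩
          constructor
          · rw [← f1]
            apply Set.image_congr
            intro x hx
            exact f3 x hx
          · intro x hx
            rw [Equiv.Perm.mul_apply, f3 x hx, f2 x hx]
        · subst hk
          have f1 : g '' cls G k = cls G (g k) := (cls_apply hg.1 k).symm
          constructor
          · rw [Equiv.Perm.coe_mul, Set.image_comp, f1, e1]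
          · intro x hx
            rw [Equiv.Perm.mul_apply, e2 (g x) (by rw [← f1]; exact Set.mem_image_of_mem _ hx)]
            simp
      · rw [Equiv.Perm.mul_apply]
        apply hh.2
        rw [h3]
        rcases hx with hx | ⟨k, hk, hkF, hx⟩
        · rw [hg.2 x hx]
          exact Or.inl hx
        · refine Or.inr ⟨k, hk, hkF, ?_⟩
          rw [← (hInv k hk hkF).1]
          exact Set.mem_image_of_mem _ hx
  choose! nx hnx1 hnx2 using step
  let s : ℕ → Equiv.Perm ℕ := fun n => Nat.rec 1 (fun n g => nx n g) n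
  have hs : ∀ n, Inv n (s n) := by
    intro n
    induction n with
    | zero => exact ⟨(Fx G F).one_mem, fun k hk => absurd hk (by omega)⟩
    | succ n ih => exact hnx1 n (s n) ih
  have hss : ∀ n, Agr n (s n) (s (n + 1)) := fun n => hnx2 n (s n) (hs n)
  -- stabilisation
  have hst : ∀ x k, (x ∈ F ∨ (k ∉ F ∧ x ∈ cls G k)) → ∀ m, k + 1 ≤ m → s m x = s (k + 1) x := by
    intro x k hx m hm
    induction m, hm using Nat.le_induction with
    | base => rfl
    | succ m hm ih =>
      rw [← ih]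
      apply hss m
      rcases hx with hx | ⟨hk, hx⟩
      · exact Or.inl hx
      · exact Or.inr ⟨k, by omega, hk, hx⟩
  have hself : ∀ x, x ∈ F ∨ (x ∉ F ∧ x ∈ cls G x) := by
    intro x
    by_cases h : x ∈ F
    · exact Or.inl h
    · exact Or.inr ⟨h, self_mem_cls (h0 h)⟩
  let gl : ℕ → ℕ := fun x => s (x + 1) x
  have hgl : ∀ x m, x + 1 ≤ m → s m x = gl x := fun x m hm => hst x x (hself x) m hm
  have hinj : Function.Injective gl := by
    intro x y hxy
    have e1 := hgl x (max x y + 1) (by have := le_max_left x y; omega)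
    have e2 := hgl y (max x y + 1) (by have := le_max_right x y; omega)
    rw [← e1, ← e2] at hxy
    exact (s (max x y + 1)).injective hxy
  have hsurj : Function.Surjective gl := by
    intro y
    by_cases hy : y ∈ F
    · exact ⟨y, (hs (y + 1)).1.2 y hy⟩
    · obtain ⟨n, hn, hny⟩ := hb2 y hy
      have h1 : y ∈ cls G (b n) := by
        rw [hny]
        exact self_mem_cls (h0 hy)
      rw [← ((hs (n + 1)).2 n (by omega) hn).1] at h1
      obtain ⟨x, hx, hxy⟩ := h1
      refine ⟨x, ?_⟩
      have e1 := hgl x (max x n + 1) (by have := le_max_left x n; omega)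
      have e2 := hst x n (Or.inr ⟨hn, hx⟩) (max x n + 1) (by have := le_max_right x n; omega)
      rw [← e1, e2, hxy]
  let g : Equiv.Perm ℕ := Equiv.ofBijective gl ⟨hinj, hsurj⟩
  have hg : g ∈ G := by
    apply hcl
    intro E
    refine ⟨s (E.sup id + 1), (hs (E.sup id + 1)).1.1, fun a ha => ?_⟩
    have : a ≤ E.sup id := Finset.le_sup (f := id) ha
    exact hgl a (E.sup id + 1) (by omega)
  refine ⟨g, hg, fun x => ?_⟩
  change c' (gl x) = c x
  by_cases hx : x ∈ F
  · have : gl x = x := (hs (x + 1)).1.2 x hx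
    rw [this, hcF x hx]
  · exact ((hs (x + 1)).2 x (by omega) hx).2 x (self_mem_cls (h0 hx))

/-- **Countably many orbits on colourings.** -/
theorem Cel.countable_colourings [Finite C] (hcl : Clsd G) :
    ∃ R : Set (ℕ → C), R.Countable ∧ ∀ c : ℕ → C, ∃ d ∈ R, ∃ g ∈ G, ∀ x, d (g x) = c x := by
  classical
  obtain ⟨F, hF, ⟨ι, _, a, e, ha, hinj, hall⟩, hbase⟩ := hG.exists_base (C := C)
  have h0 : ∀ {x : ℕ}, x ∉ F → x ∉ acl G ∅ :=
    fun hx h => hx (hF (acl_mono (Finset.empty_subset F) h))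
  -- the classes outside of F
  let 𝒬 : Type := {Q : Set ℕ // ∃ n, n ∉ F ∧ cls G n = Q}
  have hrep : ∀ Q : 𝒬, ∃ n, n ∉ F ∧ cls G n = Q.1 := fun Q => Q.2
  choose ρ hρ1 hρ2 using hrep
  have hcount : Countable 𝒬 := by
    apply Function.Injective.countable (f := ρ)
    intro Q Q' h
    apply Subtype.ext
    rw [← hρ2 Q, ← hρ2 Q', h]
  have htyp : ∀ (c : ℕ → C) (Q : 𝒬), ∃ i, PE G F (ρ Q) c (a i) (e i) :=
    fun c Q => hall _ _ (hρ1 Q)
  choose f hf using htyp
  let stat : (ℕ → C) → (F → C) × (ι → ℕ∞) :=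
    fun c => (fun x => c x, fun i => ENat.card {Q : 𝒬 // f c Q = i})
  have key : ∀ c c' : ℕ → C, stat c = stat c' → ∃ g ∈ G, ∀ x, c' (g x) = c x := by
    intro c c' hstat
    have hs1 : ∀ x ∈ F, c' x = c x := fun x hx =>
      (congrFun (congrArg Prod.fst hstat) ⟨x, hx⟩).symm
    have hs2 : ∀ i, Nonempty ({Q : 𝒬 // f c Q = i} ≃ {Q : 𝒬 // f c' Q = i}) := by
      intro i
      have h1 : ENat.card {Q : 𝒬 // f c Q = i} = ENat.card {Q : 𝒬 // f c' Q = i} :=
        congrFun (congrArg Prod.snd hstat) i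
      rcases finite_or_infinite {Q : 𝒬 // f c Q = i} with h | h
      · have h2 : Finite {Q : 𝒬 // f c' Q = i} := by
          by_contra h3
          rw [not_finite_iff_infinite] at h3
          rw [ENat.card_eq_top.2 h3] at h1
          exact h.not_infinite (ENat.card_eq_top.1 h1)
        rw [ENat.card_eq_coe_natCard, ENat.card_eq_coe_natCard] at h1
        exact Finite.card_eq.1 (by exact_mod_cast h1)
      · have h2 : Infinite {Q : 𝒬 // f c' Q = i} := by
          rw [← ENat.card_eq_top, ← h1, ENat.card_eq_top]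
          exact h
        obtain ⟨d1⟩ := nonempty_denumerable {Q : 𝒬 // f c Q = i}
        obtain ⟨d2⟩ := nonempty_denumerable {Q : 𝒬 // f c' Q = i}
        exact ⟨Denumerable.equiv₂ _ _⟩
    let E := fun i => (hs2 i).some
    let β : 𝒬 ≃ 𝒬 := (Equiv.sigmaFiberEquiv (f c)).symm.trans
      ((Equiv.sigmaCongrRight E).trans (Equiv.sigmaFiberEquiv (f c')))
    have hβ : ∀ Q, f c' (β Q) = f c Q := by
      intro Q
      exact (E (f c Q) ⟨Q, rfl⟩).2
    -- the map b
    let q : ∀ n, n ∉ F → 𝒬 := fun n hn => ⟨cls G n, n, hn, rfl⟩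
    let b : ℕ → ℕ := fun n => if hn : n ∉ F then ρ (β (q n hn)) else n
    have hbn : ∀ n (hn : n ∉ F), b n = ρ (β (q n hn)) := fun n hn => by simp only [b, dif_pos hn]
    apply hG.build hcl hF hbase hs1 b
    · intro n hn
      rw [hbn n hn]
      exact hρ1 _
    · intro n m hn hm
      rw [hbn n hn, hbn m hm, hρ2, hρ2]
      constructor
      · intro h
        have : q n hn = q m hm := Subtype.ext h
        rw [this]
      · intro h
        have h1 : β (q n hn) = β (q m hm) := Subtype.ext h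
        have h2 := β.injective h1
        exact congrArg Subtype.val h2
    · intro y hy
      obtain ⟨Q, hQ⟩ := β.surjective (q y hy)
      refine ⟨ρ Q, hρ1 Q, ?_⟩
      rw [hbn _ (hρ1 Q)]
      have : q (ρ Q) (hρ1 Q) = Q := Subtype.ext (hρ2 Q)
      rw [this, hQ, hρ2]
    · intro n hn
      rw [hbn n hn]
      have h1 := hf c (q n hn)
      have h2 := hf c' (β (q n hn))
      rw [hβ] at h2
      refine PE.trans ?_ (h1.trans h2.symm)
      exact PE.of_cls (hρ2 (q n hn)).symm
  -- choose one colouring for every value of stat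
  refine ⟨Set.range (fun v : Set.range stat => v.2.choose), ?_, ?_⟩
  · have : Countable (Set.range stat) := by
      have : Countable ((F → C) × (ι → ℕ∞)) := inferInstance
      infer_instance
    exact Set.countable_range _
  · intro c
    refine ⟨_, ⟨⟨stat c, c, rfl⟩, rfl⟩, ?_⟩
    apply key
    exact (Set.mem_range_self c).choose_spec.symm

end

/-- Module M5 of helper71's plan. -/
theorem countable_orbits_of_trivial (G : Subgroup (Equiv.Perm ℕ)) (hcl : Clsd G)
    (h1 : ∀ F : Finset ℕ, (acl G F).Finite)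
    (h2 : ∀ (F : Finset ℕ) (a : ℕ), a ∈ acl G F → a ∈ acl G ∅ ∨ ∃ b ∈ F, a ∈ acl G {b})
    (h3 : ∀ (F : Finset ℕ) (a b : ℕ), a ∉ acl G F → b ∉ acl G F → b ∈ orb G ∅ a →
      b ∈ orb G F a)
    (h4 : (Set.range (orb G ∅)).Finite) :
    ∃ R : Set (Set ℕ), R.Countable ∧ ∀ A : Set ℕ, ∃ B ∈ R, ∃ g ∈ G, g '' A = B := by
  have hG : Cel G := ⟨h1, h2, h3, h4⟩
  obtain ⟨R, hR, hR2⟩ := hG.countable_colourings (C := Bool) hcl
  classical
  refine ⟨(fun d : ℕ → Bool => {x | d x = true}) '' R, hR.image _, fun A => ?_⟩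
  obtain ⟨d, hd, g, hg, hgd⟩ := hR2 (fun x => decide (x ∈ A))
  refine ⟨_, ⟨d, hd, rfl⟩, g, hg, ?_⟩
  ext y
  constructor
  · rintro ⟨x, hx, rfl⟩
    simp only [Set.mem_ofPred_eq]
    rw [hgd x]
    simpa using hx
  · intro hy
    simp only [Set.mem_ofPred_eq] at hy
    refine ⟨g.symm y, ?_, by simp⟩
    have := hgd (g.symm y)
    rw [Equiv.apply_symm_apply, hy] at this
    simpa using this.symm

end Pool.Agent.H59.TV
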