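import Pool.Agent.H71.Tri

/-!
Closed groups with finite and trivial algebraic closure, transitive outside of closures, have
countably many orbits on colourings with finitely many colours.
-/

set_option autoImplicit false

open Set

namespace Pool.Agent.H59.TV

open Pool.Agent.H71

section
variable {G : Subgroup (Equiv.Perm ℕ)}

lemma orb_image [DecidableEq ℕ] {h : Equiv.Perm ℕ} (hh : h ∈ G) (F : Finset ℕ) (a : ℕ) :
    orb G (F.image h) (h a) = h '' orb G F a := by
  ext x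
  constructor
  · rintro ⟨g, hg, rfl⟩
    refine ⟨(h⁻¹ * g * h) a, ⟨h⁻¹ * g * h, ⟨?_, ?_⟩, rfl⟩, by simp⟩
    · exact G.mul_mem (G.mul_mem (G.inv_mem hh) hg.1) hh
    · intro c hc
      have := hg.2 (h c) (Finset.mem_image_of_mem _ hc)
      simp [this]
  · rintro ⟨_, ⟨g, hg, rfl⟩, rfl⟩
    refine ⟨h * g * h⁻¹, ⟨?_, ?_⟩, by simp⟩
    · exact G.mul_mem (G.mul_mem hh hg.1) (G.inv_mem hh)
    · intro c hc
      obtain ⟨b, hb, rfl⟩ := Finset.mem_image.1 hc
      simp [hg.2 b hb]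

lemma acl_image [DecidableEq ℕ] {h : Equiv.Perm ℕ} (hh : h ∈ G) (F : Finset ℕ) (a : ℕ) :
    h a ∈ acl G (F.image h) ↔ a ∈ acl G F := by
  change (orb G (F.image h) (h a)).Finite ↔ (orb G F a).Finite
  rw [orb_image hh]
  exact Set.finite_image_iff h.injective.injOn

lemma acl_singleton_apply {h : Equiv.Perm ℕ} (hh : h ∈ G) (a b : ℕ) :
    h b ∈ acl G {h a} ↔ b ∈ acl G {a} := by
  have := acl_image hh {a} b
  rwa [Finset.image_singleton] at this

lemma acl_empty_apply {h : Equiv.Perm ℕ} (hh : h ∈ G) (b : ℕ) :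
    h b ∈ acl G ∅ ↔ b ∈ acl G ∅ := by
  have := acl_image hh ∅ b
  rwa [Finset.image_empty] at this

/-- The class of a point. -/
def cls (G : Subgroup (Equiv.Perm ℕ)) (a : ℕ) : Set ℕ := acl G {a} \ acl G ∅

lemma self_mem_cls {a : ℕ} (ha : a ∉ acl G ∅) : a ∈ cls G a :=
  ⟨subset_acl G {a} (by simp), ha⟩

lemma cls_apply {h : Equiv.Perm ℕ} (hh : h ∈ G) (a : ℕ) : cls G (h a) = h '' cls G a := by
  ext x
  constructor
  · rintro ⟨h1, h2⟩
    refine ⟨h⁻¹ x, ⟨?_, ?_⟩, by simp⟩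
    · rw [← acl_singleton_apply hh]
      simpa using h1
    · rw [← acl_empty_apply hh]
      simpa using h2
  · rintro ⟨y, ⟨h1, h2⟩, rfl⟩
    exact ⟨(acl_singleton_apply hh a y).2 h1, fun h3 => h2 ((acl_empty_apply hh y).1 h3)⟩

end

/-- The hypotheses. -/
structure Cel (G : Subgroup (Equiv.Perm ℕ)) : Prop where
  h1 : ∀ F : Finset ℕ, (acl G F).Finite
  h2 : ∀ (F : Finset ℕ) (a : ℕ), a ∈ acl G F → a ∈ acl G ∅ ∨ ∃ b ∈ F, a ∈ acl G {b}
  h3 : ∀ (F : Finset ℕ) (a b : ℕ), a ∉ acl G F → b ∉ acl G F → b ∈ orb G ∅ a → b ∈ orb G F a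
  h4 : (Set.range (orb G ∅)).Finite

section
variable {G : Subgroup (Equiv.Perm ℕ)} (hG : Cel G)
include hG

lemma Cel.exchange {a b : ℕ} (hb : b ∈ cls G a) (ha : a ∉ acl G ∅) : a ∈ acl G {b} := by
  classical
  by_contra hab
  obtain ⟨hba, hb0⟩ := hb
  have hfin : (orb G {a} b).Finite := hba
  -- `m + 1` points in the orbit of `b`
  have hinf : (orb G ∅ b).Infinite := hb0
  obtain ⟨T, hT, hTc⟩ := hinf.exists_subset_card_eq (hfin.toFinset.card + 1)
  -- for every point of T, cofinitely many x in the orbit of a have (x, b') like (a, b)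
  have hcof : ∀ b' ∈ T, ∃ B : Set ℕ, B.Finite ∧ ∀ x ∈ orb G ∅ a, x ∉ B →
      ∃ g ∈ G, g a = x ∧ g b = b' := by
    intro b' hb'
    obtain ⟨g, hg, hgb⟩ := hT hb'
    refine ⟨acl G {b'}, hG.h1 _, ?_⟩
    intro x hx hxB
    -- x = k a, want: g⁻¹ x in orbit of a over b
    have h1 : g⁻¹ x ∉ acl G {b} := by
      intro h
      apply hxB
      rw [← hgb]
      have := (acl_singleton_apply hg.1 b (g⁻¹ x)).2 h
      simpa using this
    have h2 : g⁻¹ x ∈ orb G ∅ a := orb_trans hx ⟨g⁻¹, (Fx G ∅).inv_mem hg, rfl⟩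
    obtain ⟨k, hk, hka⟩ := hG.h3 {b} a (g⁻¹ x) hab h1 h2
    refine ⟨g * k, G.mul_mem hg.1 hk.1, ?_, ?_⟩
    · simp [hka]
    · have : k b = b := hk.2 b (by simp)
      simp [this, hgb]
  choose! B hB1 hB2 using hcof
  have hUfin : (⋃ b' ∈ (T : Set ℕ), B b').Finite := T.finite_toSet.biUnion (fun b' hb' => hB1 b' hb')
  have hainf : (orb G ∅ a).Infinite := ha
  obtain ⟨x, hx, hxU⟩ := (hainf.sdiff hUfin).nonempty
  have hxT : ∀ b' ∈ T, ∃ g ∈ G, g a = x ∧ g b = b' := by
    intro b' hb'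
    apply hB2 b' hb' x hx
    intro h
    exact hxU (Set.mem_biUnion (Finset.mem_coe.2 hb') h)
  choose! g hg1 hg2 hg3 using hxT
  have hTne : T.Nonempty := by
    rw [← Finset.card_pos, hTc]; omega
  obtain ⟨b₀, hb₀⟩ := hTne
  have hinj : Set.InjOn (fun b' => (g b₀)⁻¹ b') (T : Set ℕ) :=
    fun _ _ _ _ h => (g b₀)⁻¹.injective h
  have hmaps : ∀ b' ∈ T, (g b₀)⁻¹ b' ∈ hfin.toFinset := by
    intro b' hb'
    rw [Set.Finite.mem_toFinset]
    refine ⟨(g b₀)⁻¹ * g b', ⟨G.mul_mem (G.inv_mem (hg1 b₀ hb₀)) (hg1 b' hb'), ?_⟩, ?_⟩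
    · intro c hc
      rw [Finset.mem_singleton] at hc
      subst hc
      rw [Equiv.Perm.mul_apply, hg2 b' hb', Equiv.Perm.inv_eq_iff_eq, hg2 b₀ hb₀]
    · rw [Equiv.Perm.mul_apply, hg3 b' hb']
  have := Finset.card_le_card_of_injOn _ hmaps hinj
  omega

lemma Cel.cls_eq {a b : ℕ} (ha : a ∉ acl G ∅) (hb : b ∈ cls G a) : cls G b = cls G a := by
  have hab := hG.exchange hb ha
  have s1 : acl G {b} ⊆ acl G {a} := acl_subset_acl (by
    intro x hx
    simp only [Finset.coe_singleton, mem_singleton_iff] at hx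
    subst hx
    exact hb.1)
  have s2 : acl G {a} ⊆ acl G {b} := acl_subset_acl (by
    intro x hx
    simp only [Finset.coe_singleton, mem_singleton_iff] at hx
    subst hx
    exact hab)
  unfold cls
  rw [Set.Subset.antisymm s1 s2]

lemma Cel.cls_finite (a : ℕ) : (cls G a).Finite := (hG.h1 {a}).subset Set.sdiff_subset

/-- closed finite sets -/
lemma Cel.cls_disjoint {F : Finset ℕ} (hF : acl G F ⊆ F) {a : ℕ} (ha : a ∉ F) :
    Disjoint (cls G a) F := by
  rw [Set.disjoint_left]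
  intro b hb hbF
  have ha0 : a ∉ acl G ∅ := fun h => ha (hF (acl_mono (Finset.empty_subset F) h))
  apply ha
  apply hF
  have h1 : a ∈ acl G {b} := hG.exchange hb ha0
  exact acl_mono (Finset.singleton_subset_iff.2 hbF) h1

lemma Cel.closed_union {F : Finset ℕ} (hF : acl G F ⊆ F) {a : ℕ} (ha : a ∉ F) :
    acl G (F ∪ (hG.cls_finite a).toFinset) ⊆ ((F ∪ (hG.cls_finite a).toFinset : Finset ℕ) : Set ℕ) := by
  have ha0 : a ∉ acl G ∅ := fun h => ha (hF (acl_mono (Finset.empty_subset F) h))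
  intro x hx
  rw [Finset.coe_union, Set.Finite.coe_toFinset]
  by_cases hx0 : x ∈ acl G ∅
  · exact Or.inl (hF (acl_mono (Finset.empty_subset F) hx0))
  rcases hG.h2 _ x hx with h | ⟨b, hb, hxb⟩
  · exact absurd h hx0
  · rw [Finset.mem_union, Set.Finite.mem_toFinset] at hb
    rcases hb with hb | hb
    · left
      exact hF (acl_mono (Finset.singleton_subset_iff.2 hb) hxb)
    · right
      rw [← hG.cls_eq ha0 hb]
      exact ⟨hxb, hx0⟩

lemma Cel.exists_closed (F : Finset ℕ) : ∃ F' : Finset ℕ, F ⊆ F' ∧ acl G F' ⊆ F' := by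
  refine ⟨(hG.h1 F).toFinset, ?_, ?_⟩
  · intro x hx
    rw [Set.Finite.mem_toFinset]
    exact subset_acl G F hx
  · rw [Set.Finite.coe_toFinset]
    exact acl_subset_acl (by rw [Set.Finite.coe_toFinset])

/-! ### Equivalence of coloured classes -/

variable {C : Type}

omit hG in
/-- The coloured classes of `a` and `a'` are conjugate over `F`. -/
def PE (G : Subgroup (Equiv.Perm ℕ)) (F : Finset ℕ) (a : ℕ) (c : ℕ → C) (a' : ℕ)
    (c' : ℕ → C) : Prop :=
  ∃ h ∈ Fx G F, h '' cls G a = cls G a' ∧ ∀ x ∈ cls G a, c' (h x) = c x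

omit hG in
lemma PE.refl (F : Finset ℕ) (a : ℕ) (c : ℕ → C) : PE G F a c a c :=
  ⟨1, (Fx G F).one_mem, by simp, fun _ _ => rfl⟩

omit hG in
lemma PE.symm {F : Finset ℕ} {a a' : ℕ} {c c' : ℕ → C} (h : PE G F a c a' c') :
    PE G F a' c' a c := by
  obtain ⟨g, hg, h1, h2⟩ := h
  refine ⟨g⁻¹, (Fx G F).inv_mem hg, ?_, ?_⟩
  · rw [← h1, ← Set.image_comp]
    convert Set.image_id _
    ext x
    simp
  · intro x hx
    rw [← h1] at hx
    obtain ⟨y, hy, rfl⟩ := hx
    simp [h2 y hy]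

omit hG in
lemma PE.trans {F : Finset ℕ} {a a' a'' : ℕ} {c c' c'' : ℕ → C} (h : PE G F a c a' c')
    (h' : PE G F a' c' a'' c'') : PE G F a c a'' c'' := by
  obtain ⟨g, hg, h1, h2⟩ := h
  obtain ⟨g', hg', h1', h2'⟩ := h'
  refine ⟨g' * g, (Fx G F).mul_mem hg' hg, ?_, ?_⟩
  · rw [← h1', ← h1, ← Set.image_comp]
    rfl
  · intro x hx
    rw [Equiv.Perm.mul_apply, h2' (g x) (by rw [← h1]; exact Set.mem_image_of_mem _ hx), h2 x hx]

omit hG in
lemma PE.anti {F F' : Finset ℕ} (hF : F ⊆ F') {a a' : ℕ} {c c' : ℕ → C} (h : PE G F' a c a' c') :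
    PE G F a c a' c' := by
  obtain ⟨g, hg, h1, h2⟩ := h
  exact ⟨g, Fx_anti hF hg, h1, h2⟩

omit hG in
lemma PE.of_cls {F : Finset ℕ} {a a' : ℕ} {c : ℕ → C} (h : cls G a = cls G a') :
    PE G F a c a' c :=
  ⟨1, (Fx G F).one_mem, by simp [h], fun _ _ => rfl⟩

omit hG in
lemma PE.move {F : Finset ℕ} {g : Equiv.Perm ℕ} (hg : g ∈ Fx G F) (a : ℕ) (c : ℕ → C) :
    PE G F a c (g a) (c ∘ g.symm) :=
  ⟨g, hg, (cls_apply hg.1 a).symm, fun x _ => by simp⟩

omit hG in
/-- A family of pairwise inequivalent coloured classes outside of `F`. -/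
def Fam (G : Subgroup (Equiv.Perm ℕ)) (C : Type) (F : Finset ℕ) (n : ℕ) : Prop :=
  acl G F ⊆ F ∧ ∃ (ι : Type) (_ : Fintype ι) (a : ι → ℕ) (c : ι → ℕ → C), Fintype.card ι = n ∧
    (∀ i, a i ∉ F) ∧ ∀ i j, PE G F (a i) (c i) (a j) (c j) → i = j

/-- The size of families is bounded. -/
lemma Cel.fam_bound [Finite C] : ∃ B : ℕ, ∀ F n, Fam G C F n → n ≤ B := by
  classical
  -- global representatives of the orbits
  have hrep : ∀ O : Set.range (orb G ∅), ∃ r : ℕ, orb G ∅ r = O.1 := fun O => O.2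
  choose ρ hρ using hrep
  have : Finite (Set.range (orb G ∅)) := hG.h4
  have : ∀ O : Set.range (orb G ∅), Finite (cls G (ρ O)) := fun O => hG.cls_finite _
  let T := Σ O : Set.range (orb G ∅), (cls G (ρ O) → C)
  have : Finite T := inferInstance
  refine ⟨Nat.card T, ?_⟩
  rintro F n ⟨hF, ι, _, a, c, hn, ha, hinj⟩
  -- local representatives
  have hloc : ∀ i : ι, ∃ k ∈ G, k (ρ ⟨orb G ∅ (a i), a i, rfl⟩) ∉ F ∧
      ∀ j : ι, orb G ∅ (a j) = orb G ∅ (a i) → True := by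
    intro i
    have h0 : a i ∉ acl G ∅ := fun h => ha i (hF (acl_mono (Finset.empty_subset F) h))
    have h1 : (orb G ∅ (ρ ⟨orb G ∅ (a i), a i, rfl⟩)).Infinite := by
      rw [hρ]
      exact h0
    obtain ⟨x, hx, hxF⟩ := (h1.sdiff F.finite_toSet).nonempty
    obtain ⟨k, hk, rfl⟩ := hx
    exact ⟨k, hk.1, fun h => hxF h, fun _ _ => trivial⟩
  -- the representative depends only on the orbit
  have hloc' : ∀ O : Set.range (orb G ∅), ∃ k : Equiv.Perm ℕ,
      (∃ i, orb G ∅ (a i) = O.1) → k ∈ G ∧ k (ρ O) ∉ F := by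
    intro O
    by_cases h : ∃ i, orb G ∅ (a i) = O.1
    · obtain ⟨i, hi⟩ := h
      obtain ⟨k, hk, hk2, -⟩ := hloc i
      refine ⟨k, fun _ => ⟨hk, ?_⟩⟩
      have : (⟨orb G ∅ (a i), a i, rfl⟩ : Set.range (orb G ∅)) = O := Subtype.ext hi
      rw [← this]
      exact hk2
    · exact ⟨1, fun h' => absurd h' h⟩
  choose k hk using hloc'
  let O : ι → Set.range (orb G ∅) := fun i => ⟨orb G ∅ (a i), a i, rfl⟩
  have hmv : ∀ i, ∃ h ∈ Fx G F, h (a i) = k (O i) (ρ (O i)) := by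
    intro i
    obtain ⟨hk1, hk2⟩ := hk (O i) ⟨i, rfl⟩
    apply hG.h3 F (a i)
    · exact fun h => ha i (hF h)
    · exact fun h => hk2 (hF h)
    · have h1 : ρ (O i) ∈ orb G ∅ (a i) := by
        have h2 := self_mem_orb G ∅ (ρ (O i))
        rw [hρ] at h2
        exact h2
      exact orb_trans h1 ⟨k (O i), ⟨hk1, by simp⟩, rfl⟩
  choose h hh1 hh2 using hmv
  let Φ : ι → T := fun i => ⟨O i, fun x => c i ((h i).symm (k (O i) x))⟩
  have hΦ : Function.Injective Φ := by
    intro i j hij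
    apply hinj
    have hO : O i = O j := congrArg Sigma.fst hij
    -- compare the two second components
    have hc : ∀ x ∈ cls G (ρ (O i)), c i ((h i).symm (k (O i) x)) = c j ((h j).symm (k (O i) x)) := by
      have aux : ∀ (P : Set.range (orb G ∅)) (u : cls G (ρ P) → C) (Q : Set.range (orb G ∅))
          (v : cls G (ρ Q) → C), (⟨P, u⟩ : T) = ⟨Q, v⟩ → ∀ (x : ℕ) (hx : x ∈ cls G (ρ P))
          (hx' : x ∈ cls G (ρ Q)), u ⟨x, hx⟩ = v ⟨x, hx'⟩ := by
        intro P u Q v e x hx hx'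
        cases e
        rfl
      intro x hx
      have hx' : x ∈ cls G (ρ (O j)) := by rw [← hO]; exact hx
      have := aux _ _ _ _ hij x hx hx'
      simp only at this
      rw [this, hO]
    have e1 : h i '' cls G (a i) = cls G (k (O i) (ρ (O i))) := by
      rw [← cls_apply (hh1 i).1, hh2 i]
    have e2 : h j '' cls G (a j) = cls G (k (O i) (ρ (O i))) := by
      rw [← cls_apply (hh1 j).1, hh2 j, hO]
    have hkG := (hk (O i) ⟨i, rfl⟩).1
    refine ⟨(h j)⁻¹ * h i, (Fx G F).mul_mem ((Fx G F).inv_mem (hh1 j)) (hh1 i), ?_, ?_⟩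
    · rw [Equiv.Perm.coe_mul, Set.image_comp, e1, ← e2, ← Set.image_comp]
      convert Set.image_id _
      ext x
      simp
    · intro x hx
      have hx1 : h i x ∈ cls G (k (O i) (ρ (O i))) := by
        rw [← e1]; exact Set.mem_image_of_mem _ hx
      rw [cls_apply hkG] at hx1
      obtain ⟨y, hy, hyx⟩ := hx1
      have := hc y hy
      rw [hyx] at this
      rw [Equiv.Perm.mul_apply]
      simp only [Equiv.symm_apply_apply] at this
      exact this.symm
  have := Nat.card_le_card_of_injective Φ hΦ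
  rw [Nat.card_eq_fintype_card, hn] at this
  exact this

omit hG in
lemma exists_moved {F F' : Finset ℕ} (hF : acl G F ⊆ F) {a : ℕ} (ha : a ∉ F) (c : ℕ → C) :
    ∃ a' c', a' ∉ F' ∧ PE G F a c a' c' := by
  have h1 : (orb G F a).Infinite := fun h => ha (hF h)
  obtain ⟨x, hx, hxF⟩ := (h1.sdiff F'.finite_toSet).nonempty
  obtain ⟨g, hg, rfl⟩ := hx
  exact ⟨g a, c ∘ g.symm, fun h => hxF h, PE.move hg a c⟩

/-- The stable base. -/
lemma Cel.exists_base [Finite C] : ∃ F : Finset ℕ, acl G F ⊆ F ∧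
    (∃ (ι : Type) (_ : Fintype ι) (a : ι → ℕ) (c : ι → ℕ → C), (∀ i, a i ∉ F) ∧
      (∀ i j, PE G F (a i) (c i) (a j) (c j) → i = j) ∧
      ∀ (b : ℕ) (d : ℕ → C), b ∉ F → ∃ i, PE G F b d (a i) (c i)) ∧
    ∀ F' : Finset ℕ, F ⊆ F' → acl G F' ⊆ F' → ∀ (a : ℕ) (c : ℕ → C) (a' : ℕ) (c' : ℕ → C),
      a ∉ F' → a' ∉ F' → PE G F a c a' c' → PE G F' a c a' c' := by
  classical
  obtain ⟨B, hB⟩ := hG.fam_bound (C := C)
  obtain ⟨F₀, -, hF₀⟩ := hG.exists_closed ∅
  have hex : ∃ n, (∃ F, Fam G C F n) ∧ ∀ F, ¬ Fam G C F (n + 1) := by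
    by_contra hcon
    push Not at hcon
    have : ∀ n, ∃ F, Fam G C F n := by
      intro n
      induction n with
      | zero =>
        exact ⟨F₀, hF₀, Empty, inferInstance, Empty.elim, Empty.elim, rfl, fun i => i.elim,
          fun i => i.elim⟩
      | succ n ih => exact hcon n ih
    obtain ⟨F, hF⟩ := this (B + 1)
    have := hB F (B + 1) hF
    omega
  obtain ⟨n, ⟨F, hF, ι, _, a, c, hn, ha, hinj⟩, hmax⟩ := hex
  have hall : ∀ (b : ℕ) (d : ℕ → C), b ∉ F → ∃ i, PE G F b d (a i) (c i) := by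
    intro b d hb
    by_contra hcon
    push Not at hcon
    apply hmax F
    refine ⟨hF, Option ι, inferInstance, fun o => o.elim b a, fun o => o.elim d c, ?_, ?_, ?_⟩
    · rw [Fintype.card_option, hn]
    · rintro (_ | i)
      · exact hb
      · exact ha i
    · rintro (_ | i) (_ | j) hij
      · rfl
      · exact absurd hij (hcon j)
      · exact absurd hij.symm (hcon i)
      · rw [hinj i j hij]
  refine ⟨F, hF, ⟨ι, inferInstance, a, c, ha, hinj, hall⟩, ?_⟩
  intro F' hFF' hF' b d b' d' hb hb' hPE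
  by_contra hno
  obtain ⟨i₀, hi₀⟩ := hall b d (fun h => hb (hFF' h))
  apply hmax F'
  have hmv : ∀ i, ∃ a' c', a' ∉ F' ∧ PE G F (a i) (c i) a' c' :=
    fun i => exists_moved hF (ha i) (c i)
  choose a' c' ha' hac' using hmv
  let A : Option ι → ℕ := fun o => o.elim b' (fun i => if i = i₀ then b else a' i)
  let D : Option ι → ℕ → C := fun o => o.elim d' (fun i => if i = i₀ then d else c' i)
  -- every member is equivalent over F to the corresponding member of the old family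
  have hA : ∀ i, PE G F (A (some i)) (D (some i)) (a i) (c i) := by
    intro i
    by_cases h : i = i₀
    · subst h
      simpa [A, D] using hi₀
    · simpa [A, D, h] using (hac' i).symm
  have hN : PE G F (A none) (D none) (a i₀) (c i₀) := hPE.symm.trans hi₀
  refine ⟨hF', Option ι, inferInstance, A, D, ?_, ?_, ?_⟩
  · rw [Fintype.card_option, hn]
  · rintro (_ | i)
    · exact hb'
    · by_cases h : i = i₀
      · simpa [A, h] using hb
      · simpa [A, h] using ha' i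
  · rintro (_ | i) (_ | j) hij
    · rfl
    · exfalso
      have h1 : PE G F (a i₀) (c i₀) (a j) (c j) := (hN.symm.trans (hij.anti hFF')).trans (hA j)
      have h2 := hinj _ _ h1
      subst h2
      apply hno
      have : PE G F' b' d' b d := by simpa [A, D] using hij
      exact this.symm
    · exfalso
      have h1 : PE G F (a i) (c i) (a i₀) (c i₀) := ((hA i).symm.trans (hij.anti hFF')).trans hN
      have h2 := hinj _ _ h1
      subst h2
      apply hno
      simpa [A, D] using hij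
    · have h1 : PE G F (a i) (c i) (a j) (c j) := ((hA i).symm.trans (hij.anti hFF')).trans (hA j)
      rw [hinj _ _ h1]

end

end Pool.Agent.H59.TV
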