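import Pool.Agent.H71.PermTop
import Pool.Agent.H71.Tri
import Pool.Agent.H71.Inst

/-!
# Coding by permutations: groups with infinitely many orbits
-/

set_option autoImplicit false

open Set Filter Topology Pool.Agent.H71

namespace Pool.Agent.H59.TV

attribute [local instance] permTop polishSpace_perm isTopologicalGroup_perm permMeas
  borelSpace_perm

/-- gluing bijections between fibres -/
lemma glue {α β ι : Type*} [Countable α] [Countable β] (c : α → ι) (c' : β → ι)
    (h : ∀ i, Infinite {x // c x = i}) (h' : ∀ i, Infinite {y // c' y = i}) :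
    ∃ e : α ≃ β, ∀ x, c' (e x) = c x := by
  have key : ∀ i, Nonempty ({x // c x = i} ≃ {y // c' y = i}) := fun i => by
    have := h i
    have := h' i
    have h1 : Nonempty (Denumerable {x // c x = i}) := nonempty_denumerable _
    have h2 : Nonempty (Denumerable {y // c' y = i}) := nonempty_denumerable _
    exact ⟨(@Denumerable.equiv₂ _ _ h1.some h2.some)⟩
  let E := fun i => (key i).some
  refine ⟨((Equiv.sigmaFiberEquiv c).symm.trans (Equiv.sigmaCongrRight E)).trans
    (Equiv.sigmaFiberEquiv c'), fun x => ?_⟩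
  show c' (E (c x) ⟨x, rfl⟩).1 = c x
  exact (E (c x) ⟨x, rfl⟩).2

/-- the group of the permutations preserving a colouring -/
def Kc (col : ℕ → ℕ) : Subgroup (Equiv.Perm ℕ) where
  carrier := {k | ∀ n, col (k n) = col n}
  mul_mem' := by
    intro a b ha hb n
    rw [Equiv.Perm.mul_apply, ha, hb]
  one_mem' := fun _ => rfl
  inv_mem' := by
    intro a ha n
    rw [← ha (a⁻¹ n)]
    congr 1
    exact (Equiv.apply_symm_apply a n)

lemma mem_Kc {col : ℕ → ℕ} {k : Equiv.Perm ℕ} : k ∈ Kc col ↔ ∀ n, col (k n) = col n := Iff.rfl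

lemma isClosed_Kc (col : ℕ → ℕ) : IsClosed (Kc col : Set (Equiv.Perm ℕ)) := by
  have : (Kc col : Set (Equiv.Perm ℕ)) = ⋂ n, {k | col (k n) = col n} := by
    ext k
    simp only [SetLike.mem_coe, mem_Kc, mem_iInter, mem_ofPred_eq]
  rw [this]
  refine isClosed_iInter fun n => ?_
  exact isClosed_eq (continuous_of_discreteTopology.comp (continuous_perm_apply n))
    continuous_const

/-- a code: the double cosets `Kc col * f T * H` are different for different `T` -/
def Codes (col : ℕ → ℕ) (H : Set (Equiv.Perm ℕ)) (f : (ℕ → Bool) → Equiv.Perm ℕ) : Prop :=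
  Measurable f ∧ ∀ T T', T ≠ T' → ∀ k ∈ Kc col, (f T')⁻¹ * k * f T ∉ H

lemma codes_of {col : ℕ → ℕ} {H : Subgroup (Equiv.Perm ℕ)} {I : Type*} (β₀ β : I ≃ ℕ)
    (s : (ℕ → Bool) → Equiv.Perm I)
    (hs : ∀ x y, MeasurableSet {T | s T x = y})
    (h : ∀ T T' i, T i = false → T' i = true → ∀ k ∈ Kc col, ∀ g ∈ H,
      (∀ x, k (β (s T x)) = β (s T' (β₀.symm (g (β₀ x))))) → False) :
    ∃ f, Codes col H f := by
  refine ⟨fun T => (β₀.symm.trans (s T)).trans β, ?_, ?_⟩
  · apply measurable_to_perm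
    intro a b
    have : {T | ((β₀.symm.trans (s T)).trans β) a = b} =
        {T | s T (β₀.symm a) = β.symm b} := by
      ext T
      simp only [mem_ofPred_eq, Equiv.trans_apply]
      exact β.eq_symm_apply.symm
    rw [this]
    exact hs _ _
  · have key : ∀ T T' i, T i = false → T' i = true → ∀ k ∈ Kc col,
        ((β₀.symm.trans (s T')).trans β)⁻¹ * k * ((β₀.symm.trans (s T)).trans β) ∉ H := by
      intro T T' i hi hi' k hk hg
      refine h T T' i hi hi' k hk _ hg fun x => ?_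
      simp only [Equiv.Perm.mul_apply, Equiv.trans_apply, Equiv.symm_apply_apply]
      have e1 : ∀ w, ((β₀.symm.trans (s T')).trans β)⁻¹ w = β₀ ((s T').symm (β.symm w)) := by
        intro w
        rfl
      rw [e1]
      simp
    intro T T' hne k hk hmem
    obtain ⟨i, hi⟩ := Function.ne_iff.1 hne
    rcases Bool.eq_false_or_eq_true (T i) with h1 | h1 <;>
      rcases Bool.eq_false_or_eq_true (T' i) with h2 | h2
    · exact hi (h1.trans h2.symm)
    · refine key T' T i h2 h1 k⁻¹ ((Kc col).inv_mem hk) ?_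
      have := H.inv_mem hmem
      simpa [mul_inv_rev, mul_assoc] using this
    · exact key T T' i h1 h2 k hk hmem
    · exact hi (h1.trans h2.symm)

/-- swaps for the moiety code -/
def sA (T : ℕ → Bool) : Equiv.Perm ((ℕ × Bool) ⊕ ℕ) :=
  Function.Involutive.toPerm (fun x => match x with
    | Sum.inl (i, b) => Sum.inl (i, xor b (T i))
    | Sum.inr m => Sum.inr m) (by
      rintro (⟨i, b⟩ | m)
      · simp
      · rfl)

@[simp] lemma sA_inl (T : ℕ → Bool) (i : ℕ) (b : Bool) :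
    sA T (Sum.inl (i, b)) = Sum.inl (i, xor b (T i)) := rfl

@[simp] lemma sA_inr (T : ℕ → Bool) (m : ℕ) : sA T (Sum.inr m) = Sum.inr m := rfl

lemma sA_meas (x y : (ℕ × Bool) ⊕ ℕ) : MeasurableSet {T | sA T x = y} := by
  rcases x with ⟨i, b⟩ | m
  · have h1 : {T : ℕ → Bool | sA T (Sum.inl (i, b)) = y} =
        (fun T : ℕ → Bool => T i) ⁻¹' {t | Sum.inl (i, xor b t) = y} := rfl
    rw [h1]
    exact measurable_pi_apply i (Set.to_countable _).measurableSet
  · have h1 : {T : ℕ → Bool | sA T (Sum.inr m) = y} = {T | Sum.inr m = y} := rfl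
    rw [h1]
    exact MeasurableSet.const _

lemma infinite_fiber_of_inj {α ι : Type*} {c : α → ι} {i : ι} (f : ℕ → α)
    (hf : Function.Injective f) (h : ∀ n, c (f n) = i) : Infinite {x // c x = i} :=
  Infinite.of_injective (fun n => (⟨f n, h n⟩ : {x // c x = i})) fun _ _ hab =>
    hf (Subtype.ext_iff.1 hab)

theorem code_moiety {col : ℕ → ℕ} (hcol : Function.Surjective col)
    {H : Subgroup (Equiv.Perm ℕ)} {A : Set ℕ} (hA : A.Infinite) (hA' : Aᶜ.Infinite)
    (hinv : ∀ h ∈ H, ∀ a, h a ∈ A ↔ a ∈ A) : ∃ f, Codes col H f := by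
  classical
  choose rep hrep using hcol
  have hrepinj : Function.Injective rep := fun a b hab => by rw [← hrep a, ← hrep b, hab]
  -- description of `A`
  obtain ⟨β₀, hβ₀⟩ := glue (α := (ℕ × Bool) ⊕ ℕ) (β := ℕ)
    (fun x => match x with
      | Sum.inl (_, b) => !b
      | Sum.inr _ => false) (fun n => decide (n ∈ A)) (by
    rintro (_ | _)
    · exact infinite_fiber_of_inj (fun n => Sum.inr n) (fun a b h => Sum.inr_injective h)
        fun n => rfl
    · exact infinite_fiber_of_inj (fun n => Sum.inl (n, false))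
        (fun a b h => (Prod.ext_iff.1 (Sum.inl_injective h)).1) fun n => rfl) (by
    rintro (_ | _)
    · have : Infinite {y // y ∈ Aᶜ} := hA'.to_subtype
      exact Infinite.of_injective (fun y : {y // y ∈ Aᶜ} =>
        (⟨y.1, decide_eq_false y.2⟩ : {y // decide (y ∈ A) = false})) fun a b hab =>
          Subtype.ext (congrArg (fun z => z.1) hab)
    · have : Infinite {y // y ∈ A} := hA.to_subtype
      exact Infinite.of_injective (fun y : {y // y ∈ A} =>
        (⟨y.1, decide_eq_true y.2⟩ : {y // decide (y ∈ A) = true})) fun a b hab =>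
          Subtype.ext (congrArg (fun z => z.1) hab))
  -- target
  obtain ⟨β, hβ⟩ := glue (α := (ℕ × Bool) ⊕ ℕ) (β := ℕ)
    (fun x => x.isLeft) (fun n => decide (∃ c, n = rep (2 * c))) (by
    rintro (_ | _)
    · exact infinite_fiber_of_inj (fun n => Sum.inr n) (fun a b h => Sum.inr_injective h)
        fun n => rfl
    · exact infinite_fiber_of_inj (fun n => Sum.inl (n, false))
        (fun a b h => (Prod.ext_iff.1 (Sum.inl_injective h)).1) fun n => rfl) (by
    rintro (_ | _)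
    · refine infinite_fiber_of_inj (fun n => rep (2 * n + 1)) (fun a b h => ?_) fun n => ?_
      · have := hrepinj h
        omega
      · rw [decide_eq_false_iff_not]
        rintro ⟨c, hc⟩
        have := hrepinj hc
        omega
    · refine infinite_fiber_of_inj (fun n => rep (2 * n)) (fun a b h => ?_) fun n => ?_
      · have := hrepinj h
        omega
      · rw [decide_eq_true_iff]
        exact ⟨n, rfl⟩)
  have hβinl : ∀ i b, ∃ c, β (Sum.inl (i, b)) = rep (2 * c) := by
    intro i b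
    have := hβ (Sum.inl (i, b))
    simpa using this
  refine codes_of β₀ β sA sA_meas ?_
  intro T T' i hi hi' k hk g hg hx
  -- the point `(i, false)` lies in `A`
  have hA1 : β₀ (Sum.inl (i, false)) ∈ A := by
    have := hβ₀ (Sum.inl (i, false))
    simpa using this
  have hA2 : g (β₀ (Sum.inl (i, false))) ∈ A := (hinv g hg _).2 hA1
  -- its image has an index `(i', false)`
  obtain ⟨i', hi'2⟩ : ∃ i', β₀.symm (g (β₀ (Sum.inl (i, false)))) = Sum.inl (i', false) := by
    have h1 := hβ₀ (β₀.symm (g (β₀ (Sum.inl (i, false)))))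
    rw [Equiv.apply_symm_apply] at h1
    have h2 : decide (g (β₀ (Sum.inl (i, false))) ∈ A) = true := decide_eq_true hA2
    rw [h2] at h1
    rcases hy : β₀.symm (g (β₀ (Sum.inl (i, false)))) with ⟨i', b⟩ | m
    · rw [hy] at h1
      simp only at h1
      refine ⟨i', ?_⟩
      cases b
      · rfl
      · simp at h1
    · rw [hy] at h1
      simp at h1
  have h3 := hx (Sum.inl (i, false))
  rw [hi'2, sA_inl, sA_inl, hi] at h3
  obtain ⟨c, hc⟩ := hβinl i false
  obtain ⟨c', hc'⟩ := hβinl i' (xor false (T' i'))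
  have h4 : col (β (Sum.inl (i, false))) = col (β (Sum.inl (i', xor false (T' i')))) := by
    rw [← h3]
    exact (hk _).symm
  rw [hc, hc', hrep, hrep] at h4
  have h5 : β (Sum.inl (i, false)) = β (Sum.inl (i', xor false (T' i'))) := by
    rw [hc, hc', h4]
  have h6 := Sum.inl_injective (β.injective h5)
  rw [Prod.mk.injEq] at h6
  obtain ⟨h7, h8⟩ := h6
  rw [← h7, hi'] at h8
  simp at h8

/-- block indices -/
abbrev Jx := ℕ ⊕ (ℕ × Bool)

/-- the moved index -/
def sBfun (T : ℕ → Bool) (r : ℕ) : Jx × Fin r → Jx × Fin r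
  | (Sum.inl m, j) => (Sum.inl m, j)
  | (Sum.inr (i, b), j) => (Sum.inr (i, if (j : ℕ) = 0 then xor b (T i) else b), j)

lemma sBfun_sBfun (T : ℕ → Bool) (r : ℕ) (x : Jx × Fin r) : sBfun T r (sBfun T r x) = x := by
  rcases x with ⟨m | ⟨i, b⟩, j⟩
  · rfl
  · simp only [sBfun]
    by_cases hj : (j : ℕ) = 0
    · simp [hj]
    · simp [hj]

/-- swaps for the partition code -/
def sB (T : ℕ → Bool) (r : ℕ) (α : Type*) : Equiv.Perm (α ⊕ (Jx × Fin r)) :=
  Equiv.sumCongr (Equiv.refl α) (Function.Involutive.toPerm (sBfun T r) (sBfun_sBfun T r))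

lemma sB_inr (T : ℕ → Bool) (r : ℕ) (α : Type*) (x : Jx × Fin r) :
    sB T r α (Sum.inr x) = Sum.inr (sBfun T r x) := rfl

lemma sB_meas (r : ℕ) (α : Type*) (x y : α ⊕ (Jx × Fin r)) :
    MeasurableSet {T | sB T r α x = y} := by
  rcases x with a | ⟨m | ⟨i, b⟩, j⟩
  · have h1 : {T : ℕ → Bool | sB T r α (Sum.inl a) = y} = {T | Sum.inl a = y} := rfl
    rw [h1]
    exact MeasurableSet.const _
  · have h1 : {T : ℕ → Bool | sB T r α (Sum.inr (Sum.inl m, j)) = y} =
        {T | Sum.inr (Sum.inl m, j) = y} := rfl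
    rw [h1]
    exact MeasurableSet.const _
  · have h1 : {T : ℕ → Bool | sB T r α (Sum.inr (Sum.inr (i, b), j)) = y} =
        (fun T : ℕ → Bool => T i) ⁻¹'
          {t | Sum.inr (Sum.inr (i, if (j : ℕ) = 0 then xor b t else b), j) = y} := rfl
    rw [h1]
    exact measurable_pi_apply i (Set.to_countable _).measurableSet

theorem code_partition {col : ℕ → ℕ} (hcol : Function.Surjective col)
    {H : Subgroup (Equiv.Perm ℕ)} {F₀ : Finset ℕ} {r : ℕ} {C : ℕ → Set ℕ} (hr : 2 ≤ r)
    (hC : ∀ a, a ∉ F₀ → a ∈ C a ∧ (C a).Finite ∧ (C a).ncard = r ∧ ∀ b ∈ C a, b ∉ F₀ ∧ C b = C a)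
    (hinv : ∀ h ∈ H, (∀ a, h a ∈ F₀ ↔ a ∈ F₀) ∧ ∀ a, a ∉ F₀ → C (h a) = h '' (C a)) :
    ∃ f, Codes col H f := by
  classical
  choose rep hrep using hcol
  have hrepinj : Function.Injective rep := fun a b hab => by rw [← hrep a, ← hrep b, hab]
  have h0r : 0 < r := by omega
  have h1r : 1 < r := by omega
  -- description of the partition
  obtain ⟨β1, hβ1⟩ := exists_beta hC
  have hden : Nonempty (Jx ≃ T) := by
    have h1 : Nonempty (Denumerable Jx) := nonempty_denumerable _
    have h2 : Nonempty (Denumerable T) := nonempty_denumerable _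
    exact ⟨@Denumerable.equiv₂ _ _ h1.some h2.some⟩
  let e := hden.some
  let γ : (Jx × Fin r) ≃ {a : ℕ // a ∉ F₀} :=
    ((Equiv.prodComm Jx (Fin r)).trans ((Equiv.refl (Fin r)).prodCongr e)).trans β1.symm
  have hγ : ∀ x y : Jx × Fin r, C (γ x : ℕ) = C (γ y : ℕ) ↔ x.1 = y.1 := by
    intro x y
    rw [← hβ1]
    simp [γ]
  let β₀ : ({a : ℕ // a ∈ F₀} ⊕ (Jx × Fin r)) ≃ ℕ :=
    ((Equiv.refl _).sumCongr γ).trans (Equiv.sumCompl (· ∈ F₀))
  have hβ₀ : ∀ x, β₀ (Sum.inr x) = (γ x : ℕ) := fun x => rfl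
  have hout : ∀ n, n ∉ F₀ → ∃ x, β₀.symm n = Sum.inr x := by
    intro n hn
    refine ⟨γ.symm ⟨n, hn⟩, ?_⟩
    rw [Equiv.symm_apply_eq, hβ₀, Equiv.apply_symm_apply]
  -- target
  let c : ({a : ℕ // a ∈ F₀} ⊕ (Jx × Fin r)) → Fin 3 := fun x => match x with
    | Sum.inl _ => 2
    | Sum.inr (Sum.inl _, j) => if (j : ℕ) = 0 then 0 else 2
    | Sum.inr (Sum.inr _, _) => 1
  let c' : ℕ → Fin 3 := fun n => if ∃ m, n = rep (4 * m) then 0 else
    if ∃ m, n = rep (2 * m + 1) then 1 else 2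
  obtain ⟨β, hβ⟩ := glue c c' (by
    intro i
    fin_cases i
    · exact infinite_fiber_of_inj (fun n => Sum.inr (Sum.inl n, ⟨0, h0r⟩))
        (fun a b h => Sum.inl_injective (Prod.ext_iff.1 (Sum.inr_injective h)).1) fun n => rfl
    · exact infinite_fiber_of_inj (fun n => Sum.inr (Sum.inr (n, false), ⟨0, h0r⟩))
        (fun a b h => (Prod.ext_iff.1 (Sum.inr_injective
          (Prod.ext_iff.1 (Sum.inr_injective h)).1)).1) fun n => rfl
    · exact infinite_fiber_of_inj (fun n => Sum.inr (Sum.inl n, ⟨1, h1r⟩))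
        (fun a b h => Sum.inl_injective (Prod.ext_iff.1 (Sum.inr_injective h)).1) fun n => rfl) (by
    intro i
    fin_cases i
    · refine infinite_fiber_of_inj (fun n => rep (4 * n)) (fun a b h => ?_) fun n => ?_
      · have := hrepinj h
        omega
      · exact if_pos ⟨n, rfl⟩
    · refine infinite_fiber_of_inj (fun n => rep (2 * n + 1)) (fun a b h => ?_) fun n => ?_
      · have := hrepinj h
        omega
      · simp only [c']
        rw [if_neg, if_pos ⟨n, rfl⟩]
        · rfl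
        · rintro ⟨m, hm⟩
          have := hrepinj hm
          omega
    · refine infinite_fiber_of_inj (fun n => rep (4 * n + 2)) (fun a b h => ?_) fun n => ?_
      · have := hrepinj h
        omega
      · simp only [c']
        rw [if_neg, if_neg]
        · rfl
        · rintro ⟨m, hm⟩
          have := hrepinj hm
          omega
        · rintro ⟨m, hm⟩
          have := hrepinj hm
          omega)
  have hβ2 : ∀ p j, ∃ m, β (Sum.inr (Sum.inr p, j)) = rep (2 * m + 1) := by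
    intro p j
    have h1 : c' (β (Sum.inr (Sum.inr p, j))) = 1 := hβ _
    simp only [c'] at h1
    by_contra hne
    by_cases h2 : ∃ m, β (Sum.inr (Sum.inr p, j)) = rep (4 * m)
    · rw [if_pos h2] at h1
      exact absurd h1 (by decide)
    · rw [if_neg h2, if_neg hne] at h1
      exact absurd h1 (by decide)
  have hβ3 : ∀ m, ∃ m', β (Sum.inr (Sum.inl m, ⟨0, h0r⟩)) = rep (4 * m') := by
    intro m
    have h1 : c' (β (Sum.inr (Sum.inl m, ⟨0, h0r⟩))) = 0 := hβ _
    simp only [c'] at h1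
    by_contra hne
    rw [if_neg hne] at h1
    by_cases h2 : ∃ m', β (Sum.inr (Sum.inl m, ⟨0, h0r⟩)) = rep (2 * m' + 1)
    · rw [if_pos h2] at h1
      exact absurd h1 (by decide)
    · rw [if_neg h2] at h1
      exact absurd h1 (by decide)
  -- points of the same odd colour in the second part are equal
  have hcolinj : ∀ p j p' j', col (β (Sum.inr (Sum.inr p, j))) = col (β (Sum.inr (Sum.inr p', j'))) →
      p = p' ∧ j = j' := by
    intro p j p' j' h
    obtain ⟨m, hm⟩ := hβ2 p j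
    obtain ⟨m', hm'⟩ := hβ2 p' j'
    have h2 : β (Sum.inr (Sum.inr p, j)) = β (Sum.inr (Sum.inr p', j')) := by
      rw [hm, hm', hrep, hrep] at h
      rw [hm, hm', h]
    have h3 := Prod.ext_iff.1 (Sum.inr_injective (β.injective h2))
    exact ⟨Sum.inr_injective h3.1, h3.2⟩
  refine codes_of β₀ β (fun T => sB T r _) (fun x y => sB_meas r _ x y) ?_
  intro T T' i hi hi' k hk g hg hx
  obtain ⟨hg1, hg2⟩ := hinv g hg
  obtain ⟨hg1', hg2'⟩ := hinv g⁻¹ (H.inv_mem hg)
  have hx0 := hx (Sum.inr (Sum.inr (i, false), ⟨0, h0r⟩))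
  have hx1 := hx (Sum.inr (Sum.inr (i, false), ⟨1, h1r⟩))
  rw [hβ₀, sB_inr] at hx0 hx1
  obtain ⟨⟨J0, j0⟩, hw0⟩ := hout (g (γ (Sum.inr (i, false), ⟨0, h0r⟩)))
    (fun h => (γ (Sum.inr (i, false), ⟨0, h0r⟩)).2 ((hg1 _).1 h))
  obtain ⟨⟨J1, j1⟩, hw1⟩ := hout (g (γ (Sum.inr (i, false), ⟨1, h1r⟩)))
    (fun h => (γ (Sum.inr (i, false), ⟨1, h1r⟩)).2 ((hg1 _).1 h))
  rw [hw0, sB_inr] at hx0
  rw [hw1, sB_inr] at hx1
  rw [Equiv.symm_apply_eq, hβ₀] at hw0 hw1
  have hJ : J0 = J1 := by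
    rw [← hγ (J0, j0) (J1, j1), ← hw0, ← hw1, hg2 _ (γ _).2, hg2 _ (γ _).2]
    congr 1
    rw [hγ]
  subst hJ
  rcases J0 with m | ⟨i', b'⟩
  · -- a block of the first kind contains a point of even colour
    obtain ⟨⟨J2, j2⟩, hw2⟩ := hout (g⁻¹ (γ (Sum.inl m, ⟨0, h0r⟩)))
      (fun h => (γ (Sum.inl m, ⟨0, h0r⟩)).2 ((hg1' _).1 h))
    have hw2' := hw2
    rw [Equiv.symm_apply_eq, hβ₀] at hw2'
    have hJ2 : J2 = Sum.inr (i, false) := by
      rw [← hγ (J2, j2) (Sum.inr (i, false), ⟨0, h0r⟩), ← hw2', hg2' _ (γ _).2]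
      have h1 : C (γ (Sum.inl m, ⟨0, h0r⟩) : ℕ) = C (γ (Sum.inl m, j0) : ℕ) := (hγ _ _).2 rfl
      rw [h1, ← hw0, hg2 _ (γ _).2, ← image_comp]
      have h2 : (⇑g⁻¹ ∘ ⇑g) = id := by
        funext a
        exact Equiv.symm_apply_apply g a
      rw [h2, image_id]
    subst hJ2
    have h3 := hx (Sum.inr (Sum.inr (i, false), j2))
    have h4 : g (γ (Sum.inr (i, false), j2)) = γ (Sum.inl m, ⟨0, h0r⟩) := by
      rw [← hw2']
      exact Equiv.apply_symm_apply g _
    have h5 : β₀.symm (γ (Sum.inl m, ⟨0, h0r⟩) : ℕ) = Sum.inr (Sum.inl m, ⟨0, h0r⟩) := by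
      rw [Equiv.symm_apply_eq, hβ₀]
    rw [hβ₀, h4, h5, sB_inr, sB_inr] at h3
    have h6 : col (β (Sum.inr (sBfun T r (Sum.inr (i, false), j2)))) =
        col (β (Sum.inr (sBfun T' r (Sum.inl m, ⟨0, h0r⟩)))) := by
      rw [← h3]
      exact (hk _).symm
    obtain ⟨m1, hm1⟩ := hβ2 (i, if (j2 : ℕ) = 0 then xor false (T i) else false) j2
    obtain ⟨m2, hm2⟩ := hβ3 m
    have h7 : β (Sum.inr (sBfun T r (Sum.inr (i, false), j2))) = rep (2 * m1 + 1) := hm1
    have h8 : β (Sum.inr (sBfun T' r (Sum.inl m, ⟨0, h0r⟩))) = rep (4 * m2) := hm2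
    rw [h7, h8, hrep, hrep] at h6
    omega
  · have e0 : col (β (Sum.inr (sBfun T r (Sum.inr (i, false), ⟨0, h0r⟩)))) =
        col (β (Sum.inr (sBfun T' r (Sum.inr (i', b'), j0)))) := by
      rw [← hx0]
      exact (hk _).symm
    have e1 : col (β (Sum.inr (sBfun T r (Sum.inr (i, false), ⟨1, h1r⟩)))) =
        col (β (Sum.inr (sBfun T' r (Sum.inr (i', b'), j1)))) := by
      rw [← hx1]
      exact (hk _).symm
    obtain ⟨p0, q0⟩ := hcolinj _ _ _ _ e0
    obtain ⟨p1, q1⟩ := hcolinj _ _ _ _ e1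
    subst q0 q1
    simp only [if_true, hi, Prod.mk.injEq, Bool.xor_false, one_ne_zero, if_false] at p0 p1
    obtain ⟨rfl, p0⟩ := p0
    rw [← p1.2, hi'] at p0
    simp at p0

end Pool.Agent.H59.TV
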