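import Pool.Agent.H59.TV.Cell2

/-!
Double cosets of cellular groups: the case of trivial classes.
-/

set_option autoImplicit false

open Set

namespace Pool.Agent.H59.TV

open Pool.Agent.H71

lemma app_inv (e : Equiv.Perm ℕ) (x : ℕ) : e (e⁻¹ x) = x := e.apply_symm_apply x

lemma inv_app (e : Equiv.Perm ℕ) (x : ℕ) : e⁻¹ (e x) = x := e.symm_apply_apply x

/-- Countably many double cosets. -/
def CDC (K H : Subgroup (Equiv.Perm ℕ)) : Prop :=
  ∃ R : Set (Equiv.Perm ℕ), R.Countable ∧ ∀ g, ∃ r ∈ R, ∃ k ∈ K, ∃ h ∈ H, k * g = r * h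

lemma CDC.mono {K H K' H' : Subgroup (Equiv.Perm ℕ)} (h : CDC K H) (hK : K ≤ K') (hH : H ≤ H') :
    CDC K' H' := by
  obtain ⟨R, hR, hR'⟩ := h
  refine ⟨R, hR, fun g => ?_⟩
  obtain ⟨r, hr, k, hk, h, hh, e⟩ := hR' g
  exact ⟨r, hr, k, hK hk, h, hH hh, e⟩

lemma CDC.symm {K H : Subgroup (Equiv.Perm ℕ)} (h : CDC K H) : CDC H K := by
  obtain ⟨R, hR, hR'⟩ := h
  refine ⟨(fun g => g⁻¹) '' R, hR.image _, fun g => ?_⟩
  obtain ⟨r, hr, k, hk, h, hh, e⟩ := hR' g⁻¹
  refine ⟨r⁻¹, ⟨r, hr, rfl⟩, h, hh, k, hk, ?_⟩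
  have h1 : r⁻¹ * (k * g⁻¹) = h := by rw [e]; group
  rw [← h1]
  group

section
variable {G : Subgroup (Equiv.Perm ℕ)} (hG : Cel G)
include hG

/-- With trivial classes the group contains every permutation that fixes the algebraic closure of
the empty set and preserves the orbits. -/
lemma Cel.mem_of_orbits (hcl : Clsd G) (htr : ∀ a, a ∉ acl G ∅ → cls G a ⊆ {a})
    (g : Equiv.Perm ℕ) (hg0 : ∀ a ∈ acl G ∅, g a = a)
    (hg : ∀ a, a ∉ acl G ∅ → orb G ∅ (g a) = orb G ∅ a) : g ∈ G := by
  classical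
  have hfin : (acl G ∅).Finite := hG.h1 ∅
  -- sets containing the closure of the empty set are closed
  have hclos : ∀ F : Finset ℕ, acl G F ⊆ (F : Set ℕ) ∪ acl G ∅ := by
    intro F a ha
    rcases hG.h2 F a ha with h | ⟨b, hb, hab⟩
    · exact Or.inr h
    · by_cases ha0 : a ∈ acl G ∅
      · exact Or.inr ha0
      · by_cases hb0 : b ∈ acl G ∅
        · -- a is algebraic over a point of acl ∅ : then a ∈ acl ∅
          exfalso
          -- orbit of a over b finite and orbit of b finite
          apply ha0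
          have h1 : (orb G {b} a).Finite := hab
          have h2 : (orb G ∅ b).Finite := hb0
          have h3 : orb G ∅ a ⊆ ⋃ b' ∈ orb G ∅ b, acl G {b'} := by
            rintro _ ⟨u, hu, rfl⟩
            refine mem_biUnion (x := u b) ⟨u, hu, rfl⟩ ?_
            exact (acl_singleton_apply hu.1 b a).2 hab
          exact (h2.biUnion fun b' _ => hG.h1 {b'}).subset h3
        · left
          have : a ∈ cls G b := ⟨hab, ha0⟩
          have := htr b hb0 this
          rw [mem_singleton_iff] at this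
          rw [this]
          exact hb
  apply hcl
  intro F
  -- induction on F ∪ acl ∅
  have key : ∀ F : Finset ℕ, ∃ h ∈ G, (∀ a ∈ acl G ∅, h a = a) ∧ ∀ a ∈ F, h a = g a := by
    intro F
    induction F using Finset.induction_on with
    | empty => exact ⟨1, G.one_mem, fun a _ => rfl, by simp⟩
    | insert a F ha ih =>
      obtain ⟨h, hh, h0, hF⟩ := ih
      by_cases ha0 : a ∈ acl G ∅
      · refine ⟨h, hh, h0, fun b hb => ?_⟩
        rcases Finset.mem_insert.1 hb with rfl | hb
        · rw [h0 _ ha0, hg0 _ ha0]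
        · exact hF b hb
      · let F' : Finset ℕ := F ∪ hfin.toFinset
        have hgh0 : ∀ b, b ∈ acl G ∅ ↔ h⁻¹ (g b) ∈ acl G ∅ := by
          intro b
          constructor
          · intro hb
            rw [hg0 b hb]
            exact (acl_empty_apply (G.inv_mem hh) b).2 hb
          · intro hb
            have h1 := (acl_empty_apply hh _).2 hb
            rw [app_inv] at h1
            have h2 := hg0 _ h1
            have h3 := g.injective h2
            rwa [h3] at h1
        have h1 : a ∉ acl G F' := by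
          intro h'
          rcases hclos F' h' with h' | h'
          · have h'' : a ∈ F ∪ hfin.toFinset := h'
            rcases Finset.mem_union.1 h'' with h'' | h''
            · exact ha h''
            · exact ha0 (hfin.mem_toFinset.1 h'')
          · exact ha0 h'
        have h2 : h⁻¹ (g a) ∉ acl G F' := by
          intro h'
          rcases hclos F' h' with h' | h'
          · have h'' : h⁻¹ (g a) ∈ F ∪ hfin.toFinset := h'
            rcases Finset.mem_union.1 h'' with h'' | h''
            · have h3 := hF _ h''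
              rw [app_inv] at h3
              have h4 := g.injective h3
              rw [← h4] at h''
              exact ha h''
            · exact ha0 ((hgh0 a).2 (hfin.mem_toFinset.1 h''))
          · exact ha0 ((hgh0 a).2 h')
        have h3 : h⁻¹ (g a) ∈ orb G ∅ a := by
          have h4 : g a ∈ orb G ∅ a := by
            rw [← hg a ha0]
            exact self_mem_orb G ∅ (g a)
          exact orb_trans h4 ⟨h⁻¹, ⟨G.inv_mem hh, by simp⟩, rfl⟩
        obtain ⟨u, hu, hua⟩ := hG.h3 F' a _ h1 h2 h3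
        refine ⟨h * u, G.mul_mem hh hu.1, fun b hb => ?_, fun b hb => ?_⟩
        · rw [Equiv.Perm.mul_apply,
            hu.2 b (Finset.mem_union_right _ (hfin.mem_toFinset.2 hb)), h0 b hb]
        · rw [Equiv.Perm.mul_apply]
          rcases Finset.mem_insert.1 hb with rfl | hb
          · rw [hua]
            simp
          · rw [hu.2 b (Finset.mem_union_left _ hb), hF b hb]
  obtain ⟨h, hh, -, h2⟩ := key F
  exact ⟨h, hh, h2⟩

end

/-- If `K` is cellular and `H` is cellular with trivial classes there are only countably many double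
cosets. -/
theorem cdc_of_trivial {K H : Subgroup (Equiv.Perm ℕ)} (hK : Cel K) (hKcl : Clsd K)
    (hH : Cel H) (hHcl : Clsd H) (htr : ∀ a, a ∉ acl H ∅ → cls H a ⊆ {a}) : CDC K H := by
  classical
  have hfin : (acl H ∅).Finite := hH.h1 ∅
  let C : Type := (acl H ∅ : Set ℕ) ⊕ (Set.range (orb H ∅) : Set (Set ℕ))
  have : Finite (acl H ∅ : Set ℕ) := hfin
  have : Finite (Set.range (orb H ∅) : Set (Set ℕ)) := hH.h4
  have hC : Finite C := inferInstance
  let col : ℕ → C := fun z =>
    if hz : z ∈ acl H ∅ then Sum.inl ⟨z, hz⟩ else Sum.inr ⟨orb H ∅ z, z, rfl⟩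
  have hcol : ∀ h : Equiv.Perm ℕ, (∀ z, col (h z) = col z) → h ∈ H := by
    intro h hh
    refine hH.mem_of_orbits hHcl htr h (fun a ha => ?_) (fun a ha => ?_)
    · have h1 := hh a
      simp only [col] at h1
      rw [dif_pos ha] at h1
      by_cases h2 : h a ∈ acl H ∅
      · rw [dif_pos h2] at h1
        have h3 := Sum.inl_injective h1
        exact congrArg Subtype.val h3
      · rw [dif_neg h2] at h1
        simp at h1
    · have h1 := hh a
      simp only [col] at h1
      rw [dif_neg ha] at h1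
      by_cases h2 : h a ∈ acl H ∅
      · rw [dif_pos h2] at h1
        simp at h1
      · rw [dif_neg h2] at h1
        have h3 := Sum.inr_injective h1
        exact congrArg Subtype.val h3
  obtain ⟨R, hR, hR'⟩ := hK.countable_colourings (C := C) hKcl
  -- choose representatives
  have hch : ∀ d : ℕ → C, ∃ r : Equiv.Perm ℕ,
      (∃ g : Equiv.Perm ℕ, ∃ k ∈ K, ∀ x, d (k x) = col (g⁻¹ x)) →
      ∃ k ∈ K, ∀ x, d (k x) = col (r⁻¹ x) := by
    intro d
    by_cases h : ∃ g : Equiv.Perm ℕ, ∃ k ∈ K, ∀ x, d (k x) = col (g⁻¹ x)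
    · obtain ⟨g, hg⟩ := h
      exact ⟨g, fun _ => hg⟩
    · exact ⟨1, fun h' => absurd h' h⟩
  choose ρ hρ using hch
  refine ⟨ρ '' R, hR.image _, fun g => ?_⟩
  obtain ⟨d, hd, k, hk, hdk⟩ := hR' (fun x => col (g⁻¹ x))
  obtain ⟨k', hk', hdk'⟩ := hρ d ⟨g, k, hk, hdk⟩
  refine ⟨ρ d, ⟨d, hd, rfl⟩, k'⁻¹ * k, K.mul_mem (K.inv_mem hk') hk,
    (ρ d)⁻¹ * (k'⁻¹ * k * g), hcol _ (fun z => ?_), by group⟩
  have h1 := hdk (g z)
  have h2 := hdk' (k'⁻¹ (k (g z)))
  rw [app_inv] at h2
  rw [h1] at h2
  simp only [Equiv.Perm.mul_apply]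
  rw [← h2, inv_app]

end Pool.Agent.H59.TV
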