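import Pool.Agent.H59.TV.DC1

/-!
Pairs of equivalence relations: coding reals by pairs of equivalence relations of given types.
-/

set_option autoImplicit false

open Set

namespace Pool.Agent.H59.TV

/-! ### Relations with classes of size `r` and one -/

/-- `r`-classes: the sets `C a`, `a ∈ A`, partition `A` into sets of size `r`. -/
def IsPart {Ω : Type} (A : Set Ω) (C : Ω → Set Ω) (r : ℕ) : Prop :=
  ∀ a, a ∈ A → a ∈ C a ∧ (C a).Finite ∧ (C a).ncard = r ∧ ∀ b ∈ C a, b ∈ A ∧ C b = C a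

/-- The equivalence relation with the classes `C a`, `a ∈ A`, and singletons. -/
def CRel {Ω : Type} (A : Set Ω) (C : Ω → Set Ω) (x y : Ω) : Prop :=
  x = y ∨ (x ∈ A ∧ y ∈ A ∧ C x = C y)

lemma exists_beta_gen {Ω : Type} [Countable Ω] {A : Set Ω} {C : Ω → Set Ω} {r : ℕ}
    (hA : A.Infinite) (hC : IsPart A C r) :
    ∃ β : A ≃ Fin r × ℕ, ∀ a b : A, (β a).2 = (β b).2 ↔ C a = C b := by
  classical
  let f : A → Set.range (fun a : A => C a) := Set.rangeFactorization _
  have hf : ∀ a b, f a = f b ↔ C a = C b := fun a b => Subtype.ext_iff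
  have hfs : Function.Surjective f := Set.rangeFactorization_surjective
  have hfib : ∀ q, Nonempty ({a // f a = q} ≃ Fin r) := by
    intro q
    obtain ⟨a, rfl⟩ := hfs q
    obtain ⟨h1, h2, h3, h4⟩ := hC a a.2
    have e : {b // f b = f a} ≃ C a :=
      { toFun := fun b => ⟨b.1, by
          have := (hf _ _).1 b.2
          rw [← this]
          exact (hC b.1 b.1.2).1⟩
        invFun := fun b => ⟨⟨b.1, (h4 b.1 b.2).1⟩, (hf _ _).2 (h4 b.1 b.2).2⟩
        left_inv := fun b => rfl
        right_inv := fun b => rfl }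
    have : Finite (C a) := h2
    have hcard : Nat.card (C a) = r := h3
    exact ⟨e.trans (Finite.equivFinOfCardEq hcard)⟩
  have hfib' := fun q => (hfib q).some
  have hinf : Infinite A := hA.to_subtype
  have hQinf : Infinite (Set.range (fun a : A => C a)) := by
    by_contra hcon
    rw [not_infinite_iff_finite] at hcon
    have : Finite (Σ y, {x // f x = y}) := by
      have : ∀ y, Finite {x // f x = y} := fun y => Finite.of_equiv _ (hfib' y).symm
      infer_instance
    have := Finite.of_equiv _ (Equiv.sigmaFiberEquiv f)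
    exact not_finite A
  have hQc : Countable (Set.range (fun a : A => C a)) := (Set.countable_range _).to_subtype
  obtain ⟨eQ⟩ : Nonempty (Set.range (fun a : A => C a) ≃ ℕ) := nonempty_equiv_of_countable
  let β : A ≃ Fin r × ℕ :=
    ((Equiv.sigmaFiberEquiv f).symm.trans (Equiv.sigmaCongrRight hfib')).trans
      ((Equiv.sigmaEquivProd _ _).trans ((Equiv.prodCongr eQ (Equiv.refl _)).trans (Equiv.prodComm _ _)))
  refine ⟨β, fun a b => ?_⟩
  have hβ : ∀ a, (β a).2 = eQ (f a) := fun a => rfl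
  rw [hβ, hβ, eQ.injective.eq_iff, hf]

lemma exists_isoC {Ω Ω' : Type} [Countable Ω] [Countable Ω'] {A : Set Ω} {C : Ω → Set Ω}
    {A' : Set Ω'} {C' : Ω' → Set Ω'} {r : ℕ} (hA : A.Infinite) (hA' : A'.Infinite)
    (hC : IsPart A C r) (hC' : IsPart A' C' r) (e : (Aᶜ : Set Ω) ≃ (A'ᶜ : Set Ω')) :
    ∃ β : Ω ≃ Ω', ∀ x y, CRel A C x y ↔ CRel A' C' (β x) (β y) := by
  classical
  obtain ⟨b, hb⟩ := exists_beta_gen hA hC
  obtain ⟨b', hb'⟩ := exists_beta_gen hA' hC'
  let β : Ω ≃ Ω' := (Equiv.Set.sumCompl A).symm.trans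
    ((Equiv.sumCongr (b.trans b'.symm) e).trans (Equiv.Set.sumCompl A'))
  have h1 : ∀ x (hx : x ∈ A), β x = (b'.symm (b ⟨x, hx⟩) : Ω') := by
    intro x hx
    simp [β, Equiv.Set.sumCompl_symm_apply_of_mem hx]
  have h2 : ∀ x (hx : x ∉ A), β x = (e ⟨x, hx⟩ : Ω') := by
    intro x hx
    simp [β, Equiv.Set.sumCompl_symm_apply_of_notMem hx]
  have h3 : ∀ x, β x ∈ A' ↔ x ∈ A := by
    intro x
    by_cases hx : x ∈ A
    · rw [h1 x hx]
      simp [hx]
    · rw [h2 x hx]
      simp only [hx, iff_false]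
      exact (e ⟨x, hx⟩).2
  refine ⟨β, fun x y => ?_⟩
  unfold CRel
  rw [β.injective.eq_iff, h3, h3]
  refine or_congr_right (and_congr_right fun hx => and_congr_right fun hy => ?_)
  rw [h1 x hx, h1 y hy, ← hb', ← hb ⟨x, hx⟩ ⟨y, hy⟩]
  simp

/-! ### Minimal closed sets -/

section
variable {Ω L M : Type}

/-- closed under both relations -/
def Clo (f : Ω → L) (g : Ω → M) (S : Set Ω) : Prop :=
  ∀ x ∈ S, ∀ y, (f x = f y ∨ g x = g y) → y ∈ S

/-- minimal closed sets -/
def MinC (f : Ω → L) (g : Ω → M) (S : Set Ω) : Prop :=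
  S.Nonempty ∧ Clo f g S ∧ ∀ S' ⊆ S, S'.Nonempty → Clo f g S' → S' = S

lemma Clo.inter {f : Ω → L} {g : Ω → M} {S T : Set Ω} (hS : Clo f g S) (hT : Clo f g T) :
    Clo f g (S ∩ T) := fun x hx y h => ⟨hS x hx.1 y h, hT x hx.2 y h⟩

lemma MinC.subset {f : Ω → L} {g : Ω → M} {S T : Set Ω} (hS : MinC f g S) (hT : Clo f g T)
    (h : (S ∩ T).Nonempty) : S ⊆ T := by
  have := hS.2.2 (S ∩ T) inter_subset_left h (hS.2.1.inter hT)
  rw [← this]
  exact inter_subset_right

variable {Ω' L' M' : Type}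

lemma MinC.image {f : Ω → L} {g : Ω → M} {f' : Ω' → L'} {g' : Ω' → M'} (θ : Ω ≃ Ω')
    (h1 : ∀ x y, f x = f y ↔ f' (θ x) = f' (θ y)) (h2 : ∀ x y, g x = g y ↔ g' (θ x) = g' (θ y))
    {S : Set Ω} (hS : MinC f g S) : MinC f' g' (θ '' S) := by
  have hclo : ∀ T : Set Ω, Clo f g T ↔ Clo f' g' (θ '' T) := by
    intro T
    constructor
    · rintro h _ ⟨x, hx, rfl⟩ y hy
      refine ⟨θ.symm y, h x hx _ ?_, by simp⟩
      rw [h1, h2]
      simpa using hy
    · intro h x hx y hy
      have := h (θ x) ⟨x, hx, rfl⟩ (θ y) (by rw [← h1, ← h2]; exact hy)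
      obtain ⟨z, hz, hzy⟩ := this
      rwa [← θ.injective hzy]
  refine ⟨hS.1.image _, (hclo S).1 hS.2.1, fun S' hS' hne hc => ?_⟩
  have e : θ '' (θ ⁻¹' S') = S' := image_preimage_eq _ θ.surjective
  have h3 : θ ⁻¹' S' ⊆ S := by
    intro x hx
    obtain ⟨y, hy, hyx⟩ := hS' hx
    rwa [← θ.injective hyx]
  have h4 := hS.2.2 (θ ⁻¹' S') h3 (by
    obtain ⟨y, hy⟩ := hne
    exact ⟨θ.symm y, by simpa using hy⟩) ((hclo _).2 (by rwa [e]))
  rw [← e, h4]

end

/-! ### The fixed part -/

/-- Labels: `none` gives the equality relation, `some a` gives `a` singletons followed by intervals of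
length `r`. -/
def lab (o : Option ℕ) (r : ℕ) (z : ℕ) : ℕ ⊕ ℕ :=
  match o with
  | none => Sum.inl z
  | some a => if z < a then Sum.inl z else Sum.inr ((z - a) / r)

/-- the singletons -/
def sg (o : Option ℕ) : Set ℕ :=
  match o with
  | none => univ
  | some a => Set.Iio a

lemma lab_boundary {o : Option ℕ} {r : ℕ} (hr : 0 < r) {M : ℕ} (hM : o.getD 0 ≤ M)
    (h : lab o r M ≠ lab o r (M + 1)) {k : ℕ} (hk : r ∣ k) (hk' : o.getD 0 + k ≤ M + 1) :
    ∀ x y, y < M + 1 - k → M + 1 - k ≤ x → lab o r x ≠ lab o r y := by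
  intro x y hy hx heq
  cases o with
  | none =>
    simp only [lab, Sum.inl.injEq] at heq
    omega
  | some a =>
    simp only [Option.getD_some] at hM hk'
    have hx' : ¬ x < a := by omega
    have hM1 : ¬ M < a := by omega
    have hM2 : ¬ M + 1 < a := by omega
    simp only [lab, if_neg hx'] at heq
    simp only [lab, if_neg hM1, if_neg hM2] at h
    by_cases hya : y < a
    · simp [hya] at heq
    · rw [if_neg hya] at heq
      have heq := Sum.inr_injective heq
      have h' : (M - a) / r ≠ (M + 1 - a) / r := fun e => h (congrArg _ e)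
      have e1 : M + 1 - a = (M - a) + 1 := by omega
      rw [e1, Nat.succ_div] at h'
      have hd : r ∣ M - a + 1 := by
        by_contra hcon
        rw [if_neg hcon] at h'
        exact h' rfl
      have hd2 : r ∣ M - a + 1 - k := Nat.dvd_sub hd hk
      obtain ⟨c, hc⟩ := hd2
      have h5 : y - a < r * c := by omega
      have h6 : r * c ≤ x - a := by omega
      have h7 : (y - a) / r < c := Nat.div_lt_of_lt_mul h5
      have h8 : c ≤ (x - a) / r := (Nat.le_div_iff_mul_le hr).2 (by rw [mul_comm]; exact h6)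
      omega

lemma ncard_le_of_minC {oa ob : Option ℕ} {r s : ℕ} (hr : 0 < r) (hs : 0 < s) {S : Set ℕ}
    (hS : MinC (lab oa r) (lab ob s) S) (hfin : S.Finite) :
    S.ncard ≤ oa.getD 0 + ob.getD 0 + r * s := by
  obtain ⟨M, hM, hmax⟩ := hfin.exists_maximalFor id S hS.1
  have hmax' : ∀ x ∈ S, x ≤ M := by
    intro x hx
    by_contra hcon
    push Not at hcon
    have := hmax hx hcon.le
    simp only [id] at this
    omega
  have hrs : 0 < r * s := Nat.mul_pos hr hs
  by_cases hbig : oa.getD 0 + ob.getD 0 + r * s ≤ M + 1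
  · have hP : lab oa r M ≠ lab oa r (M + 1) := by
      intro h
      have := hmax' _ (hS.2.1 M hM (M + 1) (Or.inl h))
      omega
    have hQ : lab ob s M ≠ lab ob s (M + 1) := by
      intro h
      have := hmax' _ (hS.2.1 M hM (M + 1) (Or.inr h))
      omega
    have hsub : S ⊆ Set.Ico (M + 1 - r * s) (M + 1) := by
      have h1 : S ∩ Set.Ici (M + 1 - r * s) = S := by
        refine hS.2.2 _ inter_subset_left ⟨M, hM, by simp only [Set.mem_Ici]; omega⟩ ?_
        rintro x ⟨hx1, hx2⟩ y hy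
        refine ⟨hS.2.1 x hx1 y hy, ?_⟩
        rw [Set.mem_Ici] at hx2 ⊢
        by_contra hcon
        push Not at hcon
        rcases hy with hy | hy
        · exact lab_boundary hr (by omega) hP (Dvd.intro _ rfl) (by omega) x y hcon hx2 hy
        · exact lab_boundary hs (by omega) hQ (Dvd.intro_left _ rfl) (by omega) x y hcon hx2 hy
      intro x hx
      rw [← h1] at hx
      exact ⟨hx.2, by have := hmax' x hx.1; omega⟩
    have h2 := Set.ncard_le_ncard hsub (Set.finite_Ico _ _)
    rw [← Finset.coe_Ico, Set.ncard_coe_finset, Nat.card_Ico] at h2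
    omega
  · have hsub : S ⊆ Set.Iio (M + 1) := fun x hx => by
      have := hmax' x hx
      simp only [Set.mem_Iio]
      omega
    have h2 := Set.ncard_le_ncard hsub (Set.finite_Iio _)
    rw [← Finset.coe_Iio, Set.ncard_coe_finset, Nat.card_Iio] at h2
    omega

end Pool.Agent.H59.TV
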