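import Pool.Agent.H59.TV.DC2

/-!
The coding of reals by pairs of equivalence relations.
-/

set_option autoImplicit false

open Set

namespace Pool.Agent.H59.TV

section
variable (N r s : ℕ)

/-- the length of a cycle -/
abbrev len (n : ℕ) : ℕ := 2 * (n + N) + 1

/-- the indices -/
abbrev JJ : Type := Σ n : ℕ, ZMod 2 × ZMod (len N n)

/-- the underlying set -/
abbrev OO : Type := (JJ N × Fin r × Fin s) ⊕ ℕ

/-- a permutation of the indices, with one cycle of length `2 len` or two of length `len` in each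
block -/
def tau (σ : ℕ → Bool) : Equiv.Perm (JJ N) :=
  Equiv.sigmaCongrRight (fun n =>
    (Equiv.addRight (if σ n then (1 : ZMod 2) else 0)).prodCongr (Equiv.addRight (1 : ZMod (len N n))))

variable {N r s}

lemma tau_apply (σ : ℕ → Bool) (n : ℕ) (e : ZMod 2) (l : ZMod (len N n)) :
    tau N σ ⟨n, e, l⟩ = ⟨n, e + (if σ n then (1 : ZMod 2) else 0), l + 1⟩ := rfl

/-- the first labels -/
def pl (oa : Option ℕ) : OO N r s → (JJ N × Fin s) ⊕ (ℕ ⊕ ℕ)
  | Sum.inl (j, _, t) => Sum.inl (j, t)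
  | Sum.inr z => Sum.inr (lab oa r z)

/-- the second labels before modification -/
def ql0 (ob : Option ℕ) : OO N r s → (JJ N × Fin r) ⊕ (ℕ ⊕ ℕ)
  | Sum.inl (j, i, _) => Sum.inl (j, i)
  | Sum.inr z => Sum.inr (lab ob s z)

/-- the modification -/
def pim (σ : ℕ → Bool) : Equiv.Perm (OO N r s) where
  toFun
    | Sum.inl (j, i, t) => if t.val = 1 ∧ i.val = 0 then Sum.inl (tau N σ j, i, t) else Sum.inl (j, i, t)
    | Sum.inr z => Sum.inr z
  invFun
    | Sum.inl (j, i, t) =>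
      if t.val = 1 ∧ i.val = 0 then Sum.inl ((tau N σ).symm j, i, t) else Sum.inl (j, i, t)
    | Sum.inr z => Sum.inr z
  left_inv x := by
    rcases x with ⟨j, i, t⟩ | z
    · by_cases h : t.val = 1 ∧ i.val = 0
      · simp [h]
      · simp [h]
    · rfl
  right_inv x := by
    rcases x with ⟨j, i, t⟩ | z
    · by_cases h : t.val = 1 ∧ i.val = 0
      · simp [h]
      · simp [h]
    · rfl

/-- the second labels -/
def ql (ob : Option ℕ) (σ : ℕ → Bool) (x : OO N r s) : (JJ N × Fin r) ⊕ (ℕ ⊕ ℕ) :=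
  ql0 ob ((pim σ).symm x)

lemma ql_inl (ob : Option ℕ) (σ : ℕ → Bool) (j : JJ N) (i : Fin r) (t : Fin s) :
    ql ob σ (Sum.inl (j, i, t)) =
      if t.val = 1 ∧ i.val = 0 then Sum.inl ((tau N σ).symm j, i) else Sum.inl (j, i) := by
  unfold ql pim
  by_cases h : t.val = 1 ∧ i.val = 0
  · simp [h, ql0]
  · simp [h, ql0]

lemma ql_inr (ob : Option ℕ) (σ : ℕ → Bool) (z : ℕ) :
    ql ob σ (Sum.inr z : OO N r s) = Sum.inr (lab ob s z) := rfl

variable {oa ob : Option ℕ}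

/-- closed sets are unions of full cycles -/
lemma clo_full (hr : 2 ≤ r) (hs : 2 ≤ s) {σ : ℕ → Bool} {S : Set (OO N r s)}
    (hS : Clo (pl oa) (ql ob σ) S) {j : JJ N} {i : Fin r} {t : Fin s}
    (h : (Sum.inl (j, i, t) : OO N r s) ∈ S) (i' : Fin r) (t' : Fin s) :
    (Sum.inl (j, i', t') : OO N r s) ∈ S := by
  have h1 : (Sum.inl (j, ⟨1, by omega⟩, t) : OO N r s) ∈ S := hS _ h _ (Or.inl rfl)
  have h2 : (Sum.inl (j, ⟨1, by omega⟩, t') : OO N r s) ∈ S := by
    refine hS _ h1 _ (Or.inr ?_)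
    rw [ql_inl, ql_inl]
    simp
  exact hS _ h2 _ (Or.inl rfl)

lemma clo_tau (hr : 2 ≤ r) (hs : 2 ≤ s) {σ : ℕ → Bool} {S : Set (OO N r s)}
    (hS : Clo (pl oa) (ql ob σ) S) {j : JJ N} {i : Fin r} {t : Fin s}
    (h : (Sum.inl (j, i, t) : OO N r s) ∈ S) (i' : Fin r) (t' : Fin s) :
    (Sum.inl (tau N σ j, i', t') : OO N r s) ∈ S := by
  have h1 : (Sum.inl (j, ⟨0, by omega⟩, ⟨0, by omega⟩) : OO N r s) ∈ S := clo_full hr hs hS h _ _
  have h2 : (Sum.inl (tau N σ j, ⟨0, by omega⟩, ⟨1, by omega⟩) : OO N r s) ∈ S := by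
    refine hS _ h1 _ (Or.inr ?_)
    rw [ql_inl, ql_inl]
    simp
  exact clo_full hr hs hS h2 _ _

lemma clo_tau_iter (hr : 2 ≤ r) (hs : 2 ≤ s) {σ : ℕ → Bool} {S : Set (OO N r s)}
    (hS : Clo (pl oa) (ql ob σ) S) {n : ℕ} {e : ZMod 2} {l : ZMod (len N n)} {i : Fin r} {t : Fin s}
    (h : (Sum.inl (⟨n, e, l⟩, i, t) : OO N r s) ∈ S) (m : ℕ) (i' : Fin r) (t' : Fin s) :
    (Sum.inl (⟨n, e + (if σ n then (m : ZMod 2) else 0), l + m⟩, i', t') : OO N r s) ∈ S := by
  induction m with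
  | zero =>
    have := clo_full hr hs hS h i' t'
    simpa using this
  | succ m ih =>
    have := clo_tau hr hs hS ih i' t'
    rw [tau_apply] at this
    convert this using 5
    · split_ifs
      · push_cast; ring
      · ring
    · push_cast; ring

/-- the block of `n` (one or two cycles) -/
def blk (n : ℕ) : Set (OO N r s) := {x | ∃ e l i t, x = Sum.inl (⟨n, e, l⟩, i, t)}

/-- half a block -/
def hlf (n : ℕ) (e : ZMod 2) : Set (OO N r s) := {x | ∃ l i t, x = Sum.inl (⟨n, e, l⟩, i, t)}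

lemma ncard_blk (n : ℕ) : (blk n : Set (OO N r s)).ncard = 2 * len N n * (r * s) := by
  let f : (ZMod 2 × ZMod (len N n)) × (Fin r × Fin s) → OO N r s :=
    fun x => Sum.inl (⟨n, x.1⟩, x.2.1, x.2.2)
  have hf : Function.Injective f := by
    rintro ⟨⟨e, l⟩, i, t⟩ ⟨⟨e', l'⟩, i', t'⟩ h
    simp only [f, Sum.inl.injEq, Prod.mk.injEq, Sigma.mk.injEq, heq_eq_eq, true_and] at h
    obtain ⟨⟨rfl, rfl⟩, rfl, rfl⟩ := h
    rfl
  have h1 : (blk n : Set (OO N r s)) = f '' univ := by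
    ext x
    simp only [blk, mem_ofPred_eq, image_univ, mem_range, Prod.exists, f]
    constructor
    · rintro ⟨e, l, i, t, rfl⟩
      exact ⟨e, l, i, t, rfl⟩
    · rintro ⟨e, l, i, t, rfl⟩
      exact ⟨e, l, i, t, rfl⟩
  rw [h1, Set.ncard_image_of_injective _ hf, Set.ncard_univ, Nat.card_prod, Nat.card_prod,
    Nat.card_prod, Nat.card_zmod, Nat.card_zmod, Nat.card_fin, Nat.card_fin]

lemma ncard_hlf (n : ℕ) (e : ZMod 2) : (hlf n e : Set (OO N r s)).ncard = len N n * (r * s) := by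
  let f : ZMod (len N n) × (Fin r × Fin s) → OO N r s :=
    fun x => Sum.inl (⟨n, e, x.1⟩, x.2.1, x.2.2)
  have hf : Function.Injective f := by
    rintro ⟨l, i, t⟩ ⟨l', i', t'⟩ h
    simp only [f, Sum.inl.injEq, Prod.mk.injEq, Sigma.mk.injEq, heq_eq_eq, true_and] at h
    obtain ⟨rfl, rfl, rfl⟩ := h
    rfl
  have h1 : (hlf n e : Set (OO N r s)) = f '' univ := by
    ext x
    simp only [hlf, mem_ofPred_eq, image_univ, mem_range, Prod.exists, f]
    constructor
    · rintro ⟨l, i, t, rfl⟩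
      exact ⟨l, i, t, rfl⟩
    · rintro ⟨l, i, t, rfl⟩
      exact ⟨l, i, t, rfl⟩
  rw [h1, Set.ncard_image_of_injective _ hf, Set.ncard_univ, Nat.card_prod, Nat.card_prod,
    Nat.card_zmod, Nat.card_fin, Nat.card_fin]

lemma exists_mod (n : ℕ) (e : ZMod 2) (l : ZMod (len N n)) :
    ∃ m : ℕ, (m : ZMod 2) = e ∧ (m : ZMod (len N n)) = l := by
  have hco : Nat.Coprime 2 (len N n) := by
    rw [Nat.coprime_two_left]
    exact ⟨n + N, rfl⟩
  obtain ⟨m, h1, h2⟩ := Nat.chineseRemainder hco e.val l.val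
  refine ⟨m, ?_, ?_⟩
  · rw [(ZMod.natCast_eq_natCast_iff _ _ _).2 h1, ZMod.natCast_zmod_val]
  · rw [(ZMod.natCast_eq_natCast_iff _ _ _).2 h2, ZMod.natCast_zmod_val]

lemma exists_mod' (n : ℕ) (l : ZMod (len N n)) : ∃ m : ℕ, (m : ZMod (len N n)) = l :=
  ⟨l.val, ZMod.natCast_zmod_val l⟩

lemma blk_subset (hr : 2 ≤ r) (hs : 2 ≤ s) {σ : ℕ → Bool} {S : Set (OO N r s)}
    (hS : Clo (pl oa) (ql ob σ) S) {n : ℕ} (hn : σ n = true) {e : ZMod 2} {l : ZMod (len N n)}
    {i : Fin r} {t : Fin s} (h : (Sum.inl (⟨n, e, l⟩, i, t) : OO N r s) ∈ S) :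
    (blk n : Set (OO N r s)) ⊆ S := by
  rintro _ ⟨e', l', i', t', rfl⟩
  obtain ⟨m, h1, h2⟩ := exists_mod n (e' - e) (l' - l)
  have := clo_tau_iter hr hs hS h m i' t'
  rw [hn, if_pos rfl, h1, h2] at this
  simpa using this

lemma hlf_subset (hr : 2 ≤ r) (hs : 2 ≤ s) {σ : ℕ → Bool} {S : Set (OO N r s)}
    (hS : Clo (pl oa) (ql ob σ) S) {n : ℕ} {e : ZMod 2} {l : ZMod (len N n)}
    {i : Fin r} {t : Fin s} (hn : σ n = false)
    (h : (Sum.inl (⟨n, e, l⟩, i, t) : OO N r s) ∈ S) : (hlf n e : Set (OO N r s)) ⊆ S := by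
  rintro _ ⟨l', i', t', rfl⟩
  obtain ⟨m, h2⟩ := exists_mod' n (l' - l)
  have := clo_tau_iter hr hs hS h m i' t'
  rw [hn, h2] at this
  simpa using this

/-- A set of labels closed under `tau` gives a closed set. -/
lemma clo_of_labels {σ : ℕ → Bool} {U : Set (JJ N)} (hU : ∀ j, tau N σ j ∈ U ↔ j ∈ U) :
    Clo (pl oa) (ql ob σ) {x : OO N r s | ∃ j ∈ U, ∃ i t, x = Sum.inl (j, i, t)} := by
  rintro _ ⟨j, hj, i, t, rfl⟩ y hy
  have hU' : ∀ j, (tau N σ).symm j ∈ U ↔ j ∈ U := fun j => by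
    rw [← hU, Equiv.apply_symm_apply]
  rcases y with ⟨j', i', t'⟩ | z
  · rcases hy with hy | hy
    · simp only [pl, Sum.inl.injEq, Prod.mk.injEq] at hy
      obtain ⟨rfl, rfl⟩ := hy
      exact ⟨j, hj, i', t, rfl⟩
    · rw [ql_inl, ql_inl] at hy
      refine ⟨j', ?_, i', t', rfl⟩
      split_ifs at hy with h1 h2 h2
      · simp only [Sum.inl.injEq, Prod.mk.injEq] at hy
        have := (tau N σ).symm.injective hy.1
        rwa [← this]
      · simp only [Sum.inl.injEq, Prod.mk.injEq] at hy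
        rw [← hy.1, hU']
        exact hj
      · simp only [Sum.inl.injEq, Prod.mk.injEq] at hy
        rw [← hU', ← hy.1]
        exact hj
      · simp only [Sum.inl.injEq, Prod.mk.injEq] at hy
        rwa [← hy.1]
  · exfalso
    rcases hy with hy | hy
    · simp [pl] at hy
    · rw [ql_inl, ql_inr] at hy
      split_ifs at hy

lemma clo_blk (σ : ℕ → Bool) (n : ℕ) : Clo (pl oa) (ql ob σ) (blk n : Set (OO N r s)) := by
  have := clo_of_labels (oa := oa) (ob := ob) (r := r) (s := s) (N := N) (σ := σ)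
    (U := {j | j.1 = n}) (fun j => Iff.rfl)
  convert this using 1
  ext x
  constructor
  · rintro ⟨e, l, i, t, rfl⟩
    exact ⟨_, rfl, i, t, rfl⟩
  · rintro ⟨⟨m, e, l⟩, hj, i, t, rfl⟩
    have : m = n := hj
    subst this
    exact ⟨e, l, i, t, rfl⟩

lemma clo_hlf {σ : ℕ → Bool} {n : ℕ} (hn : σ n = false) (e : ZMod 2) :
    Clo (pl oa) (ql ob σ) (hlf n e : Set (OO N r s)) := by
  have := clo_of_labels (oa := oa) (ob := ob) (r := r) (s := s) (N := N) (σ := σ)
    (U := {j | j.1 = n ∧ j.2.1 = e}) (by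
      rintro ⟨m, e', l⟩
      rw [tau_apply]
      simp only [mem_ofPred_eq]
      refine and_congr_right fun hm => ?_
      subst hm
      rw [hn]
      simp)
  convert this using 1
  ext x
  constructor
  · rintro ⟨l, i, t, rfl⟩
    exact ⟨_, ⟨rfl, rfl⟩, i, t, rfl⟩
  · rintro ⟨⟨m, e', l⟩, ⟨h1, h2⟩, i, t, rfl⟩
    have : m = n := h1
    subst this
    have : e' = e := h2
    subst this
    exact ⟨l, i, t, rfl⟩

lemma clo_range_inr (σ : ℕ → Bool) : Clo (pl oa) (ql ob σ) (range Sum.inr : Set (OO N r s)) := by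
  rintro _ ⟨z, rfl⟩ y hy
  rcases y with ⟨j', i', t'⟩ | z'
  · exfalso
    rcases hy with hy | hy
    · simp [pl] at hy
    · rw [ql_inl, ql_inr] at hy
      split_ifs at hy
  · exact ⟨z', rfl⟩

theorem minC_blk (hr : 2 ≤ r) (hs : 2 ≤ s) {σ : ℕ → Bool} {n : ℕ} (hn : σ n = true) :
    MinC (pl oa) (ql ob σ) (blk n : Set (OO N r s)) := by
  refine ⟨⟨Sum.inl (⟨n, 0, 0⟩, ⟨0, by omega⟩, ⟨0, by omega⟩), 0, 0, _, _, rfl⟩, clo_blk σ n, ?_⟩
  rintro S hS ⟨x, hx⟩ hclo
  obtain ⟨e, l, i, t, rfl⟩ := hS hx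
  exact hS.antisymm (blk_subset hr hs hclo hn hx)

theorem of_minC (hr : 2 ≤ r) (hs : 2 ≤ s) (hN : oa.getD 0 + ob.getD 0 ≤ N) {σ : ℕ → Bool} {n : ℕ}
    {S : Set (OO N r s)} (hS : MinC (pl oa) (ql ob σ) S) (hcard : S.ncard = 2 * len N n * (r * s)) :
    σ n = true := by
  have hrs : 0 < r * s := Nat.mul_pos (by omega) (by omega)
  have hpos : 0 < 2 * len N n * (r * s) := Nat.mul_pos (by simp [len]) hrs
  have hfin : S.Finite := Set.finite_of_ncard_pos (by rw [hcard]; exact hpos)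
  obtain ⟨x, hx⟩ := hS.1
  rcases x with ⟨⟨m, e, l⟩, i, t⟩ | z
  · cases hm : σ m with
    | true =>
      have h1 : S ⊆ blk m := hS.subset (clo_blk σ m) ⟨_, hx, e, l, i, t, rfl⟩
      have h2 := h1.antisymm (blk_subset hr hs hS.2.1 hm hx)
      rw [h2, ncard_blk] at hcard
      have h3 := Nat.eq_of_mul_eq_mul_right hrs hcard
      have h4 : m = n := by
        simp only [len] at h3
        omega
      rw [← h4]
      exact hm
    | false =>
      exfalso
      have h1 : S ⊆ hlf m e := hS.subset (clo_hlf hm e) ⟨_, hx, l, i, t, rfl⟩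
      have h2 := h1.antisymm (hlf_subset hr hs hS.2.1 hm hx)
      rw [h2, ncard_hlf] at hcard
      have h3 := Nat.eq_of_mul_eq_mul_right hrs hcard
      simp only [len] at h3
      omega
  · exfalso
    have h1 : S ⊆ range Sum.inr := hS.subset (clo_range_inr σ) ⟨_, hx, z, rfl⟩
    let S0 : Set ℕ := Sum.inr ⁻¹' S
    have h2 : (Sum.inr : ℕ → OO N r s) '' S0 = S := image_preimage_eq_of_subset h1
    have h3 : S0.ncard = S.ncard := by
      rw [← h2, Set.ncard_image_of_injective _ Sum.inr_injective]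
    have h4 : S0.Finite := hfin.preimage Sum.inr_injective.injOn
    have hclo : ∀ T : Set ℕ, Clo (lab oa r) (lab ob s) T ↔
        Clo (pl oa) (ql ob σ) ((Sum.inr : ℕ → OO N r s) '' T) := by
      intro T
      constructor
      · rintro h _ ⟨x, hx, rfl⟩ y hy
        obtain ⟨y', rfl⟩ := clo_range_inr σ _ ⟨x, rfl⟩ y hy
        refine ⟨y', h x hx y' ?_, rfl⟩
        rcases hy with hy | hy
        · left; exact Sum.inr_injective hy
        · right; exact Sum.inr_injective hy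
      · intro h x hx y hy
        obtain ⟨z, hz, hzy⟩ := h (Sum.inr x) ⟨x, hx, rfl⟩ (Sum.inr y) (by
          rcases hy with hy | hy
          · left; exact congrArg Sum.inr hy
          · right; exact congrArg Sum.inr hy)
        rwa [← Sum.inr_injective hzy]
    have h5 : MinC (lab oa r) (lab ob s) S0 := by
      refine ⟨⟨z, hx⟩, (hclo _).2 (by rw [h2]; exact hS.2.1), fun T hT hne hT2 => ?_⟩
      have h6 := hS.2.2 ((Sum.inr : ℕ → OO N r s) '' T) (by rw [← h2]; exact image_mono hT)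
        (hne.image _) ((hclo T).1 hT2)
      rw [← h2] at h6
      exact (Set.image_injective.2 Sum.inr_injective) h6
    have h6 := ncard_le_of_minC (by omega) (by omega) h5 h4
    rw [h3, hcard] at h6
    have h7 : (2 * N + 1) * 1 ≤ len N n * (r * s) := Nat.mul_le_mul (by simp [len]) hrs
    have h8 : 1 * (r * s) ≤ len N n * (r * s) := Nat.mul_le_mul (by simp [len]) le_rfl
    have h9 : 2 * len N n * (r * s) = len N n * (r * s) + len N n * (r * s) := by ring
    omega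

/-- **Rigidity of the coding.** -/
theorem code_inj (hr : 2 ≤ r) (hs : 2 ≤ s) (hN : oa.getD 0 + ob.getD 0 ≤ N) {σ τ : ℕ → Bool}
    (θ : OO N r s ≃ OO N r s) (h1 : ∀ x y, pl oa x = pl oa y ↔ pl oa (θ x) = pl oa (θ y))
    (h2 : ∀ x y, ql ob σ x = ql ob σ y ↔ ql ob τ (θ x) = ql ob τ (θ y)) : σ = τ := by
  have key : ∀ (σ τ : ℕ → Bool) (θ : OO N r s ≃ OO N r s)
      (_ : ∀ x y, pl oa x = pl oa y ↔ pl oa (θ x) = pl oa (θ y))
      (_ : ∀ x y, ql ob σ x = ql ob σ y ↔ ql ob τ (θ x) = ql ob τ (θ y)) (n : ℕ),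
      σ n = true → τ n = true := by
    intro σ τ θ h1 h2 n hn
    have h3 := (minC_blk (oa := oa) (ob := ob) (N := N) hr hs hn).image θ h1 h2
    refine of_minC hr hs hN h3 ?_
    rw [Set.ncard_image_of_injective _ θ.injective, ncard_blk]
  funext n
  have k1 := key σ τ θ h1 h2 n
  have g1 : ∀ x y, pl oa x = pl oa y ↔ pl oa (θ.symm x) = pl oa (θ.symm y) := by
    intro x y
    have := h1 (θ.symm x) (θ.symm y)
    rw [Equiv.apply_symm_apply, Equiv.apply_symm_apply] at this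
    exact this.symm
  have g2 : ∀ x y, ql ob τ x = ql ob τ y ↔ ql ob σ (θ.symm x) = ql ob σ (θ.symm y) := by
    intro x y
    have := h2 (θ.symm x) (θ.symm y)
    rw [Equiv.apply_symm_apply, Equiv.apply_symm_apply] at this
    exact this.symm
  have k2 := key τ σ θ.symm g1 g2 n
  cases h : σ n with
  | true => rw [k1 h]
  | false =>
    cases h' : τ n with
    | true => rw [k2 h'] at h; exact h.symm ▸ rfl
    | false => rfl

end

end Pool.Agent.H59.TV
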