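import Pool.Agent.H59.TV.DC3
import Pool.Agent.H71.Dich

/-!
Two cellular groups with nontrivial classes have perfectly many double cosets.
-/

set_option autoImplicit false

open Set Pool.Agent.H71

namespace Pool.Agent.H59.TV

attribute [local instance] permTop polishSpace_perm isTopologicalGroup_perm permMeas
  borelSpace_perm

/-! ### The partition attached to a cellular group -/

/-- the union of the classes of the points of an orbit -/
def AA (G : Subgroup (Equiv.Perm ℕ)) (a : ℕ) : Set ℕ := ⋃ x ∈ orb G ∅ a, cls G x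

section
variable {G : Subgroup (Equiv.Perm ℕ)}

lemma notMem_acl_of_orb {a x : ℕ} (ha : a ∉ acl G ∅) (hx : x ∈ orb G ∅ a) : x ∉ acl G ∅ := by
  obtain ⟨g, hg, rfl⟩ := hx
  exact fun h => ha ((acl_empty_apply hg.1 a).1 h)

lemma AA_infinite {a : ℕ} (ha : a ∉ acl G ∅) : (AA G a).Infinite := by
  have h1 : (orb G ∅ a).Infinite := ha
  refine h1.mono fun x hx => ?_
  exact mem_biUnion hx (self_mem_cls (notMem_acl_of_orb ha hx))

lemma apply_mem_AA {a : ℕ} {g : Equiv.Perm ℕ} (hg : g ∈ G) {x : ℕ} (hx : x ∈ AA G a) :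
    g x ∈ AA G a := by
  obtain ⟨y, hy, hxy⟩ := mem_iUnion₂.1 hx
  refine mem_biUnion (x := g y) (orb_trans hy ⟨g, ⟨hg, by simp⟩, rfl⟩) ?_
  rw [cls_apply hg]
  exact mem_image_of_mem _ hxy

lemma apply_mem_AA_iff {a : ℕ} {g : Equiv.Perm ℕ} (hg : g ∈ G) {x : ℕ} :
    g x ∈ AA G a ↔ x ∈ AA G a := by
  refine ⟨fun h => ?_, apply_mem_AA hg⟩
  have := apply_mem_AA (G.inv_mem hg) h
  rwa [inv_app] at this

lemma CRel_apply {a : ℕ} {g : Equiv.Perm ℕ} (hg : g ∈ G) (x y : ℕ) :
    CRel (AA G a) (cls G) (g x) (g y) ↔ CRel (AA G a) (cls G) x y := by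
  unfold CRel
  rw [apply_mem_AA_iff hg, apply_mem_AA_iff hg, cls_apply hg, cls_apply hg, g.injective.eq_iff,
    (Set.image_injective.2 g.injective).eq_iff]

lemma Cel.isPart (hG : Cel G) {a : ℕ} (ha : a ∉ acl G ∅) :
    IsPart (AA G a) (cls G) (cls G a).ncard := by
  intro b hb
  obtain ⟨x, hx, hbx⟩ := mem_iUnion₂.1 hb
  have hx0 := notMem_acl_of_orb ha hx
  have hbc : cls G b = cls G x := hG.cls_eq hx0 hbx
  obtain ⟨g, hg, hgx⟩ := hx
  refine ⟨self_mem_cls hbx.2, hG.cls_finite b, ?_, fun c hc => ?_⟩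
  · rw [hbc, ← hgx, cls_apply hg.1, Set.ncard_image_of_injective _ g.injective]
  · rw [hbc] at hc ⊢
    exact ⟨mem_biUnion (x := x) ⟨g, hg, hgx⟩ hc, hG.cls_eq hx0 hc⟩

end

/-! ### The partition given by the labels -/

lemma exists_sg (B : Set ℕ) : ∃ o : Option ℕ, Nonempty (B ≃ sg o) := by
  classical
  by_cases hB : B.Finite
  · refine ⟨some B.ncard, ?_⟩
    have h1 : Finite B := hB
    have h2 : Finite (sg (some B.ncard)) := Set.finite_Iio _
    refine Finite.card_eq.1 ?_
    show Nat.card B = Nat.card (Set.Iio B.ncard)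
    rw [Nat.card_coe_set_eq, Nat.card_coe_set_eq, ← Finset.coe_Iio, Set.ncard_coe_finset,
      Nat.card_Iio]
  · have h1 : Infinite B := Set.infinite_coe_iff.2 hB
    refine ⟨none, ?_⟩
    show Nonempty (B ≃ (univ : Set ℕ))
    have h2 : Infinite (univ : Set ℕ) := Set.infinite_coe_iff.2 infinite_univ
    exact nonempty_equiv_of_countable

section
variable {N r s : ℕ}

lemma lab_sg {o : Option ℕ} {z z' : ℕ} (hz : z ∈ sg o) (h : lab o r z' = lab o r z) : z' = z := by
  cases o with
  | none => exact Sum.inl_injective h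
  | some a =>
    have hz' : z < a := hz
    simp only [lab, if_pos hz'] at h
    split_ifs at h
    exact Sum.inl_injective h

lemma lab_notMem_sg {o : Option ℕ} {z z' : ℕ} (hz : z ∉ sg o) (h : lab o r z' = lab o r z) :
    z' ∉ sg o := by
  intro h'
  exact hz (lab_sg h' h.symm ▸ h')

lemma lab_class (hr : 0 < r) {o : Option ℕ} {z : ℕ} (hz : z ∉ sg o) :
    {z' | lab o r z' = lab o r z}.Finite ∧ {z' | lab o r z' = lab o r z}.ncard = r := by
  cases o with
  | none => exact absurd (mem_univ z) hz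
  | some a =>
    have hz' : ¬ z < a := hz
    have h1 : {z' | lab (some a) r z' = lab (some a) r z} =
        Set.Ico (a + r * ((z - a) / r)) (a + r * ((z - a) / r) + r) := by
      ext y
      simp only [mem_ofPred_eq, lab, if_neg hz', mem_Ico]
      split_ifs with h
      · simp only [false_iff, not_and, not_lt]
        intro h2
        omega
      · rw [Sum.inr.injEq]
        constructor
        · intro h2
          rw [← h2]
          have h3 := Nat.div_add_mod (y - a) r
          have h4 := Nat.mod_lt (y - a) hr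
          omega
        · rintro ⟨h2, h3⟩
          rw [Nat.div_eq_iff hr]
          have h4 : r * ((z - a) / r) = (z - a) / r * r := mul_comm _ _
          omega
    rw [h1]
    refine ⟨Set.finite_Ico _ _, ?_⟩
    rw [← Finset.coe_Ico, Set.ncard_coe_finset, Nat.card_Ico]
    omega

lemma pl_iso (hr : 0 < r) (hs : 0 < s) {A : Set ℕ} {C : ℕ → Set ℕ} (hA : A.Infinite)
    (hC : IsPart A C r) {oa : Option ℕ} (e : (Aᶜ : Set ℕ) ≃ sg oa) :
    ∃ β : OO N r s ≃ ℕ, ∀ x y, pl oa x = pl oa y ↔ CRel A C (β x) (β y) := by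
  classical
  let A' : Set (OO N r s) := (Sum.inr '' sg oa)ᶜ
  let C' : OO N r s → Set (OO N r s) := fun x => {y | pl oa y = pl oa x}
  have hin : ∀ z, (Sum.inr z : OO N r s) ∈ A' ↔ z ∉ sg oa := by
    intro z
    simp only [A', mem_compl_iff, mem_image, Sum.inr.injEq, exists_eq_right]
  have hinl : ∀ p, (Sum.inl p : OO N r s) ∈ A' := by
    intro p
    simp [A']
  have hcl : ∀ x ∈ A', ∀ y, pl oa y = pl oa x → y ∈ A' := by
    rintro (p | z) hx (q | z') h
    · exact hinl _
    · simp [pl] at h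
    · exact hinl _
    · rw [hin] at hx ⊢
      exact lab_notMem_sg hx (Sum.inr_injective h)
  have hne : ∀ x, x ∉ A' → ∀ y, pl oa y = pl oa x → y = x := by
    rintro (p | z) hx (q | z') h
    · exact absurd (hinl _) hx
    · exact absurd (hinl _) hx
    · simp [pl] at h
    · rw [hin, not_not] at hx
      rw [lab_sg hx (Sum.inr_injective h)]
  have hC' : IsPart A' C' r := by
    intro x hx
    have h1 : (C' x).Finite ∧ (C' x).ncard = r := by
      rcases x with ⟨j, i, t⟩ | z
      · have h2 : C' (Sum.inl (j, i, t)) = range (fun i' : Fin r => (Sum.inl (j, i', t) : OO N r s)) := by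
          ext y
          simp only [C', mem_ofPred_eq, mem_range]
          constructor
          · intro h
            rcases y with ⟨j', i', t'⟩ | z'
            · simp only [pl, Sum.inl.injEq, Prod.mk.injEq] at h
              obtain ⟨rfl, rfl⟩ := h
              exact ⟨i', rfl⟩
            · simp [pl] at h
          · rintro ⟨i', rfl⟩
            rfl
        rw [h2]
        refine ⟨finite_range _, ?_⟩
        rw [← image_univ, Set.ncard_image_of_injective, ncard_univ, Nat.card_fin]
        intro i1 i2 h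
        simp only [Sum.inl.injEq, Prod.mk.injEq, true_and, and_true] at h
        exact h
      · have h2 : C' (Sum.inr z) = Sum.inr '' {z' | lab oa r z' = lab oa r z} := by
          ext y
          simp only [C', mem_ofPred_eq, mem_image]
          constructor
          · intro h
            rcases y with ⟨j', i', t'⟩ | z'
            · simp [pl] at h
            · exact ⟨z', Sum.inr_injective h, rfl⟩
          · rintro ⟨z', hz', rfl⟩
            exact congrArg Sum.inr hz'
        rw [hin] at hx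
        obtain ⟨h3, h4⟩ := lab_class hr hx
        rw [h2]
        refine ⟨h3.image _, ?_⟩
        rw [Set.ncard_image_of_injective _ Sum.inr_injective, h4]
    refine ⟨rfl, h1.1, h1.2, fun y hy => ⟨hcl x hx y hy, ?_⟩⟩
    have hy' : pl oa y = pl oa x := hy
    ext w
    simp only [C', mem_ofPred_eq, hy']
  have hA' : A'.Infinite := by
    have hinj : Function.Injective (fun n : ℕ => (Sum.inl ((⟨n, 0, 0⟩ : JJ N), (⟨0, hr⟩ : Fin r),
        (⟨0, hs⟩ : Fin s)) : OO N r s)) := by
      intro n m h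
      simp only [Sum.inl.injEq, Prod.mk.injEq, Sigma.mk.injEq, and_true] at h
      exact h.1
    refine (infinite_range_of_injective hinj).mono ?_
    rintro _ ⟨n, rfl⟩
    exact hinl _
  have e' : (A'ᶜ : Set (OO N r s)) ≃ sg oa := by
    have h1 : A'ᶜ = Sum.inr '' sg oa := compl_compl _
    rw [h1]
    exact (Equiv.Set.image _ _ Sum.inr_injective).symm
  obtain ⟨β, hβ⟩ := exists_isoC hA' hA hC' hC (e'.trans e.symm)
  refine ⟨β, fun x y => ?_⟩
  rw [← hβ]
  unfold CRel
  constructor
  · intro h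
    by_cases hx : x ∈ A'
    · refine Or.inr ⟨hx, hcl x hx y h.symm, ?_⟩
      ext w
      simp only [C', mem_ofPred_eq, h]
    · exact Or.inl (hne x hx y h.symm).symm
  · rintro (h | ⟨hx, hy, h⟩)
    · rw [h]
    · have h1 : y ∈ C' y := rfl
      rw [← h] at h1
      exact h1.symm

/-- exchange of the two coordinates -/
def swp : OO N r s ≃ OO N s r where
  toFun
    | Sum.inl (j, i, t) => Sum.inl (j, t, i)
    | Sum.inr z => Sum.inr z
  invFun
    | Sum.inl (j, i, t) => Sum.inl (j, t, i)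
    | Sum.inr z => Sum.inr z
  left_inv x := by
    rcases x with ⟨j, i, t⟩ | z <;> rfl
  right_inv x := by
    rcases x with ⟨j, i, t⟩ | z <;> rfl

lemma pl_swp (o : Option ℕ) (x : OO N r s) : pl o (swp x) = ql0 o x := by
  rcases x with ⟨j, i, t⟩ | z <;> rfl

lemma ql_iso (hr : 0 < r) (hs : 0 < s) {A : Set ℕ} {C : ℕ → Set ℕ} (hA : A.Infinite)
    (hC : IsPart A C s) {ob : Option ℕ} (e : (Aᶜ : Set ℕ) ≃ sg ob) :
    ∃ γ : OO N r s ≃ ℕ, ∀ x y, ql0 ob x = ql0 ob y ↔ CRel A C (γ x) (γ y) := by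
  obtain ⟨β, hβ⟩ := pl_iso (N := N) hs hr hA hC e
  refine ⟨swp.trans β, fun x y => ?_⟩
  rw [Equiv.trans_apply, Equiv.trans_apply, ← hβ, pl_swp, pl_swp]

/-- the family of permutations -/
def gfam (β γ : OO N r s ≃ ℕ) (σ : ℕ → Bool) : Equiv.Perm ℕ := (γ.symm.trans (pim σ)).trans β

lemma measurable_gfam (β γ : OO N r s ≃ ℕ) : Measurable (gfam β γ) := by
  apply measurable_to_perm
  intro a b
  have h1 : ∃ n : ℕ, ∃ F : Bool → ℕ, ∀ σ, gfam β γ σ a = F (σ n) := by
    unfold gfam
    simp only [Equiv.trans_apply]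
    rcases γ.symm a with ⟨⟨n, e, l⟩, i, t⟩ | z
    · refine ⟨n, fun c => β (if t.val = 1 ∧ i.val = 0 then
        Sum.inl (⟨n, e + (if c then (1 : ZMod 2) else 0), l + 1⟩, i, t) else
        Sum.inl (⟨n, e, l⟩, i, t)), fun σ => rfl⟩
    · exact ⟨0, fun c => β (Sum.inr z), fun σ => rfl⟩
  obtain ⟨n, F, hF⟩ := h1
  have h2 : Measurable fun σ : ℕ → Bool => gfam β γ σ a := by
    simp_rw [hF]
    exact (Measurable.of_discrete (f := F)).comp (measurable_pi_apply n)
  exact h2 (measurableSet_singleton b)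

end

/-- **Nontrivial classes on both sides give perfectly many double cosets.** -/
theorem pmdc_of_classes {K H : Subgroup (Equiv.Perm ℕ)} (hK : Cel K) (hH : Cel H) {a b : ℕ}
    (ha : a ∉ acl K ∅) (hb : b ∉ acl H ∅) (hr : 2 ≤ (cls K a).ncard) (hs : 2 ≤ (cls H b).ncard) :
    PMDC K (fun h => h ∈ H) := by
  obtain ⟨oa, ⟨ea⟩⟩ := exists_sg (AA K a)ᶜ
  obtain ⟨ob, ⟨eb⟩⟩ := exists_sg (AA H b)ᶜ
  let N := oa.getD 0 + ob.getD 0
  obtain ⟨β, hβ⟩ := pl_iso (N := N) (r := (cls K a).ncard) (s := (cls H b).ncard) (by omega)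
    (by omega) (AA_infinite ha) (hK.isPart ha) ea
  obtain ⟨γ, hγ⟩ := ql_iso (N := N) (r := (cls K a).ncard) (s := (cls H b).ncard) (by omega)
    (by omega) (AA_infinite hb) (hH.isPart hb) eb
  refine ⟨gfam β γ, measurable_gfam β γ, fun σ τ hne k hk h hh heq => hne ?_⟩
  let θ : OO N (cls K a).ncard (cls H b).ncard ≃ OO N (cls K a).ncard (cls H b).ncard :=
    (β.trans k).trans β.symm
  refine code_inj (oa := oa) (ob := ob) hr hs le_rfl θ (fun x y => ?_) (fun x y => ?_)
  · rw [hβ, hβ]
    simp only [θ, Equiv.trans_apply, Equiv.apply_symm_apply]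
    exact (CRel_apply hk _ _).symm
  · have h1 : ∀ x, (pim τ).symm (θ x) = γ.symm (h (γ ((pim σ).symm x))) := by
      intro x
      have h2 := congrArg (fun e : Equiv.Perm ℕ => e (γ ((pim σ).symm x))) heq
      simp only [Equiv.Perm.mul_apply, gfam, Equiv.trans_apply, Equiv.symm_apply_apply,
        Equiv.apply_symm_apply] at h2
      simp only [θ, Equiv.trans_apply]
      rw [h2]
      simp
    unfold ql
    rw [h1, h1, hγ, hγ, Equiv.apply_symm_apply, Equiv.apply_symm_apply]
    exact (CRel_apply hh _ _).symm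

end Pool.Agent.H59.TV
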