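import Pool.Agent.H59.TV.Fml
import Pool.Agent.H59.TV.Smooth
import Pool.Agent.H59.TV.Code
import Pool.Agent.H71.Gen

/-!
# Products and restrictions to groups which are not oligomorphic
-/

set_option autoImplicit false

open Set Filter Topology Pool.Agent.H71

namespace Pool.Agent.H59.TV

attribute [local instance] permTop polishSpace_perm isTopologicalGroup_perm permMeas
  borelSpace_perm

/-- if all pointwise stabilisers of finite sets have finitely many orbits on points, the group is
oligomorphic -/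
lemma olig_of {K : Subgroup (Equiv.Perm ℕ)}
    (h : ∀ F : Finset ℕ, (range (orb K F)).Finite) : Olig K := by
  classical
  intro n
  induction n with
  | zero => exact ⟨{![]}, finite_singleton _, fun a => ⟨![], rfl, 1, K.one_mem, fun i => i.elim0⟩⟩
  | succ n ih =>
    obtain ⟨E, hE, hEc⟩ := ih
    -- representatives of the orbits on points
    have hrep : ∀ F : Finset ℕ, ∃ R : Set ℕ, R.Finite ∧ ∀ a, ∃ b ∈ R, a ∈ orb K F b := by
      intro F
      choose p hp using fun o : range (orb K F) => o.2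
      have : Finite (range (orb K F)) := h F
      refine ⟨range p, finite_range p, fun a => ⟨p ⟨orb K F a, a, rfl⟩, mem_range_self _, ?_⟩⟩
      have h1 := hp ⟨orb K F a, a, rfl⟩
      simp only at h1
      rw [h1]
      exact self_mem_orb K F a
    choose R hR hRc using hrep
    refine ⟨⋃ e ∈ E, (fun b => (Fin.snoc e b : Fin (n + 1) → ℕ)) '' R (Finset.univ.image e),
      hE.biUnion fun e _ => (hR _).image _, fun a => ?_⟩
    obtain ⟨e, he, g, hg, hge⟩ := hEc (Fin.init a)
    obtain ⟨b, hb, k, hk, hkb⟩ := hRc (Finset.univ.image e) (g⁻¹ (a (Fin.last n)))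
    refine ⟨Fin.snoc e b, mem_biUnion he ⟨b, hb, rfl⟩, g * k, K.mul_mem hg hk.1, fun i => ?_⟩
    refine Fin.lastCases ?_ (fun i => ?_) i
    · rw [Fin.snoc_last, Equiv.Perm.mul_apply, hkb]
      exact Equiv.apply_symm_apply g _
    · rw [Fin.snoc_castSucc, Equiv.Perm.mul_apply,
        hk.2 (e i) (Finset.mem_image_of_mem e (Finset.mem_univ i)), hge]
      rfl

/-- a group that is not oligomorphic has a finite set whose pointwise stabiliser preserves a
colouring with infinitely many colours -/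
lemma exists_col {K : Subgroup (Equiv.Perm ℕ)} (h : ¬ Olig K) :
    ∃ (F : Finset ℕ) (col : ℕ → ℕ), Function.Surjective col ∧ Fx K F ≤ Kc col := by
  classical
  have : ∃ F : Finset ℕ, ¬ (range (orb K F)).Finite := by
    by_contra hcon
    push Not at hcon
    exact h (olig_of hcon)
  obtain ⟨F, hF⟩ := this
  have h1 : Infinite (range (orb K F)) := (show (range (orb K F)).Infinite from hF).to_subtype
  have h2 : Countable (range (orb K F)) := (countable_range _).to_subtype
  have h3 : Nonempty (Denumerable (range (orb K F))) := nonempty_denumerable _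
  let e : range (orb K F) ≃ ℕ := @Denumerable.eqv _ h3.some
  refine ⟨F, fun n => e ⟨orb K F n, n, rfl⟩, ?_, ?_⟩
  · intro m
    obtain ⟨n, hn⟩ := (e.symm m).2
    refine ⟨n, ?_⟩
    have : (⟨orb K F n, n, rfl⟩ : range (orb K F)) = e.symm m := Subtype.ext hn
    simp only [this, Equiv.apply_symm_apply]
  · intro k hk n
    have : (⟨orb K F (k n), k n, rfl⟩ : range (orb K F)) = ⟨orb K F n, n, rfl⟩ :=
      Subtype.ext (orb_eq (apply_mem_orb hk n))
    simp only [this]

variable {Y : Type*} [MeasurableSpace Y] [StandardBorelSpace Y] [MulAction (Equiv.Perm ℕ) Y]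

/-- groups preserving a colouring with infinitely many colours -/
theorem perfect_Kc (hact : Measurable fun p : Equiv.Perm ℕ × Y => p.1 • p.2) {col : ℕ → ℕ}
    (hcol : Function.Surjective col) (hY : ¬ Countable Y) :
    ∃ f : (ℕ → Bool) → Y, Measurable f ∧ ∀ u v, u ≠ v → ∀ k ∈ Kc col, k • f u ≠ f v := by
  have key : ∀ (H : Subgroup (Equiv.Perm ℕ)) (P : Equiv.Perm ℕ → Prop), (∀ h, P h → h ∈ H) →
      (∃ f, Codes col H f) → PMDC (Kc col) P := by
    rintro H P hPH ⟨f, hf, hf'⟩
    refine ⟨f, hf, fun σ τ hne k hk h hP heq => hf' σ τ hne k hk ?_⟩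
    have : (f τ)⁻¹ * k * f σ = h := by
      rw [mul_assoc, heq, inv_mul_cancel_left]
    rw [SetLike.mem_coe, this]
    exact hPH h hP
  refine general hact (isClosed_Kc col).measurableSet ?_ ?_ hY
  · intro A hA hA'
    let H : Subgroup (Equiv.Perm ℕ) :=
      { carrier := {h | ∀ a, h a ∈ A ↔ a ∈ A}
        mul_mem' := by
          intro g h hg hh a
          rw [Equiv.Perm.mul_apply, hg, hh]
        one_mem' := fun _ => Iff.rfl
        inv_mem' := by
          intro g hg a
          rw [← hg (g⁻¹ a)]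
          have : g (g⁻¹ a) = a := Equiv.apply_symm_apply g a
          rw [this] }
    exact key H _ (fun h hh => hh) (code_moiety hcol hA hA' fun h hh => hh)
  · intro F₀ r C hr hC
    let H : Subgroup (Equiv.Perm ℕ) :=
      { carrier := {h | (∀ a, h a ∈ F₀ ↔ a ∈ F₀) ∧ ∀ a, a ∉ F₀ → C (h a) = h '' (C a)}
        mul_mem' := by
          rintro g h ⟨hg, hg'⟩ ⟨hh, hh'⟩
          refine ⟨fun a => by rw [Equiv.Perm.mul_apply, hg, hh], fun a ha => ?_⟩
          rw [Equiv.Perm.mul_apply, hg' _ (fun h' => ha ((hh a).1 h')), hh' a ha, ← image_comp]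
          rfl
        one_mem' := ⟨fun _ => Iff.rfl, fun a _ => by simp⟩
        inv_mem' := by
          rintro g ⟨hg, hg'⟩
          have e1 : ∀ a, g (g⁻¹ a) = a := fun a => Equiv.apply_symm_apply g a
          have e2 : ∀ a, g⁻¹ a ∈ F₀ ↔ a ∈ F₀ := fun a => by rw [← hg (g⁻¹ a), e1]
          refine ⟨e2, fun a ha => ?_⟩
          have h1 := hg' (g⁻¹ a) (fun h' => ha ((e2 a).1 h'))
          rw [e1] at h1
          rw [h1, ← image_comp]
          have h2 : (⇑g⁻¹ ∘ ⇑g) = id := by
            funext b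
            exact Equiv.symm_apply_apply g b
          rw [h2, image_id] }
    exact key H _ (fun h hh => hh) (code_partition hcol hr hC fun h hh => hh)

/-- **Restriction to groups which are not oligomorphic.** -/
theorem perfect_of_not_olig (hact : Measurable fun p : Equiv.Perm ℕ × Y => p.1 • p.2)
    {K : Subgroup (Equiv.Perm ℕ)} (hKm : MeasurableSet (K : Set (Equiv.Perm ℕ)))
    (hK : ¬ Olig K) (hY : ¬ Countable Y) :
    ∃ f : (ℕ → Bool) → Y, Measurable f ∧ ∀ u v, u ≠ v → ∀ k ∈ K, k • f u ≠ f v := by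
  classical
  obtain ⟨F, col, hcol, hFK⟩ := exists_col hK
  obtain ⟨ι, hι, hι'⟩ := perfect_Kc hact hcol hY
  refine perfect_of_countable hact hKm ι hι fun σ => ?_
  -- coset representatives
  have hL : ∀ t : F → ℕ, ∃ l : Equiv.Perm ℕ, (∃ k ∈ K, ∀ a : F, k⁻¹ a = t a) →
      l ∈ K ∧ ∀ a : F, l⁻¹ a = t a := by
    intro t
    by_cases h : ∃ k ∈ K, ∀ a : F, k⁻¹ a = t a
    · obtain ⟨k, hk, hkt⟩ := h
      exact ⟨k, fun _ => ⟨hk, hkt⟩⟩
    · exact ⟨1, fun h' => absurd h' h⟩
  choose l hl using hL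
  have hsub : {τ | ∃ k ∈ K, k • ι σ = ι τ} ⊆
      ⋃ t : F → ℕ, {τ | ∃ k ∈ Kc col, k • l t • ι σ = ι τ} := by
    rintro τ ⟨k, hk, hkτ⟩
    refine mem_iUnion.2 ⟨fun a => k⁻¹ a, k * (l fun a => k⁻¹ a)⁻¹, ?_, ?_⟩
    · obtain ⟨h1, h2⟩ := hl (fun a : F => k⁻¹ a) ⟨k, hk, fun a => rfl⟩
      refine hFK ⟨K.mul_mem hk (K.inv_mem h1), fun a ha => ?_⟩
      rw [Equiv.Perm.mul_apply, h2 ⟨a, ha⟩]
      exact Equiv.apply_symm_apply k a
    · rw [mul_smul, inv_smul_smul]
      exact hkτ
  refine Countable.mono hsub (countable_iUnion fun t => ?_)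
  refine Set.Subsingleton.countable ?_
  rintro τ ⟨k, hk, hkτ⟩ τ' ⟨k', hk', hkτ'⟩
  by_contra hne
  refine hι' τ τ' hne (k' * k⁻¹) ((Kc col).mul_mem hk' ((Kc col).inv_mem hk)) ?_
  rw [← hkτ, mul_smul, inv_smul_smul]
  exact hkτ'

variable {X : Type*} [MeasurableSpace X] [StandardBorelSpace X] [MulAction (Equiv.Perm ℕ) X]

/-- Products with a space having a stabiliser that is not oligomorphic. -/
theorem perfect_prod_of_not_olig (hX : Measurable fun p : Equiv.Perm ℕ × X => p.1 • p.2)
    (hY : Measurable fun p : Equiv.Perm ℕ × Y => p.1 • p.2)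
    (hx : ∃ x : X, ¬ Olig (MulAction.stabilizer (Equiv.Perm ℕ) x)) (hYu : ¬ Countable Y) :
    ∃ f : (ℕ → Bool) → X × Y, Measurable f ∧
      ∀ u v, u ≠ v → ∀ g : Equiv.Perm ℕ, g • f u ≠ f v := by
  obtain ⟨x0, hx0⟩ := hx
  have hcl := isClosed_stabilizer hX x0
  obtain ⟨f, hf, hf'⟩ := perfect_of_not_olig hY hcl.measurableSet hx0 hYu
  refine ⟨fun u => (x0, f u), measurable_const.prodMk hf, fun u v huv g hg => ?_⟩
  have h1 : g • x0 = x0 := (Prod.ext_iff.1 hg).1
  have h2 : g • f u = f v := (Prod.ext_iff.1 hg).2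
  exact hf' u v huv g (MulAction.mem_stabilizer_iff.2 h1) h2

/-- **Products.** -/
theorem perfect_prod (hX : Measurable fun p : Equiv.Perm ℕ × X => p.1 • p.2)
    (hY : Measurable fun p : Equiv.Perm ℕ × Y => p.1 • p.2)
    (hXu : ¬ Countable (Quotient (MulAction.orbitRel (Equiv.Perm ℕ) X))) (hYu : ¬ Countable Y) :
    ∃ f : (ℕ → Bool) → X × Y, Measurable f ∧
      ∀ u v, u ≠ v → ∀ g : Equiv.Perm ℕ, g • f u ≠ f v := by
  classical
  by_cases hol : ∀ x : X, Olig (MulAction.stabilizer (Equiv.Perm ℕ) x)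
  · obtain ⟨Θ, hΘ, hΘinv, hΘeq⟩ := smooth_of_olig hX hol
    have hunc : ¬ (range Θ).Countable := by
      intro hc
      apply hXu
      have : Countable (range Θ) := hc.to_subtype
      let q : Quotient (MulAction.orbitRel (Equiv.Perm ℕ) X) → range Θ :=
        Quotient.lift (fun x => (⟨Θ x, x, rfl⟩ : range Θ)) (by
          intro a b hab
          obtain ⟨g, hg⟩ := (MulAction.orbitRel_apply (G := Equiv.Perm ℕ)).1 hab
          apply Subtype.ext
          show Θ a = Θ b
          rw [← hg]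
          exact hΘinv g b)
      refine Function.Injective.countable (f := q) ?_
      intro a b
      refine Quotient.inductionOn₂ a b fun a b hab => ?_
      obtain ⟨g, hg⟩ := hΘeq b a (Subtype.ext_iff.1 hab).symm
      exact Quotient.sound ((MulAction.orbitRel_apply (G := Equiv.Perm ℕ)).2 ⟨g, hg⟩)
    obtain ⟨f, hf, hf'⟩ := exists_perfect_of_smooth Θ hΘ hunc
    have hYne : Nonempty Y := by
      by_contra hne
      rw [not_nonempty_iff] at hne
      exact hYu inferInstance
    obtain ⟨y0⟩ := hYne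
    refine ⟨fun u => (f u, y0), hf.prodMk measurable_const, fun u v huv g hg => hf' u v huv ?_⟩
    have h1 : g • f u = f v := (Prod.ext_iff.1 hg).1
    rw [← h1]
    exact (hΘinv g _).symm
  · push Not at hol
    exact perfect_prod_of_not_olig hX hY hol hYu

end Pool.Agent.H59.TV
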