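import Pool.Agent.H59.TV.DC4
import Pool.Agent.H59.TV.Prod

/-!
The dichotomy for products of two uncountable Borel `S_∞`-spaces.
-/

set_option autoImplicit false

open Set Pool.Agent.H71

namespace Pool.Agent.H59.TV

attribute [local instance] permTop polishSpace_perm isTopologicalGroup_perm permMeas
  borelSpace_perm

lemma Fx_le (H : Subgroup (Equiv.Perm ℕ)) (F : Finset ℕ) : Fx H F ≤ H := fun _ hg => hg.1

lemma cls_subset_singleton {G : Subgroup (Equiv.Perm ℕ)} (hG : Cel G) {a : ℕ}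
    (ha : a ∉ acl G ∅) (h : (cls G a).ncard < 2) : cls G a ⊆ {a} := by
  have h1 : (cls G a).ncard ≤ 1 := by omega
  rw [Set.ncard_le_one_iff (hG.cls_finite a)] at h1
  intro b hb
  exact h1 hb (self_mem_cls ha)

/-- **Double cosets of cellular groups.** -/
theorem cdc_or_pmdc {K H : Subgroup (Equiv.Perm ℕ)} (hK : IsClosed (K : Set (Equiv.Perm ℕ)))
    (hH : IsClosed (H : Set (Equiv.Perm ℕ))) {F0 F1 : Finset ℕ} (hKc : Cel (Fx K F0))
    (hHc : Cel (Fx H F1)) : CDC K H ∨ PMDC (Fx K F0) (fun h => h ∈ Fx H F1) := by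
  have hK' : Clsd (Fx K F0) := clsd_of_isClosed (isClosed_Fx hK F0)
  have hH' : Clsd (Fx H F1) := clsd_of_isClosed (isClosed_Fx hH F1)
  by_cases h1 : ∃ b, b ∉ acl (Fx H F1) ∅ ∧ 2 ≤ (cls (Fx H F1) b).ncard
  · by_cases h2 : ∃ a, a ∉ acl (Fx K F0) ∅ ∧ 2 ≤ (cls (Fx K F0) a).ncard
    · obtain ⟨b, hb, hb2⟩ := h1
      obtain ⟨a, ha, ha2⟩ := h2
      exact Or.inr (pmdc_of_classes hKc hHc ha hb ha2 hb2)
    · push Not at h2
      left
      exact (cdc_of_trivial hHc hH' hKc hK'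
        fun a ha => cls_subset_singleton hKc ha (h2 a ha)).symm.mono (Fx_le _ _) (Fx_le _ _)
  · push Not at h1
    left
    exact (cdc_of_trivial hKc hK' hHc hH'
      fun a ha => cls_subset_singleton hHc ha (h1 a ha)).mono (Fx_le _ _) (Fx_le _ _)

/-- Double cosets of stabilisers. -/
theorem cdc_or_perfect {X Y : Type*} [MeasurableSpace X] [StandardBorelSpace X]
    [MulAction (Equiv.Perm ℕ) X] [MeasurableSpace Y] [StandardBorelSpace Y]
    [MulAction (Equiv.Perm ℕ) Y] (hX : Measurable fun p : Equiv.Perm ℕ × X => p.1 • p.2)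
    (hY : Measurable fun p : Equiv.Perm ℕ × Y => p.1 • p.2) (hXu : Uncountable X)
    (hYu : Uncountable Y) (x : X) (y : Y) :
    (∃ f : (ℕ → Bool) → X × Y, Measurable f ∧ ∀ u v, u ≠ v → ∀ g : Equiv.Perm ℕ,
      g • f u ≠ f v) ∨
    CDC (MulAction.stabilizer (Equiv.Perm ℕ) x) (MulAction.stabilizer (Equiv.Perm ℕ) y) := by
  by_cases hno : ∃ f : (ℕ → Bool) → X × Y, Measurable f ∧ ∀ u v, u ≠ v →
      ∀ g : Equiv.Perm ℕ, g • f u ≠ f v
  · exact Or.inl hno
  right
  have hKcl := isClosed_stabilizer hX x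
  have hHcl := isClosed_stabilizer hY y
  have hK : ¬ ∃ f : (ℕ → Bool) → Y, Measurable f ∧ ∀ u v, u ≠ v →
      ∀ k ∈ MulAction.stabilizer (Equiv.Perm ℕ) x, k • f u ≠ f v := by
    rintro ⟨f, hf, hf'⟩
    refine hno ⟨fun u => (x, f u), measurable_const.prodMk hf, fun u v huv g hg => ?_⟩
    have h1 : g • x = x := (Prod.ext_iff.1 hg).1
    have h2 : g • f u = f v := (Prod.ext_iff.1 hg).2
    exact hf' u v huv g (MulAction.mem_stabilizer_iff.2 h1) h2
  have hH : ¬ ∃ f : (ℕ → Bool) → X, Measurable f ∧ ∀ u v, u ≠ v →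
      ∀ k ∈ MulAction.stabilizer (Equiv.Perm ℕ) y, k • f u ≠ f v := by
    rintro ⟨f, hf, hf'⟩
    refine hno ⟨fun u => (f u, y), hf.prodMk measurable_const, fun u v huv g hg => ?_⟩
    have h1 : g • f u = f v := (Prod.ext_iff.1 hg).1
    have h2 : g • y = y := (Prod.ext_iff.1 hg).2
    exact hf' u v huv g (MulAction.mem_stabilizer_iff.2 h2) h1
  obtain ⟨F0, k1, k2, k3, k4⟩ := exists_cell hY hYu hKcl hK
  obtain ⟨F1, l1, l2, l3, l4⟩ := exists_cell hX hXu hHcl hH
  rcases cdc_or_pmdc hKcl hHcl ⟨k1, k2, k3, k4⟩ ⟨l1, l2, l3, l4⟩ with h | h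
  · exact h
  · exfalso
    apply hK
    refine perfect_of_countable_index hY hKcl.measurableSet
      (countable_Fx (MulAction.stabilizer (Equiv.Perm ℕ) x) F0) ?_
    exact perfect_of_pmdc hY (isClosed_Fx hKcl F0).measurableSet y F1 h

/-- Orbits of stabilisers on subsets, first factor. -/
theorem subsets_left {X Y : Type*} [MeasurableSpace X] [StandardBorelSpace X]
    [MulAction (Equiv.Perm ℕ) X] [MeasurableSpace Y] [StandardBorelSpace Y]
    [MulAction (Equiv.Perm ℕ) Y] (hX : Measurable fun p : Equiv.Perm ℕ × X => p.1 • p.2)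
    (hY : Measurable fun p : Equiv.Perm ℕ × Y => p.1 • p.2) (hYu : Uncountable Y)
    (hno : ¬ ∃ f : (ℕ → Bool) → X × Y, Measurable f ∧ ∀ u v, u ≠ v → ∀ g : Equiv.Perm ℕ,
      g • f u ≠ f v) (x : X) : CountableOnSubsets (MulAction.stabilizer (Equiv.Perm ℕ) x) := by
  rcases perfect_or_countable hY hYu (isClosed_stabilizer hX x) with h | h
  · exfalso
    obtain ⟨f, hf, hf'⟩ := h
    refine hno ⟨fun u => (x, f u), measurable_const.prodMk hf, fun u v huv g hg => ?_⟩
    have h1 : g • x = x := (Prod.ext_iff.1 hg).1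
    have h2 : g • f u = f v := (Prod.ext_iff.1 hg).2
    exact hf' u v huv g (MulAction.mem_stabilizer_iff.2 h1) h2
  · exact h

/-- Orbits of stabilisers on subsets, second factor. -/
theorem subsets_right {X Y : Type*} [MeasurableSpace X] [StandardBorelSpace X]
    [MulAction (Equiv.Perm ℕ) X] [MeasurableSpace Y] [StandardBorelSpace Y]
    [MulAction (Equiv.Perm ℕ) Y] (hX : Measurable fun p : Equiv.Perm ℕ × X => p.1 • p.2)
    (hY : Measurable fun p : Equiv.Perm ℕ × Y => p.1 • p.2) (hXu : Uncountable X)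
    (hno : ¬ ∃ f : (ℕ → Bool) → X × Y, Measurable f ∧ ∀ u v, u ≠ v → ∀ g : Equiv.Perm ℕ,
      g • f u ≠ f v) (y : Y) : CountableOnSubsets (MulAction.stabilizer (Equiv.Perm ℕ) y) := by
  rcases perfect_or_countable hX hXu (isClosed_stabilizer hY y) with h | h
  · exfalso
    obtain ⟨f, hf, hf'⟩ := h
    refine hno ⟨fun u => (f u, y), hf.prodMk measurable_const, fun u v huv g hg => ?_⟩
    have h1 : g • f u = f v := (Prod.ext_iff.1 hg).1
    have h2 : g • y = y := (Prod.ext_iff.1 hg).2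
    exact hf' u v huv g (MulAction.mem_stabilizer_iff.2 h2) h1
  · exact h

/-- Countably many double cosets for all pairs of stabilisers and countably many orbits on the
factors give countably many orbits on the product. -/
theorem countable_prod {X Y : Type*} [MulAction (Equiv.Perm ℕ) X] [MulAction (Equiv.Perm ℕ) Y]
    (hX : Countable (Quotient (MulAction.orbitRel (Equiv.Perm ℕ) X)))
    (hY : Countable (Quotient (MulAction.orbitRel (Equiv.Perm ℕ) Y)))
    (h : ∀ (x : X) (y : Y),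
      CDC (MulAction.stabilizer (Equiv.Perm ℕ) x) (MulAction.stabilizer (Equiv.Perm ℕ) y)) :
    Countable (Quotient (MulAction.orbitRel (Equiv.Perm ℕ) (X × Y))) := by
  classical
  choose R hR hR' using h
  rw [← Set.countable_univ_iff]
  refine Set.Countable.mono (s₂ := ⋃ p : Quotient (MulAction.orbitRel (Equiv.Perm ℕ) X) ×
    Quotient (MulAction.orbitRel (Equiv.Perm ℕ) Y), (fun r : Equiv.Perm ℕ =>
      (Quotient.mk (MulAction.orbitRel (Equiv.Perm ℕ) (X × Y)) (p.1.out, r • p.2.out))) ''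
      R p.1.out p.2.out) ?_ (Set.countable_iUnion fun p => (hR _ _).image _)
  intro q _
  refine Quotient.inductionOn q ?_
  rintro ⟨x, y⟩
  obtain ⟨a, ha⟩ : ∃ a : Equiv.Perm ℕ, a • (Quotient.mk (MulAction.orbitRel (Equiv.Perm ℕ) X) x).out = x := by
    have := (Quotient.mk_out (s := MulAction.orbitRel (Equiv.Perm ℕ) X) x)
    obtain ⟨g, hg⟩ := (MulAction.orbitRel_apply (G := Equiv.Perm ℕ)).1 this
    refine ⟨g⁻¹, ?_⟩
    rw [← hg, inv_smul_smul]
  obtain ⟨b, hb⟩ : ∃ b : Equiv.Perm ℕ, b • (Quotient.mk (MulAction.orbitRel (Equiv.Perm ℕ) Y) y).out = y := by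
    have := (Quotient.mk_out (s := MulAction.orbitRel (Equiv.Perm ℕ) Y) y)
    obtain ⟨g, hg⟩ := (MulAction.orbitRel_apply (G := Equiv.Perm ℕ)).1 this
    refine ⟨g⁻¹, ?_⟩
    rw [← hg, inv_smul_smul]
  generalize hx0 : (Quotient.mk (MulAction.orbitRel (Equiv.Perm ℕ) X) x).out = x0 at ha
  generalize hy0 : (Quotient.mk (MulAction.orbitRel (Equiv.Perm ℕ) Y) y).out = y0 at hb
  obtain ⟨r, hr, k, hk, l, hl, hkl⟩ := hR' x0 y0 (a⁻¹ * b)
  refine mem_iUnion.2 ⟨(Quotient.mk _ x, Quotient.mk _ y), r, ?_, ?_⟩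
  · simp only [hx0, hy0]
    exact hr
  · simp only [hx0, hy0]
    apply Quotient.sound
    refine (MulAction.orbitRel_apply (G := Equiv.Perm ℕ)).2 ⟨k * a⁻¹, ?_⟩
    show ((k * a⁻¹) • x, (k * a⁻¹) • y) = (x0, r • y0)
    have hk' : k • x0 = x0 := MulAction.mem_stabilizer_iff.1 hk
    have hl' : l • y0 = y0 := MulAction.mem_stabilizer_iff.1 hl
    refine Prod.ext ?_ ?_
    · show (k * a⁻¹) • x = x0
      rw [← ha, mul_smul, inv_smul_smul, hk']
    · show (k * a⁻¹) • y = r • y0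
      rw [← hb, ← mul_smul, mul_assoc, hkl, mul_smul, hl']

end Pool.Agent.H59.TV
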