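import Pool.Agent.H59.TV.Vaught
import Pool.Agent.H71.PermTop

/-!
# The relations attached to a point of a Borel space of the permutation group
-/

set_option autoImplicit false

open Set Filter Topology Pool.Agent.H71

namespace Pool.Agent.H59.TV

attribute [local instance] permTop polishSpace_perm isTopologicalGroup_perm permMeas
  borelSpace_perm

/-- basic open sets -/
def Ua {k : ℕ} (a : Fin k → ℕ) : Set (Equiv.Perm ℕ) := {g | ∀ i : Fin k, g (a i) = i}

lemma isOpen_Ua {k : ℕ} (a : Fin k → ℕ) : IsOpen (Ua a) := by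
  have : Ua a = ⋂ i : Fin k, {g : Equiv.Perm ℕ | g (a i) = i} := by
    ext g; simp [Ua]
  rw [this]
  exact isOpen_iInter_of_finite fun i => isOpen_apply_eq _ _

lemma exists_Ua_subset {V : Set (Equiv.Perm ℕ)} (hV : IsOpen V) {v : Equiv.Perm ℕ} (hv : v ∈ V) :
    ∃ k : ℕ, v ∈ Ua (fun i : Fin k => v.symm i) ∧ Ua (fun i : Fin k => v.symm i) ⊆ V := by
  have hmem : ∀ k : ℕ, v ∈ Ua (fun i : Fin k => v.symm i) := fun k i => by simp
  by_contra hcon
  push Not at hcon
  have hc : ∀ k : ℕ, ∃ g, g ∈ Ua (fun i : Fin k => v.symm i) ∧ g ∉ V := by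
    intro k
    have := hcon k (hmem k)
    rw [not_subset] at this
    exact this
  choose g hg hgV using hc
  have ht : Tendsto g atTop (𝓝 v) := by
    apply tendsto_perm
    · intro a
      filter_upwards [eventually_gt_atTop (v a)] with k hk
      have := hg k ⟨v a, hk⟩
      simpa using this
    · intro a
      filter_upwards [eventually_gt_atTop a] with k hk
      have := hg k ⟨a, hk⟩
      simp only at this
      rw [Equiv.symm_apply_eq, this]
  obtain ⟨k, hk⟩ := (ht.eventually (hV.mem_nhds hv)).exists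
  exact hgV k hk

variable {X : Type*} [MulAction (Equiv.Perm ℕ) X]

/-- the relations attached to `x`, for a map `φ` to the Cantor space -/
def Rel (φ : X → ℕ → Bool) (m k : ℕ) (x : X) (a : Fin k → ℕ) : Prop :=
  ¬ IsMeagre ({g : Equiv.Perm ℕ | φ (g • x) m = true} ∩ Ua a)

lemma Rel_smul (φ : X → ℕ → Bool) (m k : ℕ) (h : Equiv.Perm ℕ) (x : X) (a : Fin k → ℕ) :
    Rel φ m k (h • x) (fun i => h (a i)) ↔ Rel φ m k x a := by
  unfold Rel
  rw [not_iff_not]
  have hpre : ({g : Equiv.Perm ℕ | φ (g • h • x) m = true} ∩ Ua fun i => h (a i)) =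
      (fun g => g * h) ⁻¹' ({g : Equiv.Perm ℕ | φ (g • x) m = true} ∩ Ua a) := by
    ext g
    simp only [Ua, mem_inter_iff, mem_ofPred_eq, mem_preimage, Equiv.Perm.mul_apply, mul_smul]
  rw [hpre]
  unfold IsMeagre
  rw [← preimage_compl]
  have e := (Homeomorph.mulRight h).residual_map_eq
  have e2 : Filter.map (fun g : Equiv.Perm ℕ => g * h) (residual (Equiv.Perm ℕ)) =
      residual (Equiv.Perm ℕ) := e
  rw [← Filter.mem_map, e2]

variable [MeasurableSpace X]

lemma Rel_measurable {φ : X → ℕ → Bool} (hφ : Measurable φ)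
    (hact : Measurable fun p : Equiv.Perm ℕ × X => p.1 • p.2) (m k : ℕ) (a : Fin k → ℕ) :
    MeasurableSet {x | Rel φ m k x a} := by
  have hB : MeasurableSet {p : X × Equiv.Perm ℕ | φ (p.2 • p.1) m = true} := by
    have h1 : Measurable fun p : X × Equiv.Perm ℕ => φ (p.2 • p.1) m :=
      (measurable_pi_apply m).comp (hφ.comp (hact.comp measurable_swap))
    exact h1 (measurableSet_singleton true)
  exact measurable_NM hB (Ua a) (isOpen_Ua a)

lemma generic_iff_aux {φ : X → ℕ → Bool} (hφ : Measurable φ)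
    (hact : Measurable fun p : Equiv.Perm ℕ × X => p.1 • p.2) {x y : X}
    (h : ∀ m k (a : Fin k → ℕ), Rel φ m k x a ↔ Rel φ m k y a) (m : ℕ) :
    IsMeagre {g : Equiv.Perm ℕ | φ (g • x) m = true ∧ ¬ φ (g • y) m = true} := by
  have hmeas : ∀ z : X, MeasurableSet {g : Equiv.Perm ℕ | φ (g • z) m = true} := by
    intro z
    have h1 : Measurable fun g : Equiv.Perm ℕ => φ (g • z) m :=
      (measurable_pi_apply m).comp (hφ.comp (hact.comp (measurable_id.prodMk measurable_const)))
    exact h1 (measurableSet_singleton true)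
  by_contra hnm
  have hb : BaireMeasurableSet
      ({g : Equiv.Perm ℕ | φ (g • x) m = true} \ {g : Equiv.Perm ℕ | φ (g • y) m = true}) :=
    ((hmeas x).diff (hmeas y)).baireMeasurableSet
  obtain ⟨V, hV, ⟨v, hv⟩, -, hVm⟩ := baire_inter_open hb isOpen_univ (by
    rw [inter_univ]
    exact hnm)
  obtain ⟨k, hvk, hk⟩ := exists_Ua_subset hV hv
  set a : Fin k → ℕ := fun i => v.symm i with ha
  have h1 : Rel φ m k x a := by
    intro hm
    refine not_isMeagre_of_isOpen (isOpen_Ua a) ⟨v, hvk⟩ ((hm.union hVm).mono ?_)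
    intro g hg
    by_cases hgx : φ (g • x) m = true
    · exact Or.inl ⟨hgx, hg⟩
    · exact Or.inr ⟨hk hg, fun h' => hgx h'.1⟩
  have h2 := (h m k a).1 h1
  apply h2
  refine hVm.mono ?_
  rintro g ⟨hgy, hg⟩
  exact ⟨hk hg, fun h' => h'.2 hgy⟩

/-- the relations determine the point -/
theorem eq_of_Rel {φ : X → ℕ → Bool} (hφ : Measurable φ) (hφi : Function.Injective φ)
    (hact : Measurable fun p : Equiv.Perm ℕ × X => p.1 • p.2) {x y : X}
    (h : ∀ m k (a : Fin k → ℕ), Rel φ m k x a ↔ Rel φ m k y a) : x = y := by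
  have h1 := generic_iff_aux hφ hact h
  have h2 := generic_iff_aux hφ hact (x := y) (y := x) (fun m k a => (h m k a).symm)
  have h3 : IsMeagre (⋃ m, ({g : Equiv.Perm ℕ | φ (g • x) m = true ∧ ¬ φ (g • y) m = true} ∪
      {g : Equiv.Perm ℕ | φ (g • y) m = true ∧ ¬ φ (g • x) m = true})) :=
    isMeagre_iUnion fun m => (h1 m).union (h2 m)
  have h4 : ∃ g : Equiv.Perm ℕ, g ∉ (⋃ m, ({g : Equiv.Perm ℕ | φ (g • x) m = true ∧
      ¬ φ (g • y) m = true} ∪ {g : Equiv.Perm ℕ | φ (g • y) m = true ∧ ¬ φ (g • x) m = true})) := by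
    by_contra hcon
    push Not at hcon
    apply not_isMeagre_of_isOpen (X := Equiv.Perm ℕ) isOpen_univ ⟨1, mem_univ _⟩
    exact h3.mono fun g _ => hcon g
  obtain ⟨g, hg⟩ := h4
  have h5 : φ (g • x) = φ (g • y) := by
    funext m
    by_contra hne
    apply hg
    refine mem_iUnion.2 ⟨m, ?_⟩
    rcases Bool.eq_false_or_eq_true (φ (g • x) m) with hx | hx <;>
      rcases Bool.eq_false_or_eq_true (φ (g • y) m) with hy | hy
    · exact absurd (hx.trans hy.symm) hne
    · exact Or.inl ⟨hx, by rw [hy]; simp⟩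
    · exact Or.inr ⟨hy, by rw [hx]; simp⟩
    · exact absurd (hx.trans hy.symm) hne
  have h6 := hφi h5
  exact (MulAction.injective g) h6

end Pool.Agent.H59.TV
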