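import Pool.Agent.H59.TV.Embed

/-!
# Formulas and back-and-forth: oligomorphic stabilisers give a smooth orbit relation
-/

set_option autoImplicit false

open Set Filter Topology Pool.Agent.H71

namespace Pool.Agent.H59.TV

attribute [local instance] permTop polishSpace_perm isTopologicalGroup_perm permMeas
  borelSpace_perm

variable {X : Type*} [MulAction (Equiv.Perm ℕ) X]

/-- the sets of pairs (point, tuple) defined by formulas of complexity at most `s` -/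
def stage (φ : X → ℕ → Bool) : ℕ → ∀ n, Set (Set (X × (Fin n → ℕ)))
  | 0, n => {A | ∃ m, A = {p | Rel φ m n p.1 p.2}} ∪ {A | ∃ i j : Fin n, A = {p | p.2 i = p.2 j}}
  | s + 1, n => stage φ s n ∪ compl '' stage φ s n ∪ image2 (· ∩ ·) (stage φ s n) (stage φ s n) ∪
      (fun A => {p : X × (Fin n → ℕ) | ∃ c, (p.1, (Fin.snoc p.2 c : Fin (n + 1) → ℕ)) ∈ A}) ''
        stage φ s (n + 1) ∪
      ⋃ k, ⋃ σ : Fin k → Fin n,
        (fun A => {p : X × (Fin n → ℕ) | (p.1, p.2 ∘ σ) ∈ A}) '' stage φ s k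

/-- the sets defined by formulas -/
def Fml (φ : X → ℕ → Bool) (n : ℕ) : Set (Set (X × (Fin n → ℕ))) := ⋃ s, stage φ s n

lemma stage_countable (φ : X → ℕ → Bool) (s : ℕ) : ∀ n, (stage φ s n).Countable := by
  induction s with
  | zero =>
    intro n
    refine Countable.union ?_ ?_
    · refine (countable_range fun m => {p : X × (Fin n → ℕ) | Rel φ m n p.1 p.2}).mono ?_
      rintro A ⟨m, rfl⟩
      exact ⟨m, rfl⟩
    · refine (countable_range fun q : Fin n × Fin n =>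
        {p : X × (Fin n → ℕ) | p.2 q.1 = p.2 q.2}).mono ?_
      rintro A ⟨i, j, rfl⟩
      exact ⟨(i, j), rfl⟩
  | succ s ih =>
    intro n
    refine ((((ih n).union ((ih n).image _)).union ((ih n).image2 (ih n) _)).union
      ((ih (n + 1)).image _)).union ?_
    exact countable_iUnion fun k => countable_iUnion fun σ => (ih k).image _

lemma Fml_countable (φ : X → ℕ → Bool) (n : ℕ) : (Fml φ n).Countable :=
  countable_iUnion fun s => stage_countable φ s n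

lemma stage_succ (φ : X → ℕ → Bool) (s n : ℕ) : stage φ s n ⊆ stage φ (s + 1) n :=
  fun _ hA => Or.inl (Or.inl (Or.inl (Or.inl hA)))

lemma stage_mono (φ : X → ℕ → Bool) {s t : ℕ} (h : s ≤ t) (n : ℕ) :
    stage φ s n ⊆ stage φ t n := by
  induction t, h using Nat.le_induction with
  | base => exact Subset.rfl
  | succ t _ ih => exact ih.trans (stage_succ φ t n)

variable {φ : X → ℕ → Bool} {n : ℕ}

lemma Fml_rel (m : ℕ) : {p : X × (Fin n → ℕ) | Rel φ m n p.1 p.2} ∈ Fml φ n :=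
  mem_iUnion.2 ⟨0, Or.inl ⟨m, rfl⟩⟩

lemma Fml_eq (i j : Fin n) : {p : X × (Fin n → ℕ) | p.2 i = p.2 j} ∈ Fml φ n :=
  mem_iUnion.2 ⟨0, Or.inr ⟨i, j, rfl⟩⟩

lemma Fml_compl {A : Set (X × (Fin n → ℕ))} (hA : A ∈ Fml φ n) : Aᶜ ∈ Fml φ n := by
  obtain ⟨s, hs⟩ := mem_iUnion.1 hA
  exact mem_iUnion.2 ⟨s + 1, Or.inl (Or.inl (Or.inl (Or.inr ⟨A, hs, rfl⟩)))⟩

lemma Fml_inter {A B : Set (X × (Fin n → ℕ))} (hA : A ∈ Fml φ n) (hB : B ∈ Fml φ n) :
    A ∩ B ∈ Fml φ n := by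
  obtain ⟨s, hs⟩ := mem_iUnion.1 hA
  obtain ⟨t, ht⟩ := mem_iUnion.1 hB
  exact mem_iUnion.2 ⟨max s t + 1, Or.inl (Or.inl (Or.inr ⟨A, stage_mono φ (le_max_left s t) n hs,
    B, stage_mono φ (le_max_right s t) n ht, rfl⟩))⟩

lemma Fml_ex {A : Set (X × (Fin (n + 1) → ℕ))} (hA : A ∈ Fml φ (n + 1)) :
    {p : X × (Fin n → ℕ) | ∃ c, (p.1, (Fin.snoc p.2 c : Fin (n + 1) → ℕ)) ∈ A} ∈ Fml φ n := by
  obtain ⟨s, hs⟩ := mem_iUnion.1 hA
  exact mem_iUnion.2 ⟨s + 1, Or.inl (Or.inr ⟨A, hs, rfl⟩)⟩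

lemma Fml_sub {k : ℕ} {A : Set (X × (Fin k → ℕ))} (hA : A ∈ Fml φ k) (σ : Fin k → Fin n) :
    {p : X × (Fin n → ℕ) | (p.1, p.2 ∘ σ) ∈ A} ∈ Fml φ n := by
  obtain ⟨s, hs⟩ := mem_iUnion.1 hA
  exact mem_iUnion.2 ⟨s + 1, Or.inr (mem_iUnion₂.2 ⟨k, σ, A, hs, rfl⟩)⟩

lemma Fml_univ : (univ : Set (X × (Fin n → ℕ))) ∈ Fml φ n := by
  have h := Fml_compl (Fml_inter (Fml_rel (φ := φ) (n := n) 0)
    (Fml_compl (Fml_rel (φ := φ) (n := n) 0)))
  rwa [inter_compl_self, compl_empty] at h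

lemma Fml_exAll : ∀ (n : ℕ) {A : Set (X × (Fin n → ℕ))}, A ∈ Fml φ n →
    {p : X × (Fin 0 → ℕ) | ∃ a : Fin n → ℕ, (p.1, a) ∈ A} ∈ Fml φ 0 := by
  intro n
  induction n with
  | zero =>
    intro A hA
    convert hA using 1
    ext p
    simp only [mem_ofPred_eq]
    constructor
    · rintro ⟨a, ha⟩
      have : a = p.2 := Subsingleton.elim _ _
      rw [this] at ha
      exact ha
    · intro h
      exact ⟨p.2, h⟩
  | succ n ih =>
    intro A hA
    have h1 := ih (Fml_ex hA)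
    convert h1 using 1
    ext p
    simp only [mem_ofPred_eq]
    constructor
    · rintro ⟨a, ha⟩
      refine ⟨Fin.init a, a (Fin.last n), ?_⟩
      rw [Fin.snoc_init_self]
      exact ha
    · rintro ⟨a, c, hac⟩
      exact ⟨_, hac⟩

lemma stage_inv (φ : X → ℕ → Bool) (s : ℕ) : ∀ n, ∀ A ∈ stage φ s n,
    ∀ (g : Equiv.Perm ℕ) (x : X) (a : Fin n → ℕ), ((g • x, fun i => g (a i)) ∈ A ↔ (x, a) ∈ A) := by
  induction s with
  | zero =>
    rintro n A (⟨m, rfl⟩ | ⟨i, j, rfl⟩) g x a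
    · exact Rel_smul φ m n g x a
    · simp
  | succ s ih =>
    rintro n A ((((hA | ⟨B, hB, rfl⟩) | ⟨B, hB, C, hC, rfl⟩) | ⟨B, hB, rfl⟩) | hA) g x a
    · exact ih n A hA g x a
    · exact not_congr (ih n B hB g x a)
    · exact and_congr (ih n B hB g x a) (ih n C hC g x a)
    · have key : ∀ c, (Fin.snoc (fun i => g (a i)) (g c) : Fin (n + 1) → ℕ) =
          fun i => g ((Fin.snoc a c : Fin (n + 1) → ℕ) i) := by
        intro c
        funext i
        refine Fin.lastCases ?_ (fun i => ?_) i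
        · simp
        · simp
      simp only [mem_ofPred_eq]
      constructor
      · rintro ⟨c, hc⟩
        refine ⟨g.symm c, ?_⟩
        rw [← ih (n + 1) B hB g x, ← key]
        simpa using hc
      · rintro ⟨c, hc⟩
        refine ⟨g c, ?_⟩
        rw [key, ih (n + 1) B hB g x]
        exact hc
    · obtain ⟨k, σ, B, hB, rfl⟩ := mem_iUnion₂.1 hA
      exact ih k B hB g x (a ∘ σ)

lemma Fml_inv {A : Set (X × (Fin n → ℕ))} (hA : A ∈ Fml φ n) (g : Equiv.Perm ℕ) (x : X)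
    (a : Fin n → ℕ) : (g • x, fun i => g (a i)) ∈ A ↔ (x, a) ∈ A := by
  obtain ⟨s, hs⟩ := mem_iUnion.1 hA
  exact stage_inv φ s n A hs g x a

lemma stage_meas [MeasurableSpace X] (hφ : Measurable φ)
    (hact : Measurable fun p : Equiv.Perm ℕ × X => p.1 • p.2) (s : ℕ) : ∀ n, ∀ A ∈ stage φ s n,
    ∀ a : Fin n → ℕ, MeasurableSet {x | (x, a) ∈ A} := by
  induction s with
  | zero =>
    rintro n A (⟨m, rfl⟩ | ⟨i, j, rfl⟩) a
    · exact Rel_measurable hφ hact m n a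
    · exact MeasurableSet.const (a i = a j)
  | succ s ih =>
    rintro n A ((((hA | ⟨B, hB, rfl⟩) | ⟨B, hB, C, hC, rfl⟩) | ⟨B, hB, rfl⟩) | hA) a
    · exact ih n A hA a
    · exact (ih n B hB a).compl
    · exact (ih n B hB a).inter (ih n C hC a)
    · have : {x : X | (x, a) ∈ {p : X × (Fin n → ℕ) |
          ∃ c, (p.1, (Fin.snoc p.2 c : Fin (n + 1) → ℕ)) ∈ B}} =
          ⋃ c : ℕ, {x | (x, (Fin.snoc a c : Fin (n + 1) → ℕ)) ∈ B} := by
        ext x
        simp only [mem_ofPred_eq, mem_iUnion]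
      exact this ▸ MeasurableSet.iUnion fun c => ih (n + 1) B hB _
    · obtain ⟨k, σ, B, hB, rfl⟩ := mem_iUnion₂.1 hA
      exact ih k B hB (a ∘ σ)

/-- same type -/
def Same (φ : X → ℕ → Bool) {n : ℕ} (x : X) (a : Fin n → ℕ) (y : X) (b : Fin n → ℕ) : Prop :=
  ∀ A ∈ Fml φ n, (x, a) ∈ A ↔ (y, b) ∈ A

lemma Same.symm {x y : X} {a b : Fin n → ℕ} (h : Same φ x a y b) : Same φ y b x a :=
  fun A hA => (h A hA).symm

lemma Same.trans {x y z : X} {a b c : Fin n → ℕ} (h : Same φ x a y b) (h' : Same φ y b z c) :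
    Same φ x a z c := fun A hA => (h A hA).trans (h' A hA)

lemma Same.sub {k : ℕ} {x y : X} {a b : Fin n → ℕ} (h : Same φ x a y b) (σ : Fin k → Fin n) :
    Same φ x (a ∘ σ) y (b ∘ σ) := fun _ hA => h _ (Fml_sub hA σ)

/-- finitely many orbits on tuples -/
def Olig (H : Subgroup (Equiv.Perm ℕ)) : Prop :=
  ∀ n : ℕ, ∃ E : Set (Fin n → ℕ), E.Finite ∧ ∀ a : Fin n → ℕ, ∃ e ∈ E, ∃ h ∈ H, ∀ i, h (e i) = a i

lemma same_of_stabilizer {x : X} {h : Equiv.Perm ℕ} (hh : h ∈ MulAction.stabilizer (Equiv.Perm ℕ) x)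
    {e a : Fin n → ℕ} (hea : ∀ i, h (e i) = a i) : Same φ x e x a := by
  intro A hA
  have := Fml_inv hA h x e
  rw [MulAction.mem_stabilizer_iff.1 hh] at this
  rw [← this]
  have h2 : (fun i => h (e i)) = a := funext hea
  rw [h2]

/-- isolating formulas -/
lemma isolate {x : X} (hx : Olig (MulAction.stabilizer (Equiv.Perm ℕ) x)) (e : Fin n → ℕ) :
    ∃ θ ∈ Fml φ n, (x, e) ∈ θ ∧ ∀ a, (x, a) ∈ θ → Same φ x e x a := by
  obtain ⟨E, hE, hEc⟩ := hx n
  have key : ∀ E : Set (Fin n → ℕ), E.Finite →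
      ∃ θ ∈ Fml φ n, (x, e) ∈ θ ∧ ∀ a ∈ E, (x, a) ∈ θ → Same φ x e x a := by
    intro E hE
    induction E, hE using Set.Finite.induction_on with
    | empty => exact ⟨univ, Fml_univ, mem_univ _, fun a ha => absurd ha (notMem_empty a)⟩
    | @insert a E _ _ ih =>
      obtain ⟨θ, hθ, hxθ, hθE⟩ := ih
      by_cases hs : Same φ x e x a
      · refine ⟨θ, hθ, hxθ, ?_⟩
        rintro b (rfl | hb) hbθ
        · exact hs
        · exact hθE b hb hbθ
      · have : ∃ A ∈ Fml φ n, (x, e) ∈ A ∧ (x, a) ∉ A := by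
          unfold Same at hs
          push Not at hs
          obtain ⟨A, hA, h | h⟩ := hs
          · exact ⟨A, hA, h⟩
          · exact ⟨Aᶜ, Fml_compl hA, h.1, fun h' => h' h.2⟩
        obtain ⟨A, hA, heA, haA⟩ := this
        refine ⟨θ ∩ A, Fml_inter hθ hA, ⟨hxθ, heA⟩, ?_⟩
        rintro b (rfl | hb) hbθ
        · exact absurd hbθ.2 haA
        · exact hθE b hb hbθ.1
  obtain ⟨θ, hθ, hxθ, hθE⟩ := key E hE
  refine ⟨θ, hθ, hxθ, fun a ha => ?_⟩
  obtain ⟨e', he', h, hh, hea⟩ := hEc a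
  have h1 : Same φ x e' x a := same_of_stabilizer hh hea
  exact (hθE e' he' ((h1 θ hθ).2 ha)).trans h1

/-- transfer of isolated types -/
lemma transfer {x y : X} (hxy : ∀ a b : Fin 0 → ℕ, Same φ x a y b) {e : Fin n → ℕ}
    {θ : Set (X × (Fin n → ℕ))} (hθ : θ ∈ Fml φ n)
    (hiso : ∀ a, (x, a) ∈ θ → Same φ x e x a) {b : Fin n → ℕ} (hb : (y, b) ∈ θ) :
    Same φ x e y b := by
  have key : ∀ A ∈ Fml φ n, (x, e) ∈ A → (y, b) ∈ A := by
    intro A hA hxA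
    by_contra hyA
    have h1 : ((y, ![]) : X × (Fin 0 → ℕ)) ∈
        {p : X × (Fin 0 → ℕ) | ∃ a : Fin n → ℕ, (p.1, a) ∈ θ ∩ Aᶜ} := ⟨b, hb, hyA⟩
    have h2 := (hxy ![] ![] _ (Fml_exAll n (Fml_inter hθ (Fml_compl hA)))).2 h1
    obtain ⟨a, haθ, haA⟩ := h2
    exact haA ((hiso a haθ A hA).1 hxA)
  intro A hA
  refine ⟨key A hA, fun hyA => ?_⟩
  by_contra hxA
  exact key Aᶜ (Fml_compl hA) hxA hyA

lemma forth {x y : X} (hx : Olig (MulAction.stabilizer (Equiv.Perm ℕ) x))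
    (hxy : ∀ a b : Fin 0 → ℕ, Same φ x a y b) {a b : Fin n → ℕ} (h : Same φ x a y b) (c : ℕ) :
    ∃ d, Same φ x (Fin.snoc a c : Fin (n + 1) → ℕ) y (Fin.snoc b d : Fin (n + 1) → ℕ) := by
  obtain ⟨θ, hθ, hxθ, hiso⟩ := isolate (φ := φ) hx (Fin.snoc a c : Fin (n + 1) → ℕ)
  obtain ⟨d, hd⟩ := (h _ (Fml_ex hθ)).1 ⟨c, hxθ⟩
  exact ⟨d, transfer hxy hθ hiso hd⟩

lemma exists_type {x y : X} (hx : Olig (MulAction.stabilizer (Equiv.Perm ℕ) x))
    (hxy : ∀ a b : Fin 0 → ℕ, Same φ x a y b) (b : Fin n → ℕ) : ∃ e θ, θ ∈ Fml φ n ∧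
      (∀ a, (x, a) ∈ θ → Same φ x e x a) ∧ (x, e) ∈ θ ∧ (y, b) ∈ θ := by
  obtain ⟨E, hE, hEc⟩ := hx n
  choose θ hθ hxθ hiso using fun e : Fin n → ℕ => isolate (φ := φ) hx e
  by_contra hcon
  push Not at hcon
  have key : ∀ E : Set (Fin n → ℕ), E.Finite → ∃ A ∈ Fml φ n, (y, b) ∈ A ∧
      ∀ e ∈ E, ∀ a, (x, a) ∈ A → (x, a) ∉ θ e := by
    intro E hE
    induction E, hE using Set.Finite.induction_on with
    | empty => exact ⟨univ, Fml_univ, mem_univ _, fun a ha => absurd ha (notMem_empty a)⟩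
    | @insert e E _ _ ih =>
      obtain ⟨A, hA, hyA, hAE⟩ := ih
      refine ⟨A ∩ (θ e)ᶜ, Fml_inter hA (Fml_compl (hθ e)), ⟨hyA, ?_⟩, ?_⟩
      · exact hcon e (θ e) (hθ e) (hiso e) (hxθ e)
      · rintro e' (rfl | he') a ha
        · exact ha.2
        · exact hAE e' he' a ha.1
  obtain ⟨A, hA, hyA, hAE⟩ := key E hE
  have h1 : ((y, ![]) : X × (Fin 0 → ℕ)) ∈
      {p : X × (Fin 0 → ℕ) | ∃ a : Fin n → ℕ, (p.1, a) ∈ A} := ⟨b, hyA⟩
  obtain ⟨a, ha⟩ := (hxy ![] ![] _ (Fml_exAll n hA)).2 h1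
  obtain ⟨e', he', h, hh, hea⟩ := hEc a
  have h2 : Same φ x e' x a := same_of_stabilizer hh hea
  exact hAE e' he' a ha ((h2 _ (hθ e')).1 (hxθ e'))

lemma back {x y : X} (hx : Olig (MulAction.stabilizer (Equiv.Perm ℕ) x))
    (hxy : ∀ a b : Fin 0 → ℕ, Same φ x a y b) {a b : Fin n → ℕ} (h : Same φ x a y b) (d : ℕ) :
    ∃ c, Same φ x (Fin.snoc a c : Fin (n + 1) → ℕ) y (Fin.snoc b d : Fin (n + 1) → ℕ) := by
  obtain ⟨e, θ, hθ, hiso, hxθ, hyθ⟩ := exists_type (φ := φ) hx hxy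
    (Fin.snoc b d : Fin (n + 1) → ℕ)
  obtain ⟨c, hc⟩ := (h _ (Fml_ex hθ)).2 ⟨d, hyθ⟩
  exact ⟨c, (hiso _ hc).symm.trans (transfer hxy hθ hiso hyθ)⟩

/-- finite partial isomorphisms -/
def Good (φ : X → ℕ → Bool) (x y : X) (s : Set (ℕ × ℕ)) : Prop :=
  ∀ (n : ℕ) (p : Fin n → ℕ × ℕ), (∀ i, p i ∈ s) →
    Same φ x (fun i => (p i).1) y (fun i => (p i).2)

lemma extend {x y : X} (hx : Olig (MulAction.stabilizer (Equiv.Perm ℕ) x))
    (hxy : ∀ a b : Fin 0 → ℕ, Same φ x a y b) {s : Finset (ℕ × ℕ)} (hs : Good φ x y s) :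
    (∀ c, ∃ d, Good φ x y (insert (c, d) s : Finset (ℕ × ℕ))) ∧
      ∀ d, ∃ c, Good φ x y (insert (c, d) s : Finset (ℕ × ℕ)) := by
  classical
  set p0 : Fin s.card → ℕ × ℕ := fun i => (s.equivFin.symm i : ℕ × ℕ) with hp0
  have hp0s : ∀ i, p0 i ∈ s := fun i => (s.equivFin.symm i).2
  have h0 : Same φ x (fun i => (p0 i).1) y (fun i => (p0 i).2) := hs _ p0 hp0s
  have key : ∀ c d, Same φ x (Fin.snoc (fun i => (p0 i).1) c : Fin (s.card + 1) → ℕ) y
      (Fin.snoc (fun i => (p0 i).2) d : Fin (s.card + 1) → ℕ) →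
      Good φ x y (insert (c, d) s : Finset (ℕ × ℕ)) := by
    intro c d hcd k p hp
    have hσ : ∀ i, ∃ j : Fin (s.card + 1),
        (p i).1 = (Fin.snoc (fun i => (p0 i).1) c : Fin (s.card + 1) → ℕ) j ∧
        (p i).2 = (Fin.snoc (fun i => (p0 i).2) d : Fin (s.card + 1) → ℕ) j := by
      intro i
      have h1 := hp i
      rw [Finset.mem_coe, Finset.mem_insert] at h1
      rcases h1 with h1 | h1
      · exact ⟨Fin.last _, by simp [h1], by simp [h1]⟩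
      · refine ⟨(s.equivFin ⟨p i, h1⟩).castSucc, ?_, ?_⟩ <;> simp [hp0]
    choose σ hσ1 hσ2 using hσ
    have h2 := hcd.sub σ
    have e1 : (fun i => (p i).1) =
        (Fin.snoc (fun i => (p0 i).1) c : Fin (s.card + 1) → ℕ) ∘ σ := funext hσ1
    have e2 : (fun i => (p i).2) =
        (Fin.snoc (fun i => (p0 i).2) d : Fin (s.card + 1) → ℕ) ∘ σ := funext hσ2
    rw [e1, e2]
    exact h2
  constructor
  · intro c
    obtain ⟨d, hd⟩ := forth hx hxy h0 c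
    exact ⟨d, key c d hd⟩
  · intro d
    obtain ⟨c, hc⟩ := back hx hxy h0 d
    exact ⟨c, key c d hc⟩

lemma exists_iso {x y : X} (hx : Olig (MulAction.stabilizer (Equiv.Perm ℕ) x))
    (hxy : ∀ a b : Fin 0 → ℕ, Same φ x a y b) :
    ∃ h : Equiv.Perm ℕ, ∀ (n : ℕ) (a : Fin n → ℕ), Same φ x a y (fun i => h (a i)) := by
  classical
  have hstep : ∀ (s : {s : Finset (ℕ × ℕ) // Good φ x y s}) (k : ℕ),
      ∃ t : {s : Finset (ℕ × ℕ) // Good φ x y s}, s.1 ⊆ t.1 ∧ (∃ d, (k, d) ∈ t.1) ∧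
        ∃ c, (c, k) ∈ t.1 := by
    rintro ⟨s, hs⟩ k
    obtain ⟨d, hd⟩ := (extend hx hxy hs).1 k
    obtain ⟨c, hc⟩ := (extend hx hxy hd).2 k
    refine ⟨⟨_, hc⟩, ?_, ⟨d, ?_⟩, ⟨c, ?_⟩⟩
    · exact (Finset.subset_insert _ _).trans (Finset.subset_insert _ _)
    · exact Finset.mem_insert_of_mem (Finset.mem_insert_self _ _)
    · exact Finset.mem_insert_self _ _
  choose step hstep1 hstep2 hstep3 using hstep
  have hempty : Good φ x y ((∅ : Finset (ℕ × ℕ)) : Set (ℕ × ℕ)) := by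
    intro n p hp
    cases n with
    | zero => exact hxy _ _
    | succ n => exact absurd (hp 0) (by simp)
  let T : ℕ → {s : Finset (ℕ × ℕ) // Good φ x y s} := fun k =>
    Nat.rec ⟨∅, hempty⟩ (fun k s => step s k) k
  have hT : ∀ k, T (k + 1) = step (T k) k := fun k => rfl
  have hmono : ∀ i j, i ≤ j → (T i).1 ⊆ (T j).1 := by
    intro i j hij
    induction j, hij using Nat.le_induction with
    | base => exact Finset.Subset.refl _
    | succ j _ ih =>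
      rw [hT]
      exact ih.trans (hstep1 _ _)
  let R : Set (ℕ × ℕ) := ⋃ k, ((T k).1 : Set (ℕ × ℕ))
  have hR : Good φ x y R := by
    intro n p hp
    have h1 : ∀ i, ∃ k, p i ∈ (T k).1 := fun i => by
      obtain ⟨k, hk⟩ := mem_iUnion.1 (hp i)
      exact ⟨k, hk⟩
    choose k hk using h1
    refine (T (Finset.univ.sup k)).2 n p fun i => ?_
    exact hmono _ _ (Finset.le_sup (Finset.mem_univ i)) (hk i)
  have htot : ∀ c, ∃ d, (c, d) ∈ R := by
    intro c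
    obtain ⟨d, hd⟩ := hstep2 (T c) c
    exact ⟨d, mem_iUnion.2 ⟨c + 1, hd⟩⟩
  have hsurj : ∀ d, ∃ c, (c, d) ∈ R := by
    intro d
    obtain ⟨c, hc⟩ := hstep3 (T d) d
    exact ⟨c, mem_iUnion.2 ⟨d + 1, hc⟩⟩
  have heq : ∀ p ∈ R, ∀ q ∈ R, (p.1 = q.1 ↔ p.2 = q.2) := by
    intro p hp q hq
    have h1 := hR 2 ![p, q] (by
      intro i
      fin_cases i
      · exact hp
      · exact hq) _ (Fml_eq 0 1)
    simpa using h1
  choose h hh using htot
  have hbij : Function.Bijective h := by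
    constructor
    · intro c c' hcc'
      exact (heq _ (hh c) _ (hh c')).2 hcc'
    · intro d
      obtain ⟨c, hc⟩ := hsurj d
      exact ⟨c, (heq _ (hh c) _ hc).1 rfl⟩
  refine ⟨Equiv.ofBijective h hbij, fun n a => ?_⟩
  exact hR n (fun i => (a i, h (a i))) fun i => hh (a i)

variable [MeasurableSpace X]

/-- If all stabilisers are oligomorphic, then the orbit relation is smooth. -/
theorem smooth_of_olig [StandardBorelSpace X]
    (hact : Measurable fun p : Equiv.Perm ℕ × X => p.1 • p.2)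
    (hX : ∀ x : X, Olig (MulAction.stabilizer (Equiv.Perm ℕ) x)) :
    ∃ Θ : X → ℕ → Bool, Measurable Θ ∧ (∀ (g : Equiv.Perm ℕ) x, Θ (g • x) = Θ x) ∧
      ∀ x y, Θ x = Θ y → ∃ g : Equiv.Perm ℕ, g • x = y := by
  classical
  obtain ⟨φ, hφ, hφi⟩ := MeasurableSpace.measurable_injection_nat_bool_of_countablySeparated X
  obtain ⟨f, hf⟩ := (Fml_countable φ 0).exists_eq_range ⟨univ, Fml_univ⟩
  refine ⟨fun x n => decide ((x, ![]) ∈ f n), ?_, ?_, ?_⟩
  · refine measurable_pi_lambda _ fun n => ?_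
    refine measurable_to_bool ?_
    have hfn : f n ∈ Fml φ 0 := by rw [hf]; exact mem_range_self n
    obtain ⟨s, hs⟩ := mem_iUnion.1 hfn
    have := stage_meas hφ hact s 0 (f n) hs ![]
    convert this using 1
    ext x
    simp
  · intro g x
    funext n
    have hfn : f n ∈ Fml φ 0 := by rw [hf]; exact mem_range_self n
    have h1 := Fml_inv hfn g x ![]
    have h2 : (fun i : Fin 0 => g ((![] : Fin 0 → ℕ) i)) = ![] := Subsingleton.elim _ _
    rw [h2] at h1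
    exact decide_eq_decide.2 h1
  · intro x y hxy
    have h0 : ∀ a b : Fin 0 → ℕ, Same φ x a y b := by
      intro a b A hA
      rw [hf] at hA
      obtain ⟨n, rfl⟩ := hA
      have h1 := congrFun hxy n
      have ha : a = ![] := Subsingleton.elim _ _
      have hb : b = ![] := Subsingleton.elim _ _
      rw [ha, hb]
      simpa using h1
    obtain ⟨h, hh⟩ := exists_iso (hX x) h0
    refine ⟨h, ?_⟩
    have h1 : x = h⁻¹ • y := by
      refine eq_of_Rel hφ hφi hact fun m k a => ?_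
      have h2 : Rel φ m k x a ↔ Rel φ m k y (fun i => h (a i)) := hh k a _ (Fml_rel m)
      have h3 := Rel_smul φ m k h⁻¹ y (fun i => h (a i))
      have e1 : (fun i => h⁻¹ (h (a i))) = a := by
        funext i
        exact Equiv.symm_apply_apply h (a i)
      rw [e1] at h3
      rw [h2]
      exact h3.symm
    rw [h1, smul_inv_smul]

end Pool.Agent.H59.TV
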